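import Pool.Agent.Y673.Loc.Mul
import Pool.Agent.W239.FM.MUL
import Pool.Agent.W342.FM.AS
import Pool.Agent.W696.FM.Can
import Pool.Agent.W125.FM.Fac

/-!
# The number of torsion points in arbitrary characteristic

This is the part of the starting file `Pool/Agent/N890/DU/TOR.lean` which proves `card_torsion`, without its heavy
imports.
-/

set_option autoImplicit false

namespace Pool.Agent.T9h30.PG.TOR

open WeierstrassCurve Pool.Agent.H901R3.MS Pool.Agent.W275.FM Polynomial
open Pool.Agent.W239.FM.MUL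

section step
variable {F : Type} [Field F] [DecidableEq F]

theorem gd_step [IsAlgClosed F] (hAS : S_AS) (hCAN : S_CAN) (hFAC : S_FAC) {a b : F}
    (h20 : (2 : F) ≠ 0) (hD : Disc a b) {k : ℕ} {U0 V0 U1 V1 : F[X]} (h0 : Gd a b k U0 V0)
    (h1 : Gd a b (k + 1) U1 V1) : ∃ U2 V2 : F[X], Gd a b (k + 2) U2 V2 := by
  obtain ⟨hc0, hU0, hV0, he0⟩ := h0
  obtain ⟨hc1, hU1, hV1, he1⟩ := h1
  set s := fS (C a) (C b) (U1 * X) (U1 + X * V1) V1 with hs
  set t := fT (C a) (C b) (U1 * X) (U1 + X * V1) V1 with ht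
  set u := fW (U1 * X) (U1 + X * V1) V1 with hu
  have hse : ∀ x, s.eval x = fS a b (U1.eval x * x) (U1.eval x + x * V1.eval x) (V1.eval x) := by
    intro x; rw [hs]; unfold fS; simp
  have hte : ∀ x, t.eval x = fT a b (U1.eval x * x) (U1.eval x + x * V1.eval x) (V1.eval x) := by
    intro x; rw [ht]; unfold fT; simp
  have hue : ∀ x, u.eval x = fW (U1.eval x * x) (U1.eval x + x * V1.eval x) (V1.eval x) := by
    intro x; rw [hu]; unfold fW; simp
  -- the values at a point
  have key : ∀ (x y : F) (h : (CV a b).toAffine.Nonsingular x y), ∃ μ ν : F, μ ≠ 0 ∧ ν ≠ 0 ∧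
      hx ((k + 2) • (Affine.Point.some x y h : Pt a b)) * (μ * U0.eval x) = ν * s.eval x ∧
      hx ((k + 2) • (Affine.Point.some x y h : Pt a b)) * (μ * V0.eval x) +
        μ * U0.eval x * hz ((k + 2) • (Affine.Point.some x y h : Pt a b)) = ν * t.eval x ∧
      hz ((k + 2) • (Affine.Point.some x y h : Pt a b)) * (μ * V0.eval x) = ν * u.eval x := by
    intro x y h
    obtain ⟨μ0, hμ0, ha0, hb0⟩ := he0 x y h
    obtain ⟨μ1, hμ1, ha1, hb1⟩ := he1 x y h
    set P : Pt a b := Affine.Point.some x y h with hP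
    have e1 : (k + 1) • P + P = (k + 2) • P := (succ_nsmul P (k + 1)).symm
    have e2 : (k + 1) • P - P = k • P := by rw [succ_nsmul, add_sub_cancel_right]
    obtain ⟨c, hc, g1, g2, g3⟩ := hAS F h20 a b hD ((k + 1) • P) P
    have hxP : hx P = x := rfl
    have hzP : hz P = 1 := rfl
    rw [e1, e2, ha0, ha1, hb1, hxP, hzP] at g1
    rw [e1, e2, ha0, hb0, ha1, hb1, hxP, hzP] at g2
    rw [e1, e2, hb0, ha1, hb1, hxP, hzP] at g3
    refine ⟨μ0, c * μ1 ^ 2, hμ0, mul_ne_zero hc (pow_ne_zero 2 hμ1), ?_, ?_, ?_⟩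
    · rw [g1, hse]; unfold fS; ring
    · rw [g2, hte]; unfold fT; ring
    · rw [g3, hue]; unfold fW; ring
  -- the polynomial identity
  have hpoly : u * U0 ^ 2 - t * (U0 * V0) + s * V0 ^ 2 = 0 := by
    apply Polynomial.funext
    intro x
    obtain ⟨y, hy⟩ := IsAlgClosed.exists_pow_nat_eq (x ^ 3 + a * x + b) (n := 2) (by norm_num)
    have h : (CV a b).toAffine.Nonsingular x y := (nonsingular_iff hD).2 hy
    obtain ⟨μ, ν, hμ, hν, g1, g2, g3⟩ := key x y h
    rw [eval_zero]
    simp only [eval_add, eval_sub, eval_mul, eval_pow]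
    have h3 : ν * (u.eval x * U0.eval x ^ 2 - t.eval x * (U0.eval x * V0.eval x) +
        s.eval x * V0.eval x ^ 2) = 0 := by
      have : ν * (u.eval x * U0.eval x ^ 2 - t.eval x * (U0.eval x * V0.eval x) +
        s.eval x * V0.eval x ^ 2) = (ν * u.eval x) * U0.eval x ^ 2 -
          (ν * t.eval x) * (U0.eval x * V0.eval x) + (ν * s.eval x) * V0.eval x ^ 2 := by ring
      rw [this, ← g1, ← g2, ← g3]
      ring
    exact (mul_eq_zero.1 h3).resolve_left hν
  obtain ⟨α, β, hsα, htα, huβ⟩ := hFAC F U0 V0 s t u hc0 hpoly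
  obtain ⟨c1, c2, c3, hcan⟩ := hCAN F h20 a b hD U1 V1 hc1
  rw [← hs, ← ht, ← hu] at hcan
  have hU00 : U0 ≠ 0 := by
    intro h; rw [h, degree_zero] at hU0; exact WithBot.bot_ne_coe hU0
  refine ⟨α, β, ?_, ?_, ?_, ?_⟩
  · -- coprime
    refine ⟨c1 * U0 + c2 * V0, c2 * U0 + c3 * V0, ?_⟩
    rw [hsα, htα, huβ] at hcan
    linear_combination hcan
  · -- degree of α
    have h5 := deg_s (n := k + 1) a b hU1 hV1
    rw [← hs, hsα, degree_mul, hU0] at h5
    have hα0 : α ≠ 0 := by
      intro h; rw [h, degree_zero, WithBot.bot_add] at h5; exact WithBot.bot_ne_coe h5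
    rw [degree_eq_natDegree hα0] at h5 ⊢
    have h6 : α.natDegree + k ^ 2 = 2 * (k + 1) ^ 2 + 2 := by exact_mod_cast h5
    have h7 : α.natDegree = (k + 2) ^ 2 := by nlinarith
    rw [h7]
  · -- degree of β
    have h5 := deg_s (n := k + 1) a b hU1 hV1
    rw [← hs, hsα, degree_mul, hU0] at h5
    have hα0 : α ≠ 0 := by
      intro h; rw [h, degree_zero, WithBot.bot_add] at h5; exact WithBot.bot_ne_coe h5
    rw [degree_eq_natDegree hα0] at h5
    have h6 : α.natDegree + k ^ 2 = 2 * (k + 1) ^ 2 + 2 := by exact_mod_cast h5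
    have hαV : (α * V0).degree < ((2 * (k + 1) ^ 2 + 2 : ℕ) : WithBot ℕ) := by
      by_cases hv : V0 = 0
      · rw [hv, mul_zero, degree_zero]; exact WithBot.bot_lt_coe _
      · rw [degree_mul, degree_eq_natDegree hα0, degree_eq_natDegree hv]
        have := (natDegree_lt_iff_degree_lt hv).2 hV0
        exact_mod_cast (by omega : α.natDegree + V0.natDegree < 2 * (k + 1) ^ 2 + 2)
    have h8 : (β * U0).degree < ((2 * (k + 1) ^ 2 + 2 : ℕ) : WithBot ℕ) := by
      have h9 : β * U0 = t - α * V0 := by rw [htα]; ring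
      rw [h9]
      refine lt_of_le_of_lt (degree_sub_le _ _) (max_lt ?_ hαV)
      rw [ht]
      exact deg_t a b hU1 hV1
    by_cases hβ : β = 0
    · rw [hβ, degree_zero]; exact WithBot.bot_lt_coe _
    · rw [degree_mul, hU0, degree_eq_natDegree hβ] at h8
      rw [degree_eq_natDegree hβ]
      have h10 : β.natDegree + k ^ 2 < 2 * (k + 1) ^ 2 + 2 := by exact_mod_cast h8
      have h11 : β.natDegree < (k + 2) ^ 2 := by nlinarith
      exact_mod_cast h11
  · -- evaluation
    intro x y h
    obtain ⟨μ, ν, hμ, hν, g1, g2, g3⟩ := key x y h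
    set X3 := hx ((k + 2) • (Affine.Point.some x y h : Pt a b)) with hX3
    set Z3 := hz ((k + 2) • (Affine.Point.some x y h : Pt a b)) with hZ3
    rw [hsα, eval_mul] at g1
    rw [htα, eval_add, eval_mul, eval_mul] at g2
    rw [huβ, eval_mul] at g3
    have hne : U0.eval x ≠ 0 ∨ V0.eval x ≠ 0 := by
      by_contra hcon
      push Not at hcon
      obtain ⟨p, q, hpq⟩ := hc0
      have := congrArg (Polynomial.eval x) hpq
      rw [eval_add, eval_mul, eval_mul, hcon.1, hcon.2, mul_zero, mul_zero, add_zero,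
        eval_one] at this
      exact zero_ne_one this
    have hA : (μ * X3 - ν * α.eval x) * U0.eval x = 0 := by linear_combination g1
    have hB : (μ * Z3 - ν * β.eval x) * V0.eval x = 0 := by linear_combination g3
    have hAB : (μ * X3 - ν * α.eval x) * V0.eval x + (μ * Z3 - ν * β.eval x) * U0.eval x = 0 := by
      linear_combination g2
    have hres : μ * X3 - ν * α.eval x = 0 ∧ μ * Z3 - ν * β.eval x = 0 := by
      by_cases hU : U0.eval x = 0
      · have hV := hne.resolve_left (not_not.2 hU)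
        have hB' := (mul_eq_zero.1 hB).resolve_right hV
        rw [hB', zero_mul, add_zero] at hAB
        exact ⟨(mul_eq_zero.1 hAB).resolve_right hV, hB'⟩
      · have hA' := (mul_eq_zero.1 hA).resolve_right hU
        rw [hA', zero_mul, zero_add] at hAB
        exact ⟨hA', (mul_eq_zero.1 hAB).resolve_right hU⟩
    refine ⟨ν / μ, div_ne_zero hν hμ, ?_, ?_⟩
    · field_simp
      linear_combination hres.1
    · field_simp
      linear_combination hres.2

end step

theorem two_ne {F : Type} [Field F] {a b : F} (hD : Disc a b) : (2 : F) ≠ 0 := by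
  intro h
  apply hD
  rw [h, zero_mul]

theorem mulp {F : Type} [Field F] [DecidableEq F] [IsAlgClosed F] {a b : F} (hD : Disc a b)
    (n : ℕ) (hn : 1 ≤ n) : ∃ U V : F[X], IsCoprime U V ∧ U.natDegree = n ^ 2 ∧
    V.natDegree < n ^ 2 ∧ ∀ (x y : F) (h : (CV a b).toAffine.Nonsingular x y), ∃ μ : F, μ ≠ 0 ∧
      hx (n • (Affine.Point.some x y h : Pt a b)) = μ * U.eval x ∧
      hz (n • (Affine.Point.some x y h : Pt a b)) = μ * V.eval x := by
  have hind : ∀ k : ℕ, ∃ U0 V0 U1 V1 : F[X], Gd a b k U0 V0 ∧ Gd a b (k + 1) U1 V1 := by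
    intro k
    induction k with
    | zero => exact ⟨1, 0, X, 1, gd_zero a b, gd_one a b⟩
    | succ k ih =>
      obtain ⟨U0, V0, U1, V1, h0, h1⟩ := ih
      obtain ⟨U2, V2, h2⟩ := gd_step Pool.Agent.W342.FM.AS.main Pool.Agent.W696.FM.Can.main
        Pool.Agent.W125.FM.Fac.main (two_ne hD) hD h0 h1
      exact ⟨U1, V1, U2, V2, h1, h2⟩
  obtain ⟨U, V, -, -, ⟨h1, h2, h3, h4⟩, -⟩ := hind n
  refine ⟨U, V, h1, natDegree_eq_of_degree_eq_some h2, ?_, h4⟩
  by_cases hV : V = 0
  · rw [hV, natDegree_zero]; positivity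
  · exact (natDegree_lt_iff_degree_lt hV).2 h3

section card
variable {F : Type} [Field F] {a b : F}

/-- coordinates of a point -/
def ckey : Pt a b → Option (F × F)
  | Affine.Point.zero => none
  | Affine.Point.some x y _ => some (x, y)

theorem ckey_inj : Function.Injective (ckey : Pt a b → Option (F × F)) := by
  intro P Q h
  rcases P with _ | ⟨x, y, hxy⟩ <;> rcases Q with _ | ⟨x', y', hxy'⟩
  · rfl
  · simp [ckey] at h
  · simp [ckey] at h
  · simp only [ckey, Option.some.injEq, Prod.mk.injEq] at h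
    obtain ⟨rfl, rfl⟩ := h
    rfl

variable [IsAlgClosed F]

open scoped Classical in
/-- the number of points of order dividing `n` -/
theorem card_torsion (hD : Disc a b) {n : ℕ} (hn : 1 ≤ n) :
    {P : Pt a b | n • P = 0}.Finite ∧ {P : Pt a b | n • P = 0}.ncard ≤ 2 * n ^ 2 := by
  obtain ⟨U, V, hcop, hU, hV, hmul⟩ := mulp hD n hn
  have hn2 : 1 ≤ n ^ 2 := Nat.one_le_pow _ _ hn
  have hV0 : V ≠ 0 := by
    rintro rfl
    rw [isCoprime_zero_right] at hcop
    have := Polynomial.natDegree_eq_zero_of_isUnit hcop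
    omega
  set G : Finset (F × F) := V.roots.toFinset.biUnion
    (fun x => (Polynomial.nthRoots 2 (x ^ 3 + a * x + b)).toFinset.image (fun y => (x, y))) with hG
  have hGc : G.card ≤ 2 * (n ^ 2 - 1) := by
    calc G.card ≤ ∑ x ∈ V.roots.toFinset,
          ((Polynomial.nthRoots 2 (x ^ 3 + a * x + b)).toFinset.image (fun y => (x, y))).card :=
          Finset.card_biUnion_le
      _ ≤ ∑ x ∈ V.roots.toFinset, 2 := Finset.sum_le_sum fun x _ =>
          Finset.card_image_le.trans ((Multiset.toFinset_card_le _).trans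
            (Polynomial.card_nthRoots _ _))
      _ = V.roots.toFinset.card * 2 := by rw [Finset.sum_const, smul_eq_mul]
      _ ≤ (n ^ 2 - 1) * 2 := by
          refine Nat.mul_le_mul_right _ ?_
          have := (Multiset.toFinset_card_le V.roots).trans (Polynomial.card_roots' V)
          omega
      _ = 2 * (n ^ 2 - 1) := mul_comm _ _
  have hsub : ckey '' {P : Pt a b | n • P = 0} ⊆
      ((insert none (G.image some) : Finset (Option (F × F))) : Set (Option (F × F))) := by
    rintro _ ⟨P, hP, rfl⟩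
    rcases P with _ | ⟨x, y, h⟩
    · rw [Finset.mem_coe]
      exact Finset.mem_insert_self _ _
    · rw [Finset.mem_coe]
      refine Finset.mem_insert_of_mem (Finset.mem_image_of_mem _ ?_)
      obtain ⟨μ, hμ, _, h2⟩ := hmul x y h
      have h3 : n • (Affine.Point.some x y h : Pt a b) = 0 := hP
      rw [h3] at h2
      have h4 : (0 : F) = μ * V.eval x := h2
      have h5 : V.eval x = 0 := (mul_eq_zero.1 h4.symm).resolve_left hμ
      rw [hG, Finset.mem_biUnion]
      refine ⟨x, ?_, ?_⟩
      · rw [Multiset.mem_toFinset, Polynomial.mem_roots hV0]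
        exact h5
      · refine Finset.mem_image_of_mem _ ?_
        rw [Multiset.mem_toFinset, Polynomial.mem_nthRoots (by norm_num)]
        exact eqn_of h
  have hfin : {P : Pt a b | n • P = 0}.Finite :=
    Set.Finite.of_finite_image ((Finset.finite_toSet _).subset hsub) ckey_inj.injOn
  refine ⟨hfin, ?_⟩
  have h1 : {P : Pt a b | n • P = 0}.ncard = (ckey '' {P : Pt a b | n • P = 0}).ncard :=
    (Set.ncard_image_of_injective _ ckey_inj).symm
  rw [h1]
  refine (Set.ncard_le_ncard hsub (Finset.finite_toSet _)).trans ?_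
  rw [Set.ncard_coe_finset]
  refine (Finset.card_insert_le _ _).trans ?_
  have := Finset.card_image_le (s := G) (f := some)
  omega

end card

end Pool.Agent.T9h30.PG.TOR
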