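import Pool.Agent.T9h30.PG.Dsc
import Pool.Agent.Q286.EQ.MW

/-!
# Descent along extensions of `p`-power degree
-/

set_option autoImplicit false
set_option linter.unusedSectionVars false

namespace Pool.Agent.T9h30.PG

open NumberField IsDedekindDomain WeierstrassCurve
open Pool.Agent.T9h30.BT

attribute [local instance] actE

section dec

variable {K M : Type} [Field K] [NumberField K] [Field M] [NumberField M] [Algebra K M]

/-- the decomposition group -/
def Dg (w : HeightOneSpectrum (𝓞 M)) : Subgroup (M ≃ₐ[K] M) where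
  carrier := {g | ∀ x : 𝓞 M, g • x ∈ w.asIdeal ↔ x ∈ w.asIdeal}
  one_mem' := fun x => by rw [one_smul]
  mul_mem' := fun {g h} hg hh x => by rw [mul_smul, hg, hh]
  inv_mem' := fun {g} hg x => by
    have h1 := hg (g⁻¹ • x)
    rw [smul_inv_smul] at h1
    exact h1.symm

lemma In_le (w : HeightOneSpectrum (𝓞 M)) : In (K := K) w ≤ Dg w := by
  intro g hg x
  have h1 : g • x - x ∈ w.asIdeal := hg x
  constructor
  · intro h
    have := w.asIdeal.sub_mem h h1
    rwa [sub_sub_cancel] at this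
  · intro h
    have := w.asIdeal.add_mem h1 h
    rwa [sub_add_cancel] at this

lemma frb_mem {w : HeightOneSpectrum (𝓞 M)} {φ : M ≃ₐ[K] M} (hφ : Frb w φ) : φ ∈ Dg w := by
  intro x
  have h1 := hφ x
  constructor
  · intro h
    have h2 := w.asIdeal.sub_mem h h1
    rw [sub_sub_cancel] at h2
    exact w.isPrime.mem_of_pow_mem _ h2
  · intro h
    have h2 : x ^ Ideal.absNorm (lo (K := K) w).asIdeal ∈ w.asIdeal :=
      Ideal.pow_mem_of_mem _ h _ (by have := one_lt_nrm (lo (K := K) w); omega)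
    have := w.asIdeal.add_mem h1 h2
    rwa [sub_add_cancel] at this

lemma comm_mem {w : HeightOneSpectrum (𝓞 M)} {φ : M ≃ₐ[K] M} (hφ : Frb w φ) {g : M ≃ₐ[K] M}
    (hg : g ∈ Dg w) (n : ℕ) : g⁻¹ * (φ ^ n)⁻¹ * g * φ ^ n ∈ In (K := K) w := by
  rw [mem_In]
  intro x
  set q := Ideal.absNorm (lo (K := K) w).asIdeal with hq
  have h1 : g • φ ^ n • x - g • x ^ q ^ n ∈ w.asIdeal := by
    rw [← smul_sub]
    exact (hg _).2 (frb_pow hφ n x)
  have h2 := frb_pow hφ n (g • x)
  have h3 : g • φ ^ n • x - φ ^ n • g • x ∈ w.asIdeal := by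
    have h4 : g • x ^ q ^ n = (g • x) ^ q ^ n := smul_pow' g x _
    rw [h4] at h1
    have h5 := w.asIdeal.sub_mem h1 h2
    rwa [sub_sub_sub_cancel_right] at h5
  have h4 : (φ ^ n)⁻¹ ∈ Dg w := (Dg w).inv_mem ((Dg w).pow_mem (frb_mem hφ) n)
  have h5 := (h4 _).2 h3
  have h6 := ((Dg w).inv_mem hg _).2 h5
  have e : g⁻¹ • (φ ^ n)⁻¹ • (g • φ ^ n • x - φ ^ n • g • x) =
      (g⁻¹ * (φ ^ n)⁻¹ * g * φ ^ n) • x - x := by
    rw [smul_sub, smul_sub, inv_smul_smul, inv_smul_smul]
    simp only [mul_smul]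
  rw [e] at h6
  exact h6

end dec

section main

variable {K : Type} [Field K] [NumberField K]

open Classical in
/-- the Selmer conditions over `K` -/
structure ScG (a b : 𝓞 K) (p : ℕ) {M : Type} [Field M] [NumberField M] [Algebra K M]
    [DecidableEq M] (f : (M ≃ₐ[K] M) → EP (a : K) (b : K) M) : Prop where
  coc : ∀ g h : M ≃ₐ[K] M, f (g * h) = f g + mp (g : M →ₐ[K] M) (f h)
  tor : ∀ g : M ≃ₐ[K] M, p • f g = 0
  unr : ∀ w : HeightOneSpectrum (𝓞 M),
    algebraMap (𝓞 K) (𝓞 M) (2 * p * (4 * a ^ 3 + 27 * b ^ 2)) ∉ w.asIdeal →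
      ∀ g : M ≃ₐ[K] M, (∀ x : 𝓞 M, g • x - x ∈ w.asIdeal) → f g = 0
  loc : ∀ v : HeightOneSpectrum (𝓞 K), 2 * p * (4 * a ^ 3 + 27 * b ^ 2) ∈ v.asIdeal →
    ∀ ι : M →ₐ[K] Kb v, ∃ P : EP (a : K) (b : K) (Kb v),
      ∀ (τ : Kb v ≃ₐ[v.adicCompletion K] Kb v) (s : M ≃ₐ[K] M), (∀ x, τ (ι x) = ι (s x)) →
        mp ι (f s) = mp (τ.restrictScalars K : Kb v →ₐ[K] Kb v) P - P

/-- the `p`-Selmer group over `K` is trivial -/
def SelT (a b : 𝓞 K) (p : ℕ) : Prop :=
  ∀ (M : Type) [Field M] [DecidableEq M] [NumberField M] [Algebra K M] [IsGalois K M]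
    (f : (M ≃ₐ[K] M) → EP (a : K) (b : K) M), ScG a b p f →
      ∃ T : EP (a : K) (b : K) M, p • T = 0 ∧ ∀ g : M ≃ₐ[K] M, f g = mp (g : M →ₐ[K] M) T - T

/-- finiteness of the points of order `p` -/
lemma fin_tors {M : Type} [Field M] [NumberField M] [Algebra K M] [DecidableEq M] {a b : K}
    (hΔ : 4 * a ^ 3 + 27 * b ^ 2 ≠ 0) {p : ℕ} (hp : p ≠ 0) :
    {T : EP a b M | p • T = 0}.Finite := by
  have h1 : ((cv a b).baseChange M).Δ ≠ 0 := by
    unfold WeierstrassCurve.baseChange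
    rw [WeierstrassCurve.map_Δ, cv_Δ, Ne, map_eq_zero, neg_eq_zero]
    exact mul_ne_zero (by norm_num) (mul_ne_zero two_ne_zero hΔ)
  have hfg := Pool.Agent.Q286.EQ.mordell_weil M ((cv a b).baseChange M) h1
  have hfin : Module.Finite ℤ (EP a b M) := Module.Finite.iff_addGroup_fg.2 hfg
  have hf2 : Module.Finite ℤ (Submodule.torsionBy ℤ (EP a b M) (p : ℤ)) := inferInstance
  have ht : Module.IsTorsion ℤ (Submodule.torsionBy ℤ (EP a b M) (p : ℤ)) := by
    intro x
    refine ⟨⟨(p : ℤ), mem_nonZeroDivisors_of_ne_zero (by exact_mod_cast hp)⟩, ?_⟩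
    apply Subtype.ext
    exact (Submodule.mem_torsionBy_iff _ _).1 x.2
  have hf3 : Finite (Submodule.torsionBy ℤ (EP a b M) (p : ℤ)) := Module.finite_of_fg_torsion _ ht
  have hs : {T : EP a b M | p • T = 0} =
      (Submodule.torsionBy ℤ (EP a b M) (p : ℤ) : Set (EP a b M)) := by
    ext T
    rw [Set.mem_ofPred_eq, SetLike.mem_coe, Submodule.mem_torsionBy_iff, natCast_zsmul]
  rw [hs]
  exact Set.toFinite _

variable {F : Type} [Field F] [NumberField F] [Algebra K F] [DecidableEq F] [IsGalois K F]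
  {a b : 𝓞 K} {p k : ℕ}

/-- no points of order `p` -/
theorem no_tors [DecidableEq K] (hp : p.Prime) (hΔ : 4 * (a : K) ^ 3 + 27 * (b : K) ^ 2 ≠ 0)
    (hk : Module.finrank K F = p ^ k)
    (hK : ∀ T : EP (a : K) (b : K) K, p • T = 0 → T = 0) (T : EP (a : K) (b : K) F)
    (hT : p • T = 0) : T = 0 := by
  classical
  by_contra hT0
  have hfp : Fact p.Prime := ⟨hp⟩
  let V : AddSubgroup (EP (a : K) (b : K) F) :=
    { carrier := {T | p • T = 0}
      add_mem' := fun {a b} ha hb => by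
        show p • (a + b) = 0
        rw [smul_add, show p • a = 0 from ha, show p • b = 0 from hb, add_zero]
      zero_mem' := smul_zero _
      neg_mem' := fun {a} ha => by
        show p • (-a) = 0
        rw [smul_neg, show p • a = 0 from ha, neg_zero] }
  have hVf : Finite V := (fin_tors (M := F) hΔ hp.ne_zero).to_subtype
  let _ : MulAction (F ≃ₐ[K] F) V :=
    { smul := fun g T => ⟨g • (T : EP (a : K) (b : K) F), by
        show p • (g • (T : EP (a : K) (b : K) F)) = 0
        rw [smul_comm, show p • (T : EP (a : K) (b : K) F) = 0 from T.2, smul_zero]⟩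
      one_smul := fun T => Subtype.ext (one_smul _ _)
      mul_smul := fun g h T => Subtype.ext (mul_smul g h _) }
  have hG : IsPGroup p (F ≃ₐ[K] F) := by
    refine IsPGroup.of_card (n := k) ?_
    rw [← hk]
    exact IsGalois.card_aut_eq_finrank K F
  have hcard : p ∣ Nat.card V := by
    have h1 : p • (⟨T, hT⟩ : V) = 0 := Subtype.ext hT
    have h2 : (⟨T, hT⟩ : V) ≠ 0 := fun h => hT0 (congrArg Subtype.val h)
    have h3 := addOrderOf_eq_prime h1 h2
    have h4 := addOrderOf_dvd_natCard (⟨T, hT⟩ : V)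
    rwa [h3] at h4
  have h0 : (0 : V) ∈ MulAction.fixedPoints (F ≃ₐ[K] F) V := fun g => Subtype.ext (smul_zero g)
  obtain ⟨U, hU, hU0⟩ := hG.exists_fixed_point_of_prime_dvd_card_of_fixed_point V hcard h0
  obtain ⟨P₀, hP₀⟩ := fixed_pt (K := K) (F := K) (M := F) (P := (U : EP (a : K) (b : K) F))
    fun s _ => congrArg Subtype.val (hU s)
  have h5 : p • P₀ = 0 := by
    apply mp_inj (IsScalarTower.toAlgHom K K F)
    rw [map_nsmul, hP₀, map_zero]
    exact U.2
  rw [hK P₀ h5, map_zero] at hP₀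
  exact hU0 (Subtype.ext hP₀)

/-- **The descent.** -/
theorem descent [DecidableEq K] (hp : p.Prime) (hp2 : 2 < p)
    (hΔ : 4 * (a : K) ^ 3 + 27 * (b : K) ^ 2 ≠ 0) (hk : Module.finrank K F = p ^ k)
    (hsp : ∀ v : HeightOneSpectrum (𝓞 K), 2 * (p : 𝓞 K) * (4 * a ^ 3 + 27 * b ^ 2) ∈ v.asIdeal →
      Nonempty (F →ₐ[K] v.adicCompletion K))
    (hun : ∀ u : HeightOneSpectrum (𝓞 F),
      2 * (p : 𝓞 K) * (4 * a ^ 3 + 27 * b ^ 2) ∉ (lo (K := K) u).asIdeal →
      p ∣ pp a b (lo (K := K) u) + 1 → ∀ t : F ≃ₐ[K] F, t ∈ In u → t = 1)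
    (hK : ∀ T : EP (a : K) (b : K) K, p • T = 0 → T = 0) (hS : SelT a b p)
    (P : EP (a : K) (b : K) F) : ∃ Q : EP (a : K) (b : K) F, p • Q = P := by
  classical
  obtain ⟨M, _, _, _, _, ht, _, Q, hG, hQ⟩ := exists_M (F := F) hΔ hp.one_lt.le P
  set N : Subgroup (M ≃ₐ[K] M) := (AlgEquiv.restrictNormalHom (K₁ := M) F).ker with hN
  have hfd : FiniteDimensional K M := inferInstance
  have hmemN : ∀ s : M ≃ₐ[K] M, s ∈ N ↔
      ∀ x : F, s (algebraMap F M x) = algebraMap F M x := by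
    intro s
    rw [hN, MonoidHom.mem_ker]
    constructor
    · intro h x
      have h1 := AlgEquiv.restrictNormal_commutes s F x
      have h2 : s.restrictNormal F = 1 := h
      rw [h2] at h1
      exact h1.symm
    · intro h
      ext x
      apply (algebraMap F M).injective
      have h1 := AlgEquiv.restrictNormal_commutes s F x
      exact h1.trans (h x)
  have hidx : N.index = p ^ k := by
    rw [hN, Subgroup.index_ker, MonoidHom.range_eq_top.2
      (AlgEquiv.restrictNormalHom_surjective M), Nat.card_congr Subgroup.topEquiv.toEquiv, ← hk]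
    exact IsGalois.card_aut_eq_finrank K F
  set i : F →ₐ[K] M := IsScalarTower.toAlgHom K F M with hi
  have hfixF : ∀ T : EP (a : K) (b : K) M, (∀ h : N, (h : M ≃ₐ[K] M) • T = T) →
      ∃ P₀ : EP (a : K) (b : K) F, mp i P₀ = T := by
    intro T hT
    exact fixed_pt (K := K) (F := F) (M := M) fun s hs => hT ⟨s, (hmemN s).2 hs⟩
  have hPN : ∀ (h : N) (R : EP (a : K) (b : K) F), (h : M ≃ₐ[K] M) • mp i R = mp i R := by
    intro h R
    show mp ((h : M ≃ₐ[K] M) : M →ₐ[K] M) (mp i R) = mp i R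
    have e : ((h : M ≃ₐ[K] M) : M →ₐ[K] M).comp i = i := AlgHom.ext fun x => (hmemN _).1 h.2 x
    rw [mp_mp, e]
  -- inertia
  have hgood : ∀ w : HeightOneSpectrum (𝓞 M), Gp a b p w →
      2 * (p : 𝓞 K) * (4 * a ^ 3 + 27 * b ^ 2) ∉ (lo (K := K) w).asIdeal := by
    intro w hw h
    rcases (lo (K := K) w).isPrime.mem_or_mem h with h | h
    · rcases (lo (K := K) w).isPrime.mem_or_mem h with h | h
      · exact hw.disc ((lo (K := K) w).asIdeal.mul_mem_right _ h)
      · exact hw.char h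
    · exact hw.disc ((lo (K := K) w).asIdeal.mul_mem_left _ h)
  -- the conditions
  have hcnd : Cnd (ZS (M := M) a b p N) p := by
    refine ⟨fun c hc => (mem_ZS.1 hc).coc, fun c hc => (mem_ZS.1 hc).tor, fun T hT => ?_,
      fun g c hc => cj_mem g hc, fun T hT h => ?_, fin_tors hΔ hp.ne_zero⟩
    · refine kum_mem hp hp2 T fun h => ?_
      rw [smul_sub, smul_comm, hT, smul_zero, sub_zero]
    · obtain ⟨P₀, hP₀⟩ := hfixF T h
      have h5 : p • P₀ = 0 := by
        apply mp_inj i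
        rw [map_nsmul, hP₀, map_zero]
        exact hT
      rw [no_tors hp hΔ hk hK P₀ h5, map_zero] at hP₀
      exact hP₀.symm
  -- the descent
  have hKd : ∀ f : (M ≃ₐ[K] M) → EP (a : K) (b : K) M, (∀ g g', f (g * g') = f g + g • f g') →
      (∀ g, p • f g = 0) → (fun x : N => f x) ∈ ZS a b p N →
      ∃ T : EP (a : K) (b : K) M, p • T = 0 ∧ ∀ g, f g = g • T - T := by
    intro f hf1 hf2 hf3
    have hf3' := mem_ZS.1 hf3
    refine hS M f ⟨hf1, hf2, fun w hw g hg => ?_, fun v hv ι => ?_⟩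
    · have hw' : Gp a b p w := by
        refine ⟨fun h => hw ?_, fun h => hw ?_⟩
        · rw [← mem_lo]
          have e : 2 * (p : 𝓞 K) * (4 * a ^ 3 + 27 * b ^ 2) =
              (p : 𝓞 K) * (2 * (4 * a ^ 3 + 27 * b ^ 2)) := by ring
          rw [e]
          exact Ideal.mul_mem_left _ _ h
        · rw [← mem_lo]
          have e : 2 * (p : 𝓞 K) * (4 * a ^ 3 + 27 * b ^ 2) =
              (2 * (4 * a ^ 3 + 27 * b ^ 2)) * (p : 𝓞 K) := by ring
          rw [e]
          exact Ideal.mul_mem_left _ _ h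
      have hgI : g ∈ In w := hg
      by_cases hpv : p ∣ pp a b (lo (K := K) w) + 1
      · -- unramified
        let u : HeightOneSpectrum (𝓞 F) := lo (K := F) w
        have hlu : lo (K := K) u = lo (K := K) w := by
          apply HeightOneSpectrum.ext
          ext x
          rw [mem_lo, mem_lo, mem_lo, ← IsScalarTower.algebraMap_apply (𝓞 K) (𝓞 F) (𝓞 M)]
        have h1 : g.restrictNormal F = 1 := by
          refine hun u (by rw [hlu]; exact hgood w hw') (by rw [hlu]; exact hpv) _ ?_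
          intro x
          show g.restrictNormal F • x - x ∈ u.asIdeal
          rw [mem_lo]
          have e : algebraMap (𝓞 F) (𝓞 M) (g.restrictNormal F • x - x) =
              g • algebraMap (𝓞 F) (𝓞 M) x - algebraMap (𝓞 F) (𝓞 M) x := by
            rw [map_sub]
            congr 1
            apply RingOfIntegers.ext
            exact AlgEquiv.restrictNormal_commutes g F (x : F)
          rw [e]
          exact hgI _
        have hgN : g ∈ N := by
          rw [hN, MonoidHom.mem_ker]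
          exact h1
        exact hf3'.unr w hw' ⟨g, hgN⟩ hgI
      · -- admissible
        obtain ⟨φ, hφ⟩ := exists_frb (K := K) w
        refine unr_of_frob (N := N) (D := Dg w) (I := In w) (φ := φ) hp hidx
          (fin_tors hΔ hp.ne_zero) (In_le w) (frb_mem hφ) (fun i hi T hT => ?_)
          (fun g hg n => comm_mem hφ hg n) (fun T hT h => ?_) hf1 hf2 (fun x hx hxI => ?_) hgI
        · refine inert_tors hw' hp hp2 hi T ?_
          rw [smul_sub, smul_comm, hT, smul_zero, sub_zero]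
        · by_contra hT0
          exact hpv (frb_tors hw' hp hp2 hφ hT h hT0)
        · exact hf3'.unr w hw' ⟨x, hx⟩ hxI
    · obtain ⟨R, hR⟩ := hf3'.loc v hv ι
      refine ⟨R, fun τ s hs => ?_⟩
      obtain ⟨e⟩ := hsp v hv
      have hsN : s ∈ N := by
        rw [hmemN]
        intro x
        obtain ⟨y, hy⟩ := split_fix e (ι.comp i) x
        have hy' : ι (algebraMap F M x) = algebraMap (v.adicCompletion K) (Kb v) y := hy
        apply ι.injective
        show ι (s (algebraMap F M x)) = ι (algebraMap F M x)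
        rw [← hs, hy']
        exact τ.commutes y
      exact hR τ ⟨s, hsN⟩ hs
  -- the cocycle of the point
  have hQN : ∀ h : N, p • ((h : M ≃ₐ[K] M) • Q - Q) = 0 := by
    intro h
    rw [smul_sub, smul_comm, hQ, hPN, sub_self]
  obtain ⟨T, hT, hT2⟩ := all_cob hp hidx hcnd hKd (kum_mem hp hp2 Q hQN)
  obtain ⟨R, hR⟩ := hfixF (Q - T) fun h => by
    have h1 := hT2 h
    have h2 : (h : M ≃ₐ[K] M) • Q - Q = (h : M ≃ₐ[K] M) • T - T := h1
    rw [smul_sub, sub_eq_sub_iff_add_eq_add]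
    rw [sub_eq_sub_iff_add_eq_add] at h2
    rw [h2, add_comm]
  refine ⟨R, mp_inj i ?_⟩
  rw [map_nsmul, hR, smul_sub, hT, sub_zero, hQ]

end main

end Pool.Agent.T9h30.PG
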