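import Pool.Agent.T9h30.PG.Fld
import Pool.Agent.T9h30.PG.Dsc2
import Pool.Agent.Y673.Loc.Mul

/-!
# Fields with all points of order `p`, roots of unity and roots of numbers
-/

set_option autoImplicit false
set_option linter.unusedSectionVars false

namespace Pool.Agent.T9h30.PG

open NumberField IsDedekindDomain WeierstrassCurve
open Pool.Agent.T9h30.BT
open Pool.Agent.H901R3.MS (Place CV Pt Disc)

section big

variable {K : Type} [Field K] [NumberField K]

/-- the coordinates of a point -/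
def crx {K Ω : Type} [Field K] [Field Ω] [Algebra K Ω] {a b : K} : EP a b Ω → Ω
  | .zero => 0
  | .some x _ _ => x

/-- the coordinates of a point -/
def cry {K Ω : Type} [Field K] [Field Ω] [Algebra K Ω] {a b : K} : EP a b Ω → Ω
  | .zero => 0
  | .some _ y _ => y

/-- the number of points of order `p` over the algebraic closure -/
lemma tors_cl {K Ω : Type} [Field K] [Field Ω] [Algebra K Ω] [IsAlgClosed Ω] [CharZero Ω]
    [DecidableEq Ω] {a b : K} (hΔ : 4 * a ^ 3 + 27 * b ^ 2 ≠ 0) {p : ℕ} (hp : 1 ≤ p) :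
    {T : EP a b Ω | p • T = 0}.Finite ∧ p ^ 2 ≤ {T : EP a b Ω | p • T = 0}.ncard := by
  have h2 : (2 : K) ≠ 0 := by
    intro h
    have h1 := congrArg (algebraMap K Ω) h
    rw [map_ofNat, map_zero] at h1
    exact two_ne_zero h1
  have hcv : ((cv a b).baseChange Ω) = CV (algebraMap K Ω a) (algebraMap K Ω b) := by
    unfold WeierstrassCurve.baseChange
    rw [cv_map]
    rfl
  have hD : Disc (algebraMap K Ω a) (algebraMap K Ω b) := by
    intro h
    have h1 : algebraMap K Ω (2 * (4 * a ^ 3 + 27 * b ^ 2)) = 0 := by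
      simp only [map_add, map_mul, map_pow, map_ofNat]
      exact h
    rw [map_eq_zero] at h1
    exact (mul_ne_zero h2 hΔ) h1
  have h := Pool.Agent.Y673.Loc.Mul.tor Ω (algebraMap K Ω a) (algebraMap K Ω b) hD p hp
  unfold EP
  rw [hcv]
  exact h

/-- **The field.** -/
theorem exists_big {J : Type} [Finite J] {a b : J → K}
    (hΔ : ∀ j, 4 * a j ^ 3 + 27 * b j ^ 2 ≠ 0) {p : ℕ} (hp : 1 ≤ p) {n : ℕ} (hn : n ≠ 0)
    (Q : Finset ℕ) : ∃ (M : Type) (_ : Field M) (_ : NumberField M) (_ : Algebra K M)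
      (_ : DecidableEq M), IsGalois K M ∧
      (∀ j, p ^ 2 ≤ {T : EP (a j) (b j) M | p • T = 0}.ncard) ∧
      (∃ ζ : 𝓞 M, IsPrimitiveRoot ζ n) ∧ ∀ q ∈ Q, ∃ r : 𝓞 M, r ^ n = q := by
  classical
  let Ω := AlgebraicClosure K
  let T : J → Set Ω := fun j => (crx '' {T : EP (a j) (b j) Ω | p • T = 0}) ∪
    (cry '' {T : EP (a j) (b j) Ω | p • T = 0})
  have hT : ∀ j, (T j).Finite := fun j =>
    ((tors_cl (hΔ j) hp).1.image _).union ((tors_cl (hΔ j) hp).1.image _)
  obtain ⟨ζ, hζ⟩ : ∃ ζ : Ω, IsPrimitiveRoot ζ n := by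
    have : NeZero (n : Ω) := ⟨by exact_mod_cast hn⟩
    exact HasEnoughRootsOfUnity.exists_primitiveRoot Ω n
  choose ρ hρ using fun q : ℕ => IsAlgClosed.exists_pow_nat_eq (q : Ω) (Nat.pos_of_ne_zero hn)
  let S : Set Ω := (⋃ j, T j) ∪ {ζ} ∪ (ρ '' (Q : Set ℕ))
  have hS : S.Finite := ((Set.finite_iUnion hT).union (Set.finite_singleton _)).union
    (Q.finite_toSet.image _)
  have hSf : Finite S := hS.to_subtype
  let L := IntermediateField.adjoin K S
  have hfdL : FiniteDimensional K L := IntermediateField.finiteDimensional_adjoin fun z _ =>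
    (Algebra.IsAlgebraic.isAlgebraic z).isIntegral
  have hNF : NumberField L := NumberField.of_module_finite K _
  let i : L →ₐ[K] Ω := L.val
  -- torsion over L
  have hL : ∀ j, p ^ 2 ≤ {T : EP (a j) (b j) L | p • T = 0}.ncard := by
    intro j
    have hsub : {T : EP (a j) (b j) Ω | p • T = 0} ⊆ mp i '' {T : EP (a j) (b j) L | p • T = 0} := by
      intro P hP
      match P, hP with
      | .zero, _ => exact ⟨0, smul_zero _, rfl⟩
      | .some x y h, hP =>
        have hx : x ∈ L := IntermediateField.subset_adjoin _ _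
          (Or.inl (Or.inl (Set.mem_iUnion.2 ⟨j, Or.inl ⟨.some x y h, hP, rfl⟩⟩)))
        have hy : y ∈ L := IntermediateField.subset_adjoin _ _
          (Or.inl (Or.inl (Set.mem_iUnion.2 ⟨j, Or.inr ⟨.some x y h, hP, rfl⟩⟩)))
        have hns : ((cv (a j) (b j)).baseChange L).toAffine.Nonsingular (⟨x, hx⟩ : L) ⟨y, hy⟩ :=
          ((cv (a j) (b j)).toAffine.baseChange_nonsingular i.injective _ _).1 h
        have e : mp i (.some _ _ hns : EP (a j) (b j) L) = .some x y h := rfl
        refine ⟨.some _ _ hns, ?_, e⟩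
        apply mp_inj i
        rw [map_nsmul, e, map_zero]
        exact hP
    have h1 := (tors_cl (Ω := Ω) (hΔ j) hp).2
    have hf := fin_tors (M := L) (hΔ j) (p := p) (by omega)
    refine h1.trans ((Set.ncard_le_ncard hsub (hf.image _)).trans ?_)
    exact Set.ncard_image_le hf
  have hζL : ζ ∈ L := IntermediateField.subset_adjoin _ _ (Or.inl (Or.inr rfl))
  have hρL : ∀ q ∈ Q, ρ q ∈ L := fun q hq => IntermediateField.subset_adjoin _ _
    (Or.inr ⟨q, hq, rfl⟩)
  obtain ⟨M, _, _, _, _, hM, hG⟩ := exists_gal K L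
  let f : L →ₐ[K] M := IsScalarTower.toAlgHom K L M
  refine ⟨M, inferInstance, inferInstance, inferInstance, inferInstance, hG, fun j => ?_, ?_,
    fun q hq => ?_⟩
  · have hf := fin_tors (M := M) (hΔ j) (p := p) (by omega)
    refine (hL j).trans ?_
    rw [← Set.ncard_image_of_injective _ (mp_inj (a := a j) (b := b j) f)]
    refine Set.ncard_le_ncard ?_ hf
    rintro _ ⟨P, hP, rfl⟩
    show p • mp f P = 0
    rw [← map_nsmul, show p • P = 0 from hP, map_zero]
  · have h1 : IsPrimitiveRoot (⟨ζ, hζL⟩ : L) n :=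
      IsPrimitiveRoot.of_map_of_injective (f := i) hζ i.injective
    have h2 : IsPrimitiveRoot (f ⟨ζ, hζL⟩) n := h1.map_of_injective f.injective
    have hn' : NeZero n := ⟨hn⟩
    refine ⟨h2.toInteger, h2.toInteger_isPrimitiveRoot⟩
  · have h1 : (f ⟨ρ q, hρL q hq⟩) ^ n = (q : M) := by
      rw [← map_pow, ← map_natCast f q]
      congr 1
      apply i.injective
      rw [map_pow, map_natCast]
      exact hρ q
    have h2 : IsIntegral ℤ (f ⟨ρ q, hρL q hq⟩) := by
      refine IsIntegral.of_pow (Nat.pos_of_ne_zero hn) ?_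
      rw [h1]
      exact_mod_cast (isIntegral_algebraMap (R := ℤ) (A := M) (x := (q : ℤ)))
    refine ⟨⟨_, h2⟩, RingOfIntegers.ext ?_⟩
    show (f ⟨ρ q, hρL q hq⟩) ^ n = _
    rw [h1]
    rfl

end big

end Pool.Agent.T9h30.PG
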