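import Pool.Agent.T9h30.BT.Adm
import Pool.Agent.T9h30.BT.Dec
import Pool.Agent.T9h30.BT.Bas

/-!
# Chebotarev's theorem for finite Galois extensions, places of degree one
-/

set_option autoImplicit false
set_option linter.unusedSectionVars false

namespace Pool.Agent.T9h30.PG

open NumberField IsDedekindDomain Filter Topology
open Pool.Agent.T9h30.BT
open Pool.Agent.W401.Cheb (GK IsFrob dens)

section cheb

variable {K M : Type} [Field K] [NumberField K] [Field M] [NumberField M] [Algebra K M]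
  [IsGalois K M]

/-- **Chebotarev's theorem for a finite Galois extension.** -/
theorem cheb_fin (S : Set (M ≃ₐ[K] M)) (hS : ∀ s ∈ S, ∀ t : M ≃ₐ[K] M, t * s * t⁻¹ ∈ S)
    (hne : S.Nonempty) : ∃ d : ℝ, 0 < d ∧ ∀ᶠ N : ℕ in atTop, d * Nat.primeCounting N ≤
      cnt {v : HeightOneSpectrum (𝓞 K) | ∃ w : HeightOneSpectrum (𝓞 M), lo (K := K) w = v ∧
        ∃ s ∈ S, Frb w s} N := by
  classical
  let j : M →ₐ[K] AlgebraicClosure K := IsAlgClosed.lift
  let _ : Algebra M (AlgebraicClosure K) := j.toRingHom.toAlgebra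
  have ht : IsScalarTower K M (AlgebraicClosure K) :=
    IsScalarTower.of_algebraMap_eq fun x => (j.commutes x).symm
  let R : GK K →* (M ≃ₐ[K] M) := AlgEquiv.restrictNormalHom M
  have hR : ∀ (σ : GK K) (x : M), algebraMap M (AlgebraicClosure K) (R σ x) =
      σ (algebraMap M (AlgebraicClosure K) x) := fun σ x => AlgEquiv.restrictNormal_commutes σ M x
  have hRs : Function.Surjective R := AlgEquiv.restrictNormalHom_surjective (AlgebraicClosure K)
  let E : IntermediateField K (AlgebraicClosure K) := j.fieldRange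
  have hE : FiniteDimensional K E := by
    have : FiniteDimensional K M := inferInstance
    exact Module.Finite.equiv (AlgEquiv.ofInjectiveField j).toLinearEquiv
  have hle : E.fixingSubgroup ≤ R.ker := by
    intro σ hσ
    rw [MonoidHom.mem_ker]
    ext x
    apply (algebraMap M (AlgebraicClosure K)).injective
    rw [hR]
    exact (IntermediateField.mem_fixingSubgroup_iff E σ).1 hσ _ ⟨x, rfl⟩
  have hU : IsOpen (R.ker : Set (GK K)) := Subgroup.isOpen_mono hle E.fixingSubgroup_isOpen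
  set C : Set (GK K) := {σ | R σ ∈ S} with hC
  have hC1 : ∀ σ ∈ C, ∀ τ : GK K, τ * σ * τ⁻¹ ∈ C := by
    intro σ hσ τ
    show R (τ * σ * τ⁻¹) ∈ S
    rw [map_mul, map_mul, map_inv]
    exact hS _ hσ _
  have hC2 : ∀ σ ∈ C, ∀ u ∈ R.ker, σ * u ∈ C := by
    intro σ hσ u hu
    show R (σ * u) ∈ S
    rw [map_mul, MonoidHom.mem_ker.1 hu, mul_one]
    exact hσ
  set Y : Set (HeightOneSpectrum (𝓞 K)) := {v | ∃ σ ∈ C, IsFrob v σ} with hY
  have hch : Tendsto (dens fun v : HeightOneSpectrum (𝓞 K) => v ∈ Y) atTop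
    (𝓝 ((((QuotientGroup.mk : GK K → GK K ⧸ R.ker) '' C).ncard : ℝ) /
      (Nat.card (GK K ⧸ R.ker) : ℝ))) :=
    Pool.Agent.Y142.chebK K R.ker hU C hC1 hC2
  have hUf : Finite (GK K ⧸ R.ker) := Subgroup.quotient_finite_of_isOpen _ hU
  obtain ⟨s, hs⟩ := hne
  obtain ⟨g, hg⟩ := hRs s
  have hpos : 0 < ((((QuotientGroup.mk : GK K → GK K ⧸ R.ker) '' C).ncard : ℝ) /
      (Nat.card (GK K ⧸ R.ker) : ℝ)) := by
    have h1 : 0 < ((QuotientGroup.mk : GK K → GK K ⧸ R.ker) '' C).ncard :=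
      (Set.ncard_pos (Set.toFinite _)).2 ⟨_, g, by show R g ∈ S; rw [hg]; exact hs, rfl⟩
    have h2 : 0 < Nat.card (GK K ⧸ R.ker) := Nat.card_pos
    positivity
  set δ := ((((QuotientGroup.mk : GK K → GK K ⧸ R.ker) '' C).ncard : ℝ) /
      (Nat.card (GK K ⧸ R.ker) : ℝ)) with hδ
  -- the places
  have hsub : Y ⊆ {v : HeightOneSpectrum (𝓞 K) | ∃ w : HeightOneSpectrum (𝓞 M),
      lo (K := K) w = v ∧ ∃ s ∈ S, Frb w s} := by
    rintro v ⟨σ, hσ, Q, hQ, hQv, hQF⟩
    have hcomp : (algebraMap (𝓞 M) (𝓞 (AlgebraicClosure K))).comp (algebraMap (𝓞 K) (𝓞 M)) =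
        algebraMap (𝓞 K) (𝓞 (AlgebraicClosure K)) := by
      ext x
      exact (j.commutes (x : K))
    have hw : (Q.comap (algebraMap (𝓞 M) (𝓞 (AlgebraicClosure K)))).comap
        (algebraMap (𝓞 K) (𝓞 M)) = v.asIdeal := by
      rw [Ideal.comap_comap, hcomp]
      exact hQv
    have hQp := hQ.isPrime
    let w : HeightOneSpectrum (𝓞 M) := ⟨Q.comap (algebraMap (𝓞 M) (𝓞 (AlgebraicClosure K))),
      Ideal.comap_isPrime _ _, fun h => by
        rw [h] at hw
        apply v.ne_bot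
        rw [← hw, Ideal.comap_bot_of_injective]
        exact FaithfulSMul.algebraMap_injective (𝓞 K) (𝓞 M)⟩
    have hlo : lo (K := K) w = v := HeightOneSpectrum.ext hw
    refine ⟨w, hlo, R σ, hσ, fun x => ?_⟩
    rw [hlo]
    show algebraMap (𝓞 M) (𝓞 (AlgebraicClosure K)) _ ∈ Q
    have h1 := hQF (algebraMap (𝓞 M) (𝓞 (AlgebraicClosure K)) x)
    have e : algebraMap (𝓞 M) (𝓞 (AlgebraicClosure K)) (R σ • x) =
        σ • algebraMap (𝓞 M) (𝓞 (AlgebraicClosure K)) x := by
      apply RingOfIntegers.ext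
      exact hR σ (x : M)
    rw [map_sub, map_pow, e]
    exact h1
  refine ⟨δ / 2, half_pos hpos, ?_⟩
  have h1 := hch.eventually_const_lt (half_lt_self hpos)
  filter_upwards [h1, eventually_ge_atTop 2] with N hN hN2
  rw [dens_cnt] at hN
  have h2 : (0 : ℝ) < Nat.primeCounting N := by
    have : 0 < Nat.primeCounting N := by
      have h3 := Nat.monotone_primeCounting hN2
      have h4 : Nat.primeCounting 2 = 1 := by decide
      omega
    exact_mod_cast this
  rw [lt_div_iff₀ h2] at hN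
  refine hN.le.trans ?_
  exact_mod_cast cnt_mono hsub N

end cheb

end Pool.Agent.T9h30.PG
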