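import Pool.Agent.T9h30.PG.Val

/-!
# The primitive character attached to a character
-/

set_option autoImplicit false
set_option linter.unusedSectionVars false

namespace Pool.Agent.T9h30.PG

open NumberField IsDedekindDomain Finset

variable {K : Type} [Field K] [NumberField K]

/-- characters modulo the product of the `v ∈ S`, trivial on the units, of `p`-power order -/
structure CHn (p : ℕ) (S : Finset (HeightOneSpectrum (𝓞 K))) (χ : 𝓞 K → ℂ) : Prop where
  one : χ 1 = 1
  mul : ∀ x y, χ (x * y) = χ x * χ y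
  zero : ∀ x, χ x = 0 ↔ ∃ v ∈ S, x ∈ v.asIdeal
  prd : ∀ x y, (∀ v ∈ S, x - y ∈ v.asIdeal) → χ x = χ y
  unit : ∀ u, IsUnit u → χ u = 1
  pow : ∃ k : ℕ, ∀ x, χ x ≠ 0 → χ x ^ p ^ k = 1

/-- Chinese remainders -/
lemma crt (S R : Finset (HeightOneSpectrum (𝓞 K))) (x : 𝓞 K) :
    ∃ e : 𝓞 K, (∀ v ∈ S, v ∈ R → e - x ∈ v.asIdeal) ∧ ∀ v ∈ S, v ∉ R → e - 1 ∈ v.asIdeal := by
  classical
  have hco : Pairwise (Function.onFun IsCoprime
      fun i : S => (i : HeightOneSpectrum (𝓞 K)).asIdeal) := by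
    intro i j hij
    show IsCoprime _ _
    rw [Ideal.isCoprime_iff_sup_eq]
    exact i.1.isMaximal.coprime_of_ne j.1.isMaximal fun h =>
      hij (Subtype.ext (HeightOneSpectrum.ext h))
  obtain ⟨e, he⟩ := Ideal.exists_forall_sub_mem_ideal hco
    (fun w => if (w : HeightOneSpectrum (𝓞 K)) ∈ R then x else 1)
  refine ⟨e, fun v hv hR => ?_, fun v hv hR => ?_⟩
  · have := he ⟨v, hv⟩
    rwa [if_pos hR] at this
  · have := he ⟨v, hv⟩
    rwa [if_neg hR] at this

lemma mul_sub_mem {I : Ideal (𝓞 K)} {a b c d : 𝓞 K} (h1 : a - b ∈ I) (h2 : c - d ∈ I) :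
    a * c - b * d ∈ I := by
  have e : a * c - b * d = (a - b) * c + b * (c - d) := by ring
  rw [e]
  exact I.add_mem (I.mul_mem_right _ h1) (I.mul_mem_left _ h2)

lemma sub_sym {I : Ideal (𝓞 K)} {a b c : 𝓞 K} (h1 : a - c ∈ I) (h2 : b - c ∈ I) :
    a - b ∈ I := by
  have e : a - b = (a - c) - (b - c) := by ring
  rw [e]
  exact I.sub_mem h1 h2

lemma notMem_of {v : HeightOneSpectrum (𝓞 K)} {a b : 𝓞 K} (h1 : a - b ∈ v.asIdeal)
    (h2 : b ∉ v.asIdeal) : a ∉ v.asIdeal := by
  intro h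
  apply h2
  have := v.asIdeal.sub_mem h h1
  rwa [sub_sub_cancel] at this

lemma one_notMem (v : HeightOneSpectrum (𝓞 K)) : (1 : 𝓞 K) ∉ v.asIdeal := fun h =>
  v.isPrime.ne_top ((Ideal.eq_top_iff_one _).2 h)

/-- **The primitive character.** -/
theorem exists_prim {p : ℕ} {S : Finset (HeightOneSpectrum (𝓞 K))} {χ : 𝓞 K → ℂ}
    (h : CHn p S χ) : ∃ (T : Finset (HeightOneSpectrum (𝓞 K))) (χ' : 𝓞 K → ℂ), T ⊆ S ∧
      CHp p T χ' ∧ ∀ x, (∀ v ∈ S, x ∉ v.asIdeal) → χ' x = χ x := by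
  classical
  choose e he1 he2 using fun R x => crt S R x
  set T : Finset (HeightOneSpectrum (𝓞 K)) := S.filter fun v =>
    ∃ x, (∀ v' ∈ S, v' ≠ v → x - 1 ∈ v'.asIdeal) ∧ χ x ≠ 0 ∧ χ x ≠ 1 with hT
  have hTS : T ⊆ S := Finset.filter_subset _ _
  have hne : ∀ x, χ x ≠ 0 ↔ ∀ v ∈ S, x ∉ v.asIdeal := by
    intro x
    rw [Ne, h.zero]
    push Not
    rfl
  -- multiplicativity
  have hmul : ∀ R x y, χ (e R (x * y)) = χ (e R x) * χ (e R y) := by
    intro R x y
    rw [← h.mul]
    refine h.prd _ _ fun v hv => ?_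
    by_cases hR : v ∈ R
    · exact sub_sym (he1 R (x * y) v hv hR) (mul_sub_mem (he1 R x v hv hR) (he1 R y v hv hR))
    · refine sub_sym (he2 R (x * y) v hv hR) ?_
      have := mul_sub_mem (he2 R x v hv hR) (he2 R y v hv hR)
      rwa [mul_one] at this
  have hins : ∀ (R : Finset (HeightOneSpectrum (𝓞 K))) (v : HeightOneSpectrum (𝓞 K)) (x : 𝓞 K),
      v ∉ R → χ (e (insert v R) x) = χ (e R x) * χ (e {v} x) := by
    intro R v x hvR
    rw [← h.mul]
    refine h.prd _ _ fun v' hv' => ?_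
    by_cases h1 : v' = v
    · subst h1
      have h2 := mul_sub_mem (he2 R x v' hv' hvR)
        (he1 {v'} x v' hv' (Finset.mem_singleton_self _))
      rw [one_mul] at h2
      exact sub_sym (he1 _ x v' hv' (Finset.mem_insert_self _ _)) h2
    · have h3 : v' ∉ ({v} : Finset _) := by
        rw [Finset.mem_singleton]
        exact h1
      by_cases h2 : v' ∈ R
      · have h4 := mul_sub_mem (he1 R x v' hv' h2) (he2 {v} x v' hv' h3)
        rw [mul_one] at h4
        exact sub_sym (he1 _ x v' hv' (Finset.mem_insert_of_mem h2)) h4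
      · have h4 := mul_sub_mem (he2 R x v' hv' h2) (he2 {v} x v' hv' h3)
        rw [mul_one] at h4
        refine sub_sym (he2 _ x v' hv' ?_) h4
        rw [Finset.mem_insert, not_or]
        exact ⟨h1, h2⟩
  have htriv : ∀ v ∈ S, v ∉ T → ∀ x, x ∉ v.asIdeal → χ (e {v} x) = 1 := by
    intro v hv hvT x hx
    by_contra h1
    apply hvT
    rw [hT, Finset.mem_filter]
    refine ⟨hv, e {v} x, fun v' hv' hne' => he2 {v} x v' hv' (by
      rw [Finset.mem_singleton]
      exact hne'), ?_, h1⟩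
    rw [hne]
    intro v' hv'
    by_cases h2 : v' = v
    · subst h2
      exact notMem_of (he1 {v'} x v' hv' (Finset.mem_singleton_self _)) hx
    · exact notMem_of (he2 {v} x v' hv' (by
        rw [Finset.mem_singleton]
        exact h2)) (one_notMem v')
  have hclaim : ∀ U : Finset (HeightOneSpectrum (𝓞 K)), U ⊆ S → Disjoint U T → ∀ x,
      (∀ v ∈ S, x ∉ v.asIdeal) → χ (e (U ∪ T) x) = χ (e T x) := by
    intro U
    induction U using Finset.induction_on with
    | empty => intro _ _ x _; rw [Finset.empty_union]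
    | insert v U hv ih =>
      intro hU hd x hx
      have hvS := hU (Finset.mem_insert_self v U)
      have hvT : v ∉ T := Finset.disjoint_left.1 hd (Finset.mem_insert_self v U)
      rw [Finset.insert_union, hins _ _ _ (by
        rw [Finset.mem_union, not_or]
        exact ⟨hv, hvT⟩), ih (fun w hw => hU (Finset.mem_insert_of_mem hw))
        (hd.mono_left (Finset.subset_insert v U)) x hx, htriv v hvS hvT x (hx v hvS), mul_one]
  have hfull : ∀ x, (∀ v ∈ S, x ∉ v.asIdeal) → χ (e T x) = χ x := by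
    intro x hx
    rw [← hclaim (S \ T) Finset.sdiff_subset Finset.sdiff_disjoint x hx,
      Finset.sdiff_union_of_subset hTS]
    exact h.prd _ _ fun v hv => he1 S x v hv hv
  refine ⟨T, fun x => χ (e T x), hTS, ⟨?_, hmul T, fun x => ?_, fun x y hxy => ?_,
    fun u hu => ?_, fun v hv => ?_, ?_⟩, hfull⟩
  · have h1 : χ (e T 1) = χ 1 := hfull 1 fun v _ => one_notMem v
    show χ (e T 1) = 1
    rw [h1, h.one]
  · show χ (e T x) = 0 ↔ _
    rw [h.zero]
    constructor
    · rintro ⟨v, hv, h1⟩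
      by_cases hvT : v ∈ T
      · refine ⟨v, hvT, ?_⟩
        have h2 := v.asIdeal.sub_mem h1 (he1 T x v hv hvT)
        rwa [sub_sub_cancel] at h2
      · exact absurd h1 (notMem_of (he2 T x v hv hvT) (one_notMem v))
    · rintro ⟨v, hv, h1⟩
      refine ⟨v, hTS hv, ?_⟩
      have h2 := v.asIdeal.add_mem (he1 T x v (hTS hv) hv) h1
      rwa [sub_add_cancel] at h2
  · refine h.prd _ _ fun v hv => ?_
    by_cases hvT : v ∈ T
    · have h1 := he1 T x v hv hvT
      have h2 := he1 T y v hv hvT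
      have e1 : e T x - e T y = (e T x - x) + (x - y) - (e T y - y) := by ring
      rw [e1]
      exact v.asIdeal.sub_mem (v.asIdeal.add_mem h1 (hxy v hvT)) h2
    · exact sub_sym (he2 T x v hv hvT) (he2 T y v hv hvT)
  · show χ (e T u) = 1
    rw [hfull u fun v _ h1 => v.isPrime.ne_top (Ideal.eq_top_of_isUnit_mem _ h1 hu), h.unit u hu]
  · obtain ⟨hvS, x, h1, h2, h3⟩ := Finset.mem_filter.1 hv
    have h4 : χ (e T x) = χ x := hfull x ((hne x).1 h2)
    refine ⟨x, fun v' hv' hne' => h1 v' (hTS hv') hne', ?_, ?_⟩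
    · show χ (e T x) ≠ 0
      rw [h4]
      exact h2
    · show χ (e T x) ≠ 1
      rw [h4]
      exact h3
  · obtain ⟨k, hk⟩ := h.pow
    exact ⟨k, fun x hx => hk _ hx⟩

end Pool.Agent.T9h30.PG
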