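import Pool.Agent.T9h30.PG.Twr
import Pool.Agent.T9h30.PG.Prim
import Pool.Agent.T9h30.PG.Dsc2
import Pool.Agent.T9h30.BT.JacK
import Pool.Agent.T9h30.BT.Cont

/-!
# The reciprocity law for subfields of cyclotomic extensions
-/

set_option autoImplicit false
set_option linter.unusedSectionVars false

namespace Pool.Agent.T9h30.PG

open NumberField IsDedekindDomain
open Pool.Agent.T9h30.BT
open Pool.Agent.K4H55.BI (gen gen_span gen_dvd gen_prime)

section arith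

lemma one_add_pow {R : Type} [CommRing R] (T : R) (n : ℕ) :
    ∃ r : R, (1 + T) ^ n = 1 + n * T + T ^ 2 * r := by
  induction n with
  | zero => exact ⟨0, by simp⟩
  | succ n ih =>
    obtain ⟨r, hr⟩ := ih
    refine ⟨n + r + T * r, ?_⟩
    rw [pow_succ, hr]
    push_cast
    ring

lemma pow_form {R : Type} [CommRing R] (m : ℕ) (s : R) (j : ℕ) :
    ∃ A B : R, (1 + s) ^ m ^ j = 1 + m * A + s ^ 2 ^ j * B := by
  induction j with
  | zero => exact ⟨0, 1, by simp⟩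
  | succ j ih =>
    obtain ⟨A, B, h⟩ := ih
    obtain ⟨r, hr⟩ := one_add_pow ((m : R) * A + s ^ 2 ^ j * B) m
    refine ⟨(m * A + s ^ 2 ^ j * B) + (m * A ^ 2 + 2 * A * (s ^ 2 ^ j * B)) * r, B ^ 2 * r, ?_⟩
    have e : (1 + s) ^ m ^ (j + 1) = (1 + ((m : R) * A + s ^ 2 ^ j * B)) ^ m := by
      rw [pow_succ, pow_mul, h]
      ring
    rw [e, hr]
    have e2 : s ^ 2 ^ (j + 1) = s ^ 2 ^ j * s ^ 2 ^ j := by
      rw [pow_succ 2 j, pow_mul]
      ring
    rw [e2]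
    ring

variable {K : Type} [Field K] [NumberField K]

/-- the norm of the ideal generated by an element -/
noncomputable def nm (x : 𝓞 K) : ℕ := Ideal.absNorm (Ideal.span {x})

lemma nm_mul (x y : 𝓞 K) : nm (x * y) = nm x * nm y := by
  unfold nm
  rw [← Ideal.span_singleton_mul_span_singleton, map_mul]

lemma nm_unit {x : 𝓞 K} (h : IsUnit x) : nm x = 1 := by
  unfold nm
  rw [Ideal.span_singleton_eq_top.2 h, Ideal.absNorm_top]

lemma nm_cong {ω : 𝓞 K} {t n : ℤ} (hB : Bs ω t n) (m : ℕ) {x y : 𝓞 K}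
    (h : (m : 𝓞 K) ∣ x - y) : (nm x : ZMod m) = nm y := by
  obtain ⟨z, hz⟩ := h
  obtain ⟨c, d, hcd⟩ := hB.ex z
  obtain ⟨a, b, hab⟩ := hB.ex y
  have hx : x = ((a + m * c : ℤ) : 𝓞 K) + ((b + m * d : ℤ) : 𝓞 K) * ω := by
    push_cast
    linear_combination hz + hab + (m : 𝓞 K) * hcd
  have h1 : ((nm x : ℤ) : ZMod m) = ((nm y : ℤ) : ZMod m) := by
    unfold nm
    rw [absNorm_eq hB, absNorm_eq hB, hx, hab, hB.nm, hB.nm]
    push_cast
    rw [ZMod.natCast_self]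
    ring
  exact_mod_cast h1

variable (K) in
/-- the places which divide `m` -/
noncomputable def pl (m : ℕ) [NeZero m] : Finset (HeightOneSpectrum (𝓞 K)) :=
  (bad_finite (K := K) (x := (m : 𝓞 K)) (by exact_mod_cast NeZero.ne m)).toFinset

lemma mem_pl {m : ℕ} [NeZero m] {v : HeightOneSpectrum (𝓞 K)} :
    v ∈ pl K m ↔ (m : 𝓞 K) ∈ v.asIdeal := by
  unfold pl
  rw [Set.Finite.mem_toFinset]
  rfl

lemma cop_m {m : ℕ} [NeZero m] {x : 𝓞 K} (h : ∀ v ∈ pl K m, x ∉ v.asIdeal) :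
    IsCoprime x (m : 𝓞 K) := by
  rw [← Ideal.isCoprime_span_singleton_iff, Ideal.isCoprime_iff_sup_eq]
  by_contra hne
  obtain ⟨M, hM, hle⟩ := Ideal.exists_le_maximal _ hne
  have hx : x ∈ M := hle (Ideal.mem_sup_left (Ideal.mem_span_singleton_self x))
  have hm : (m : 𝓞 K) ∈ M := hle (Ideal.mem_sup_right (Ideal.mem_span_singleton_self _))
  have hM0 : M ≠ ⊥ := by
    rintro rfl
    rw [Ideal.mem_bot] at hm
    exact NeZero.ne m (by exact_mod_cast hm)
  exact h ⟨M, hM.isPrime, hM0⟩ (mem_pl.2 hm) hx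

lemma rad_m {m : ℕ} [NeZero m] {s : 𝓞 K} (h : ∀ v ∈ pl K m, s ∈ v.asIdeal) :
    ∃ r : ℕ, (m : 𝓞 K) ∣ s ^ r := by
  have h1 : s ∈ (Ideal.span {(m : 𝓞 K)}).radical := by
    rw [Ideal.radical_eq_sInf, Submodule.mem_sInf]
    rintro M ⟨hle, hM⟩
    have hm : (m : 𝓞 K) ∈ M := hle (Ideal.mem_span_singleton_self _)
    have hM0 : M ≠ ⊥ := by
      rintro rfl
      rw [Ideal.mem_bot] at hm
      exact NeZero.ne m (by exact_mod_cast hm)
    exact h ⟨M, hM, hM0⟩ (mem_pl.2 hm)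
  obtain ⟨r, hr⟩ := h1
  exact ⟨r, Ideal.mem_span_singleton.1 hr⟩

end arith

section char

variable {K C : Type} [Field K] [NumberField K] [Field C] [NumberField C] [Algebra K C]
  {m : ℕ} [NeZero m] [IsCyclotomicExtension {m} K C] [IsGalois K C]

open Classical in
/-- the character of `𝓞` attached to a character of the Galois group -/
noncomputable def ch0 (m : ℕ) [NeZero m] [IsCyclotomicExtension {m} K C]
    (ψ : (C ≃ₐ[K] C) →* ℂˣ) (x : 𝓞 K) : ℂ :=
  if h : ∃ t : C ≃ₐ[K] C, ((kc K C m t : (ZMod m)ˣ) : ZMod m) = nm x then (ψ h.choose : ℂˣ) else 0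

variable {ψ : (C ≃ₐ[K] C) →* ℂˣ}

lemma ch0_of {x : 𝓞 K} {t : C ≃ₐ[K] C} (h : ((kc K C m t : (ZMod m)ˣ) : ZMod m) = nm x) :
    ch0 m ψ x = (ψ t : ℂˣ) := by
  have h1 : ∃ t : C ≃ₐ[K] C, ((kc K C m t : (ZMod m)ˣ) : ZMod m) = nm x := ⟨t, h⟩
  unfold ch0
  rw [dif_pos h1]
  congr 2
  exact kc_inj K C m (Units.ext (h1.choose_spec.trans h.symm))

lemma ch0_eq {x y : 𝓞 K} (h : (nm x : ZMod m) = nm y) : ch0 m ψ x = ch0 m ψ y := by
  unfold ch0
  simp only [h]

theorem ex_iff {ω : 𝓞 K} {t₀ n₀ : ℤ} (hB : Bs ω t₀ n₀) {x : 𝓞 K} :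
    (∃ t : C ≃ₐ[K] C, ((kc K C m t : (ZMod m)ˣ) : ZMod m) = nm x) ↔
      ∀ v ∈ pl K m, x ∉ v.asIdeal := by
  constructor
  · rintro ⟨t, ht⟩ v hv hx
    have h1 : IsUnit (nm x : ZMod m) := by
      rw [← ht]
      exact Units.isUnit _
    rw [ZMod.isUnit_iff_coprime] at h1
    have h2 : IsCoprime ((nm x : ℕ) : 𝓞 K) ((m : ℕ) : 𝓞 K) := Nat.Coprime.cast h1
    obtain ⟨a, b, hab⟩ := h2
    apply one_notMem v
    rw [← hab]
    refine v.asIdeal.add_mem (v.asIdeal.mul_mem_left _ ?_) (v.asIdeal.mul_mem_left _ (mem_pl.1 hv))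
    have h3 : ((nm x : ℕ) : 𝓞 K) ∈ Ideal.span {x} := Ideal.absNorm_mem _
    exact (Ideal.span_singleton_le_iff_mem _).2 hx h3
  · intro h
    by_cases hx : x = 0
    · subst hx
      have hm : IsUnit (m : 𝓞 K) := by
        have h1 := cop_m h
        rwa [isCoprime_zero_left] at h1
      have h2 := hm.map (Algebra.norm ℤ)
      have h3 := norm_int' hB (m : ℤ)
      rw [Int.cast_natCast] at h3
      rw [h3, isUnit_pow_iff two_ne_zero, Int.isUnit_iff] at h2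
      have hm1 : m = 1 := by omega
      subst hm1
      exact ⟨1, Subsingleton.elim _ _⟩
    · refine exists_t (C := C) (Ideal.span {x}) ?_ fun v hv hm => ?_
      · rwa [Ne, Ideal.span_singleton_eq_bot]
      · exact h v (mem_pl.2 hm) ((Ideal.span_singleton_le_iff_mem _).1 hv)

/-- **The character.** -/
theorem ch0_chn {ω : 𝓞 K} {t₀ n₀ : ℤ} (hB : Bs ω t₀ n₀) {p k : ℕ} (hpm : Nat.Coprime p m)
    (hψ : ∀ t, ψ t ^ p ^ k = 1) : CHn p (pl K m) (ch0 m ψ) := by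
  have hzero : ∀ x, ch0 m ψ x = 0 ↔ ∃ v ∈ pl K m, x ∈ v.asIdeal := by
    intro x
    by_cases h : ∃ t : C ≃ₐ[K] C, ((kc K C m t : (ZMod m)ˣ) : ZMod m) = nm x
    · have h1 := (ex_iff hB).1 h
      obtain ⟨t, ht⟩ := h
      rw [ch0_of ht]
      constructor
      · exact fun h2 => absurd h2 (Units.ne_zero _)
      · rintro ⟨v, hv, hx⟩
        exact absurd hx (h1 v hv)
    · have h1 : ch0 m ψ x = 0 := by
        unfold ch0
        rw [dif_neg h]
      rw [ex_iff hB] at h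
      push Not at h
      exact ⟨fun _ => h, fun _ => h1⟩
  have hmul : ∀ x y, ch0 m ψ (x * y) = ch0 m ψ x * ch0 m ψ y := by
    intro x y
    by_cases hx : ∀ v ∈ pl K m, x ∉ v.asIdeal
    · by_cases hy : ∀ v ∈ pl K m, y ∉ v.asIdeal
      · obtain ⟨s, hs⟩ := (ex_iff (C := C) hB).2 hx
        obtain ⟨t, ht⟩ := (ex_iff (C := C) hB).2 hy
        rw [ch0_of hs, ch0_of ht, ← Units.val_mul, ← map_mul]
        apply ch0_of
        rw [map_mul, Units.val_mul, hs, ht, nm_mul, Nat.cast_mul]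
      · push Not at hy
        obtain ⟨v, hv, hv2⟩ := hy
        rw [(hzero y).2 ⟨v, hv, hv2⟩, mul_zero, hzero]
        exact ⟨v, hv, v.asIdeal.mul_mem_left _ hv2⟩
    · push Not at hx
      obtain ⟨v, hv, hv2⟩ := hx
      rw [(hzero x).2 ⟨v, hv, hv2⟩, zero_mul, hzero]
      exact ⟨v, hv, v.asIdeal.mul_mem_right _ hv2⟩
  have hunit : ∀ u, IsUnit u → ch0 m ψ u = 1 := by
    intro u hu
    have h1 : ((kc K C m 1 : (ZMod m)ˣ) : ZMod m) = nm u := by
      rw [map_one, Units.val_one, nm_unit hu, Nat.cast_one]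
    rw [ch0_of h1, map_one, Units.val_one]
  have hone : ch0 m ψ (1 : 𝓞 K) = 1 := hunit 1 isUnit_one
  have hpow : ∀ x, ch0 m ψ x ≠ 0 → ch0 m ψ x ^ p ^ k = 1 := by
    intro x hx
    rw [Ne, hzero] at hx
    push Not at hx
    obtain ⟨t, ht⟩ := (ex_iff (C := C) hB).2 hx
    rw [ch0_of ht, ← Units.val_pow_eq_pow_val, hψ, Units.val_one]
  have hpw : ∀ (x : 𝓞 K) (N : ℕ), ch0 m ψ (x ^ N) = ch0 m ψ x ^ N := by
    intro x N
    induction N with
    | zero => rw [pow_zero, pow_zero, hone]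
    | succ N ih => rw [pow_succ, pow_succ, hmul, ih]
  refine ⟨hone, hmul, hzero, fun x y hxy => ?_, hunit, k, hpow⟩
  by_cases hx : ∀ v ∈ pl K m, x ∉ v.asIdeal
  · obtain ⟨a, b, hab⟩ := cop_m hx
    set s : 𝓞 K := y * a - 1 with hs
    have hsv : ∀ v ∈ pl K m, s ∈ v.asIdeal := by
      intro v hv
      have e : s = -((x - y) * a) - b * m := by
        rw [hs]
        linear_combination hab
      rw [e]
      exact v.asIdeal.sub_mem (v.asIdeal.neg_mem (v.asIdeal.mul_mem_right _ (hxy v hv)))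
        (v.asIdeal.mul_mem_left _ (mem_pl.1 hv))
    obtain ⟨r, hr⟩ := rad_m hsv
    obtain ⟨A, B, hAB⟩ := pow_form m s r
    have h1 : (m : 𝓞 K) ∣ (1 + s) ^ m ^ r - 1 := by
      rw [hAB]
      have h2 : (m : 𝓞 K) ∣ s ^ 2 ^ r := hr.trans (pow_dvd_pow s (Nat.lt_two_pow_self).le)
      have e : 1 + (m : 𝓞 K) * A + s ^ 2 ^ r * B - 1 = m * A + s ^ 2 ^ r * B := by ring
      rw [e]
      exact dvd_add (dvd_mul_right _ _) (h2.mul_right _)
    have h2 : ch0 m ψ (1 + s) ^ m ^ r = 1 := by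
      rw [← hpw, ch0_eq (nm_cong hB m h1), hone]
    have h3 : ch0 m ψ (1 + s) ≠ 0 := by
      intro h0
      rw [h0, zero_pow (pow_ne_zero _ (NeZero.ne m))] at h2
      exact zero_ne_one h2
    have h4 := hpow _ h3
    have h5 : ch0 m ψ (1 + s) = 1 := by
      have h6 := Nat.dvd_gcd (orderOf_dvd_of_pow_eq_one h2) (orderOf_dvd_of_pow_eq_one h4)
      have h7 : Nat.gcd (m ^ r) (p ^ k) = 1 := Nat.Coprime.pow _ _ hpm.symm
      rw [h7, Nat.dvd_one, orderOf_eq_one_iff] at h6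
      exact h6
    have h8 : (m : 𝓞 K) ∣ x * (1 + s) - y := by
      refine ⟨-(y * b), ?_⟩
      rw [hs]
      linear_combination y * hab
    have h9 := ch0_eq (ψ := ψ) (nm_cong hB m h8)
    rw [hmul, h5, mul_one] at h9
    exact h9
  · push Not at hx
    obtain ⟨v, hv, hv2⟩ := hx
    rw [(hzero x).2 ⟨v, hv, hv2⟩, eq_comm, hzero]
    refine ⟨v, hv, ?_⟩
    have := v.asIdeal.sub_mem hv2 (hxy v hv)
    rwa [sub_sub_cancel] at this

end char

section law

variable {K F C : Type} [Field K] [NumberField K] [Field F] [NumberField F] [Field C]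
  [NumberField C] [Algebra K F] [Algebra K C] [Algebra F C] [IsScalarTower K F C]
  {m : ℕ} [NeZero m] [IsCyclotomicExtension {m} K C] [IsGalois K C] [IsGalois K F]

/-- inertia in subfields of cyclotomic extensions -/
theorem in_cyc (C : Type) [Field C] [NumberField C] [Algebra K C] [Algebra F C]
    [IsScalarTower K F C] [IsCyclotomicExtension {m} K C] [IsGalois K C]
    {u : HeightOneSpectrum (𝓞 F)} (h : (m : 𝓞 K) ∉ (lo (K := K) u).asIdeal) :
    ∀ t ∈ In (K := K) u, t = 1 := by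
  obtain ⟨⟨w, hw⟩⟩ := exists_ab (F := C) u
  have h1 : (m : 𝓞 K) ∉ (lo (K := K) w).asIdeal := by
    rw [← lo_lo (F := F), hw]
    exact h
  have h2 := in_tower (F := F) (w := w) fun t ht => kc_in h1 ht
  rw [hw] at h2
  exact h2

lemma frb_uniq {u : HeightOneSpectrum (𝓞 F)} (h : ∀ t ∈ In (K := K) u, t = 1) {s t : F ≃ₐ[K] F}
    (hs : Frb u s) (ht : Frb u t) : s = t := by
  have h1 : t⁻¹ * s ∈ In (K := K) u := by
    rw [mem_In]
    intro x
    have h2 := u.asIdeal.sub_mem (hs x) (ht x)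
    rw [sub_sub_sub_cancel_right] at h2
    have h3 := ((Dg u).inv_mem (frb_mem ht) _).2 h2
    rw [smul_sub, inv_smul_smul, smul_smul] at h3
    exact h3
  have h2 := h _ h1
  exact (inv_mul_eq_one.1 h2).symm

/-- **The reciprocity law.** -/
theorem cyc_rec [IsPrincipalIdealRing (𝓞 K)] {ω : 𝓞 K} {t₀ n₀ : ℤ} (hB : Bs ω t₀ n₀) (C : Type)
    [Field C] [NumberField C] [Algebra K C] [Algebra F C]
    [IsScalarTower K F C] [IsCyclotomicExtension {m} K C] [IsGalois K C]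
    {p k : ℕ} (hpm : Nat.Coprime p m) (hk : Module.finrank K F = p ^ k)
    (ψ : (F ≃ₐ[K] F) →* ℂˣ) :
    ∃ (T : Finset (HeightOneSpectrum (𝓞 K))) (χ : 𝓞 K → ℂ), T ⊆ pl K m ∧ CHp p T χ ∧
      ∀ u : HeightOneSpectrum (𝓞 F), lo (K := K) u ∉ pl K m → ∀ t : F ≃ₐ[K] F, Frb u t →
        ((ψ t : ℂˣ) : ℂ) = χ (gen (lo (K := K) u)) := by
  have hψ : ∀ t : C ≃ₐ[K] C, (ψ.comp (AlgEquiv.restrictNormalHom F)) t ^ p ^ k = 1 := by
    intro t
    rw [MonoidHom.comp_apply, ← map_pow, ← hk, ← IsGalois.card_aut_eq_finrank K F, pow_card_eq_one',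
      map_one]
  obtain ⟨T, χ, h1, h2, h3⟩ := exists_prim (ch0_chn (C := C) hB hpm hψ)
  refine ⟨T, χ, h1, h2, fun u hu t ht => ?_⟩
  have hm : (m : 𝓞 K) ∉ (lo (K := K) u).asIdeal := fun h => hu (mem_pl.2 h)
  obtain ⟨⟨w, hw⟩⟩ := exists_ab (F := C) u
  obtain ⟨s, hs⟩ := exists_frb (K := K) w
  have h4 := res_frb (F := F) hs
  rw [hw] at h4
  have h5 : t = s.restrictNormal F := frb_uniq (in_cyc C hm) ht h4
  have hlo : lo (K := K) w = lo (K := K) u := by rw [← lo_lo (F := F), hw]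
  have h6 : ((kc K C m s : (ZMod m)ˣ) : ZMod m) = nm (gen (lo (K := K) u)) := by
    have h7 := kc_frb (m := m) (C := C) (w := w) (by rw [hlo]; exact hm) hs
    rw [h7, hlo]
    unfold nm
    rw [gen_span]
  have hgen : ∀ v ∈ pl K m, gen (lo (K := K) u) ∉ v.asIdeal := (ex_iff (C := C) hB).1 ⟨s, h6⟩
  rw [h3 _ hgen, ch0_of h6, h5]
  rfl

/-- subfields of cyclotomic extensions are abelian -/
theorem cyc_comm (C : Type) [Field C] [NumberField C] [Algebra K C] [Algebra F C]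
    [IsScalarTower K F C] [IsCyclotomicExtension {m} K C] [IsGalois K C] (s t : F ≃ₐ[K] F) :
    s * t = t * s := by
  obtain ⟨s', rfl⟩ := AlgEquiv.restrictNormalHom_surjective (F := K) (K₁ := F) C s
  obtain ⟨t', rfl⟩ := AlgEquiv.restrictNormalHom_surjective (F := K) (K₁ := F) C t
  rw [← map_mul, ← map_mul]
  congr 1
  apply kc_inj K C m
  rw [map_mul, map_mul, mul_comm]

end law

end Pool.Agent.T9h30.PG
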