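import Pool.Agent.TH910.LS.Gal
import Pool.Agent.N890.US.NTOR
import Pool.Agent.Y213.EC.Red
import Pool.Agent.T9h30.BT.Loc

/-!
# Reduction of points of order `p`, inertia and Frobenius automorphisms
-/

set_option autoImplicit false
set_option linter.unusedSectionVars false

namespace Pool.Agent.T9h30.PG

open NumberField IsDedekindDomain WeierstrassCurve
open Pool.Agent.T9h30.BT
open Pool.Agent.TH910.LS (av av_na av_le_one av_lt_one Inert gal sig sig_eq eqv eqv_zero eqv_some
  sw_bc)
open Pool.Agent.TH942 (sw SPt)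
open Pool.Agent.H901R3.MS (Place CV Pt Disc)
open Pool.Agent.Y213.EC (IsRd exists_red)

section loc
variable {M : Type} [Field M] [NumberField M]

lemma av_one {w : HeightOneSpectrum (𝓞 M)} {z : 𝓞 M} (h : z ∉ w.asIdeal) : av w (z : M) = 1 := by
  have h1 : av w (z : M) ≤ 1 := av_le_one.2 (w.valuation_le_one z)
  have h2 : ¬ av w (z : M) < 1 := by
    rw [av_lt_one]
    intro h3
    exact h ((w.valuation_lt_one_iff_mem z).1 h3)
  exact le_antisymm h1 (not_lt.1 h2)

lemma av_int {w : HeightOneSpectrum (𝓞 M)} (z : 𝓞 M) : av w (z : M) ≤ 1 :=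
  av_le_one.2 (w.valuation_le_one z)

/-- torsion prime to the residue characteristic is integral -/
theorem tors_int [DecidableEq M] {w : HeightOneSpectrum (𝓞 M)} {a b : M} (ha : av w a ≤ 1)
    (hb : av w b ≤ 1) (h2 : av w 2 = 1) {p : ℕ} (hp : p.Prime) (hp2 : 2 < p)
    (hpw : av w (p : M) = 1) {x y : M}
    (h : (sw a b).toAffine.Nonsingular x y) (hT : p • (Affine.Point.some x y h : SPt a b) = 0) :
    av w x ≤ 1 := by
  let _ : NormedField M := (av w).toNormedField
  have hu : IsUltrametricDist M := by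
    constructor
    intro x y z
    rw [dist_eq_norm, dist_eq_norm, dist_eq_norm]
    show av w (x - z) ≤ max (av w (x - y)) (av w (y - z))
    have e : x - z = (x - y) + (y - z) := by ring
    rw [e]
    exact av_na w _ _
  exact Pool.Agent.N890.US.NTOR.main (L := M) (W := sw a b) ⟨⟨rfl, rfl, rfl⟩, ha, hb⟩ h2 p hp hp2
    hpw x y h hT

/-- the residue field of the valuation ring -/
abbrev RF (w : HeightOneSpectrum (𝓞 M)) : Type :=
  IsLocalRing.ResidueField (w.valuation M).valuationSubring

lemma res0 {w : HeightOneSpectrum (𝓞 M)} (x : (w.valuation M).valuationSubring) :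
    IsLocalRing.residue (w.valuation M).valuationSubring x = 0 ↔ w.valuation M x < 1 :=
  (IsLocalRing.residue_eq_zero_iff _).trans (Valuation.mem_maximalIdeal_iff M (w.valuation M))

/-- the place of `M` -/
noncomputable def plc (w : HeightOneSpectrum (𝓞 M)) : Place M (RF w) where
  A := (w.valuation M).valuationSubring.toSubring
  ρ := IsLocalRing.residue (w.valuation M).valuationSubring
  inv_of_notMem x hx := by
    have h1 : ¬ w.valuation M x ≤ 1 := hx
    rw [not_le] at h1
    have h2 : w.valuation M x⁻¹ < 1 := by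
      rw [map_inv₀]
      exact inv_lt_one_of_one_lt₀ h1
    exact ⟨h2.le, (res0 (⟨x⁻¹, h2.le⟩ : (w.valuation M).valuationSubring)).2 h2⟩
  inv_of_ne x hx := by
    have h0 : (x : M) ≠ 0 := by
      intro h
      apply hx
      rw [show x = 0 from Subtype.ext h]
      exact map_zero _
    have h1 : ¬ w.valuation M (x : M) < 1 := fun h => hx ((res0 _).2 h)
    have h2 : w.valuation M (x : M)⁻¹ ≤ 1 := by
      rw [map_inv₀]
      exact inv_le_one_of_one_le₀ (not_lt.1 h1)
    exact h2

lemma mem_A {w : HeightOneSpectrum (𝓞 M)} {x : M} : x ∈ (plc w).A ↔ w.valuation M x ≤ 1 := Iff.rfl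

lemma r_zero_iff {w : HeightOneSpectrum (𝓞 M)} {x : M} (hx : w.valuation M x ≤ 1) :
    (plc w).r x = 0 ↔ w.valuation M x < 1 := by
  rw [Place.r_of _ (mem_A.2 hx)]
  exact res0 _

lemma r_int_zero {w : HeightOneSpectrum (𝓞 M)} (x : 𝓞 M) :
    (plc w).r (x : M) = 0 ↔ x ∈ w.asIdeal := by
  rw [r_zero_iff (w.valuation_le_one x)]
  exact w.valuation_lt_one_iff_mem x

/-- the residue map on the integers -/
noncomputable def rmap (w : HeightOneSpectrum (𝓞 M)) : 𝓞 M →+* RF w where
  toFun x := (plc w).r (x : M)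
  map_one' := (plc w).r_one
  map_zero' := (plc w).r_zero
  map_add' x y := by
    have h := (plc w).r_add (mem_A.2 (w.valuation_le_one x)) (mem_A.2 (w.valuation_le_one y))
    exact h
  map_mul' x y := by
    have h := (plc w).r_mul (mem_A.2 (w.valuation_le_one x)) (mem_A.2 (w.valuation_le_one y))
    exact h

lemma rmap_apply (w : HeightOneSpectrum (𝓞 M)) (x : 𝓞 M) : rmap w x = (plc w).r (x : M) := rfl

lemma rmap_zero {w : HeightOneSpectrum (𝓞 M)} {x : 𝓞 M} : rmap w x = 0 ↔ x ∈ w.asIdeal :=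
  r_int_zero x

end loc

section frob

variable {K M : Type} [Field K] [NumberField K] [Field M] [NumberField M] [Algebra K M]

/-- Frobenius automorphisms and residues -/
lemma frb_r {w : HeightOneSpectrum (𝓞 M)} {φ : M ≃ₐ[K] M} (hφ : Frb w φ) {z : M}
    (hz : w.valuation M z ≤ 1) : w.valuation M (φ z) ≤ 1 ∧
      (plc w).r (φ z) = (plc w).r z ^ Ideal.absNorm (lo (K := K) w).asIdeal := by
  have hint : ∀ x : 𝓞 M, (plc w).r (φ (x : M)) =
      (plc w).r (x : M) ^ Ideal.absNorm (lo (K := K) w).asIdeal := by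
    intro x
    have h1 := hφ x
    rw [← rmap_zero, map_sub, map_pow, sub_eq_zero] at h1
    exact h1
  have hinv : ∀ x : 𝓞 M, w.valuation M (φ (x : M)) ≤ 1 := fun x => w.valuation_le_one (φ • x)
  obtain ⟨n, d, hnd⟩ := HeightOneSpectrum.exists_primeCompl_mul_eq_of_integer w z hz
  have hnd' : z * ((d : 𝓞 M) : M) = ((n : 𝓞 M) : M) := hnd
  have hd : (d : 𝓞 M) ∉ w.asIdeal := d.2
  have hd0 : (plc w).r ((d : 𝓞 M) : M) ≠ 0 := fun h => hd (rmap_zero.1 h)
  have hφd : (plc w).r (φ ((d : 𝓞 M) : M)) ≠ 0 := by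
    rw [hint]
    exact pow_ne_zero _ hd0
  have hφd0 : φ ((d : 𝓞 M) : M) ≠ 0 := (plc w).ne_zero_of_r_ne hφd
  have hz' : φ z = φ ((n : 𝓞 M) : M) / φ ((d : 𝓞 M) : M) := by
    rw [← hnd', map_mul, mul_div_cancel_right₀ _ hφd0]
  refine ⟨?_, ?_⟩
  · rw [hz']
    exact mem_A.1 ((plc w).div_mem (mem_A.2 (hinv n)) hφd)
  · rw [hz', (plc w).r_div (mem_A.2 (hinv n)) hφd, hint, hint, ← hnd',
      (plc w).r_mul (mem_A.2 hz) (mem_A.2 (w.valuation_le_one (d : 𝓞 M))), mul_pow,
      mul_div_cancel_right₀ _ (pow_ne_zero _ hd0)]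

lemma prod_card {k : Type} [Field k] [Fintype k] :
    ∏ r : k, (Polynomial.X - Polynomial.C r) = Polynomial.X ^ Fintype.card k - Polynomial.X := by
  classical
  have h1 := FiniteField.roots_X_pow_card_sub_X k
  have h2 : (Polynomial.X ^ Fintype.card k - Polynomial.X : Polynomial k).natDegree =
      Fintype.card k := FiniteField.X_pow_card_sub_X_natDegree_eq k Fintype.one_lt_card
  have h3 : (Polynomial.X ^ Fintype.card k - Polynomial.X : Polynomial k).Monic := by
    refine Polynomial.monic_X_pow_sub ?_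
    rw [Polynomial.degree_X]
    exact_mod_cast Fintype.one_lt_card
  have h4 := Polynomial.prod_multiset_X_sub_C_of_monic_of_roots_card_eq h3 (by
    rw [h1, h2]
    rfl)
  rw [h1] at h4
  exact h4

/-- the elements fixed by the Frobenius map -/
lemma frob_fix {k R : Type} [Field k] [Finite k] [Field R] (f : k →+* R) {z : R}
    (hz : z ^ Nat.card k = z) : ∃ x, f x = z := by
  let _ : Fintype k := Fintype.ofFinite k
  have h1 := congrArg (Polynomial.eval₂ f z) (prod_card (k := k))
  rw [Polynomial.eval₂_finsetProd, Polynomial.eval₂_sub, Polynomial.eval₂_pow,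
    Polynomial.eval₂_X, ← Nat.card_eq_fintype_card, hz, sub_self, Finset.prod_eq_zero_iff] at h1
  obtain ⟨x, -, hx⟩ := h1
  rw [Polynomial.eval₂_sub, Polynomial.eval₂_X, Polynomial.eval₂_C, sub_eq_zero] at hx
  exact ⟨x, hx.symm⟩

/-- the number of points over a finite field -/
lemma card_pt {k : Type} [Field k] [Finite k] {a b : k} (hd : Disc a b) :
    Finite (Pt a b) ∧
    Nat.card (Pt a b) = Nat.card {x : k × k // x.2 ^ 2 = x.1 ^ 3 + a * x.1 + b} + 1 := by
  classical
  let e : Pt a b ≃ Option {x : k × k // x.2 ^ 2 = x.1 ^ 3 + a * x.1 + b} :=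
    { toFun := fun P => match P with
        | .zero => none
        | .some x y h => some ⟨(x, y), Pool.Agent.H901R3.MS.eqn_of h⟩
      invFun := fun P => match P with
        | none => .zero
        | some x => .some x.1.1 x.1.2 ((Pool.Agent.H901R3.MS.nonsingular_iff hd).2 x.2)
      left_inv := fun P => by cases P <;> rfl
      right_inv := fun P => by cases P <;> rfl }
  refine ⟨Finite.of_equiv _ e.symm, ?_⟩
  rw [Nat.card_congr e, Finite.card_option]

end frob

end Pool.Agent.T9h30.PG
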