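import Pool.Agent.T9h30.PG.Dsc2

/-!
# Finiteness of the group of points
-/

set_option autoImplicit false
set_option linter.unusedSectionVars false

namespace Pool.Agent.T9h30.PG

open NumberField IsDedekindDomain WeierstrassCurve
open Pool.Agent.T9h30.BT

lemma fin_of_div {A : Type} [AddCommGroup A] (hA : AddGroup.FG A) {p : ℕ} (hp : p.Prime)
    (h1 : ∀ x : A, ∃ y : A, p • y = x) (h2 : ∀ x : A, p • x = 0 → x = 0) :
    Finite A ∧ ¬ p ∣ Nat.card A := by
  have hfin : Module.Finite ℤ A := Module.Finite.iff_addGroup_fg.2 hA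
  obtain ⟨r, hr1, hr2⟩ := Submodule.exists_sub_one_mem_and_smul_eq_zero_of_fg_of_le_smul
    (Ideal.span {(p : ℤ)}) (⊤ : Submodule ℤ A) hfin.fg_top (by
      intro x _
      obtain ⟨y, rfl⟩ := h1 x
      rw [← natCast_zsmul]
      exact Submodule.smul_mem_smul (Ideal.mem_span_singleton_self _) trivial)
  have hr0 : r ≠ 0 := by
    rintro rfl
    rw [Ideal.mem_span_singleton, zero_sub, dvd_neg] at hr1
    have := Int.isUnit_iff.1 (isUnit_of_dvd_one hr1)
    have := hp.one_lt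
    omega
  have ht : Module.IsTorsion ℤ A := by
    intro x
    exact ⟨⟨r, mem_nonZeroDivisors_of_ne_zero hr0⟩, hr2 x trivial⟩
  have hf : Finite A := Module.finite_of_fg_torsion _ ht
  refine ⟨hf, fun hd => ?_⟩
  have hfp : Fact p.Prime := ⟨hp⟩
  obtain ⟨x, hx⟩ := exists_prime_addOrderOf_dvd_card' p hd
  have h3 : p • x = 0 := by
    rw [← hx]
    exact addOrderOf_nsmul_eq_zero x
  rw [h2 x h3, addOrderOf_zero] at hx
  exact hp.one_lt.ne hx

variable {K : Type} [Field K] [NumberField K] {F : Type} [Field F] [NumberField F] [Algebra K F]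
  [DecidableEq F] [IsGalois K F] {a b : 𝓞 K} {p k : ℕ}

/-- **The group of points over extensions of `p`-power degree.** -/
theorem fin_pts [DecidableEq K] (hp : p.Prime) (hp2 : 2 < p)
    (hΔ : 4 * a ^ 3 + 27 * b ^ 2 ≠ 0) (hk : Module.finrank K F = p ^ k)
    (hsp : ∀ v : HeightOneSpectrum (𝓞 K), 2 * (p : 𝓞 K) * (4 * a ^ 3 + 27 * b ^ 2) ∈ v.asIdeal →
      Nonempty (F →ₐ[K] v.adicCompletion K))
    (hun : ∀ u : HeightOneSpectrum (𝓞 F),
      2 * (p : 𝓞 K) * (4 * a ^ 3 + 27 * b ^ 2) ∉ (lo (K := K) u).asIdeal →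
      p ∣ pp a b (lo (K := K) u) + 1 → ∀ t : F ≃ₐ[K] F, t ∈ In u → t = 1)
    (hK : ∀ T : EP (a : K) (b : K) K, p • T = 0 → T = 0) (hS : SelT a b p) :
    Finite (EP (a : K) (b : K) F) ∧ ¬ p ∣ Nat.card (EP (a : K) (b : K) F) := by
  have hΔ' : (4 : K) * (a : K) ^ 3 + 27 * (b : K) ^ 2 ≠ 0 := by
    have h1 : algebraMap (𝓞 K) K (4 * a ^ 3 + 27 * b ^ 2) ≠ 0 := by
      rwa [Ne, FaithfulSMul.algebraMap_eq_zero_iff]
    intro h2
    apply h1
    rw [map_add, map_mul, map_mul, map_pow, map_pow, map_ofNat, map_ofNat]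
    exact h2
  have h1 : ((cv (a : K) (b : K)).baseChange F).Δ ≠ 0 := by
    unfold WeierstrassCurve.baseChange
    rw [WeierstrassCurve.map_Δ, cv_Δ, Ne, map_eq_zero, neg_eq_zero]
    exact mul_ne_zero (by norm_num) (mul_ne_zero two_ne_zero hΔ')
  have hfg := Pool.Agent.Q286.EQ.mordell_weil F ((cv (a : K) (b : K)).baseChange F) h1
  exact fin_of_div hfg hp (descent hp hp2 hΔ' hk hsp hun hK hS) (no_tors hp hΔ' hk hK)

end Pool.Agent.T9h30.PG
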