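import Pool.Agent.T9h30.PG.Cyc
import Pool.Agent.T9h30.PG.Fin

/-!
# Both sides of the conjecture over an abelian extension of `p`-power degree
-/

set_option autoImplicit false
set_option linter.unusedSectionVars false

namespace Pool.Agent.T9h30.PG

open NumberField IsDedekindDomain WeierstrassCurve Filter Topology
open Pool.Agent.T9h30.BT
open Pool.Agent.K4H55.BI (gen gen_span gen_dvd gen_prime IQ BF Fser)
open Pool.Agent.K4H55.BK (Vals)

variable {K : Type} [Field K] [NumberField K] [IsPrincipalIdealRing (𝓞 K)] {σ : K →+* ℂ} {δ : K}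
  {n : 𝓞 K} {c : Ideal (𝓞 K) → ℂ} {a b : 𝓞 K} {p k : ℕ}

/-- the situation over `K` -/
structure Dat (σ : K →+* ℂ) (δ : K) (n : 𝓞 K) (c : Ideal (𝓞 K) → ℂ) (a b : 𝓞 K) (p : ℕ) : Prop
    where
  iq : IQ K σ δ
  bf : BF σ δ n c
  disc : 4 * a ^ 3 + 27 * b ^ 2 ≠ 0
  nf : IsNF (cv (a : K) (b : K)) n c
  prime : p.Prime
  odd : 2 < p
  val : ∃ z ω : ℂ, Tendsto (fun t => Fser σ δ c 0 t) (𝓝[>] 0) (𝓝 z) ∧
    (∀ l ∈ AddSubgroup.closure (Vals σ δ n c), ∃ j : ℤ, l = j * ω) ∧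
    ω ∈ AddSubgroup.closure (Vals σ δ n c) ∧
    ∀ y ∈ AddSubgroup.closure (Vals σ δ n c), z ≠ p * y
  tors : ∀ [DecidableEq K] (T : EP (a : K) (b : K) K), p • T = 0 → T = 0
  sel : SelT a b p

/-- admissible places -/
def Adp (a b : 𝓞 K) (p : ℕ) (v : HeightOneSpectrum (𝓞 K)) : Prop :=
  2 * (p : 𝓞 K) * (4 * a ^ 3 + 27 * b ^ 2) ∉ v.asIdeal ∧ ¬ p ∣ pp a b v + 1

lemma Adp.good {v : HeightOneSpectrum (𝓞 K)} (h : Adp a b p v) :
    2 * (4 * a ^ 3 + 27 * b ^ 2) ∉ v.asIdeal := by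
  intro h1
  apply h.1
  have e : 2 * (p : 𝓞 K) * (4 * a ^ 3 + 27 * b ^ 2) =
      (p : 𝓞 K) * (2 * (4 * a ^ 3 + 27 * b ^ 2)) := by ring
  rw [e]
  exact v.asIdeal.mul_mem_left _ h1

lemma nf_good (hNF : IsNF (cv (a : K) (b : K)) n c) {v : HeightOneSpectrum (𝓞 K)}
    (hv : 2 * (4 * a ^ 3 + 27 * b ^ 2) ∉ v.asIdeal) :
    n ∉ v.asIdeal ∧ c v.asIdeal = (Ideal.absNorm v.asIdeal : ℤ) - pp a b v := by
  obtain ⟨h1, h2⟩ := loc_int a b v hv
  obtain ⟨g1, g2, g3⟩ := hNF v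
  refine ⟨fun hn => ?_, ?_⟩
  · have h3 := g2 hn
    rw [h2] at h3
    have := one_lt_nrm v
    omega
  · rw [g1, h1]
    push_cast
    rfl

/-- the values of the twists -/
theorem Dat.value (h : Dat σ δ n c a b p) {T : Finset (HeightOneSpectrum (𝓞 K))} {χ : 𝓞 K → ℂ}
    (hχ : CHp p T χ) (hT : ∀ v ∈ T, Adp a b p v) :
    ∃ G : ℂ → ℂ, Differentiable ℂ G ∧
      (∀ s : ℂ, 2 < s.re → HasProd (K4H55.CX.efx n c χ s) (G s)) ∧ G 1 ≠ 0 := by
  classical
  obtain ⟨z, ω, hz, h1, h2, h3⟩ := h.val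
  refine val_p h.iq h.bf h.prime hχ (fun v hv => ?_) hz h1 h2 h3
  have hg := (hT v hv).good
  obtain ⟨g1, g2⟩ := nf_good h.nf hg
  refine ⟨fun h4 => hg (v.asIdeal.mul_mem_right _ h4), g1,
    (Ideal.absNorm v.asIdeal : ℤ) - pp a b v, ?_, ?_⟩
  · rw [g2]
    push_cast
    ring
  · -- the norm is one modulo `p`
    intro hd
    apply (hT v hv).2
    have hN : (p : ℤ) ∣ (Ideal.absNorm v.asIdeal : ℤ) - 1 := by
      obtain ⟨x, hx1, hx2, hx3⟩ := hχ.prim v hv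
      obtain ⟨k, hk⟩ := hχ.pow
      have hxv : x ∉ v.asIdeal := (hχ.ne_iff x).1 hx2 v hv
      have hmax : v.asIdeal.IsMaximal := v.isMaximal
      have hfin : Finite (𝓞 K ⧸ v.asIdeal) := Ideal.finiteQuotientOfFreeOfNeBot _ v.ne_bot
      let _ : Field (𝓞 K ⧸ v.asIdeal) := Ideal.Quotient.field _
      let _ : Fintype (𝓞 K ⧸ v.asIdeal) := Fintype.ofFinite _
      have hcard : Fintype.card (𝓞 K ⧸ v.asIdeal) = Ideal.absNorm v.asIdeal := by
        rw [← Nat.card_eq_fintype_card]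
        rfl
      have h4 : x ^ (Ideal.absNorm v.asIdeal - 1) - 1 ∈ v.asIdeal := by
        rw [← Ideal.Quotient.eq, map_pow, map_one, ← hcard]
        refine FiniteField.pow_card_sub_one_eq_one _ ?_
        rwa [Ne, Ideal.Quotient.eq_zero_iff_mem]
      have h5 : χ (x ^ (Ideal.absNorm v.asIdeal - 1)) = χ 1 := by
        refine hχ.prd _ _ fun v' hv' => ?_
        by_cases h6 : v' = v
        · rw [h6]
          exact h4
        · have h7 := hx1 v' hv' h6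
          rw [← Ideal.Quotient.eq, map_pow, Ideal.Quotient.eq.2 h7, map_one, one_pow]
      have hpw : ∀ N : ℕ, χ (x ^ N) = χ x ^ N := by
        intro N
        induction N with
        | zero => rw [pow_zero, pow_zero, hχ.one]
        | succ N ih => rw [pow_succ, pow_succ, hχ.mul, ih]
      rw [hpw, hχ.one] at h5
      have h8 := Nat.dvd_gcd (orderOf_dvd_of_pow_eq_one h5) (orderOf_dvd_of_pow_eq_one (hk x hx2))
      have h9 : p ∣ Ideal.absNorm v.asIdeal - 1 := by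
        by_contra hnd
        have h10 : Nat.Coprime (Ideal.absNorm v.asIdeal - 1) (p ^ k) :=
          ((Nat.Prime.coprime_iff_not_dvd h.prime).2 hnd).symm.pow_right k
        rw [h10.gcd_eq_one, Nat.dvd_one, orderOf_eq_one_iff] at h8
        exact hx3 h8
      have h11 := one_lt_nrm v
      obtain ⟨q, hq⟩ := h9
      exact ⟨q, by
        have : Ideal.absNorm v.asIdeal = p * q + 1 := by omega
        rw [this]
        push_cast
        ring⟩
    have h12 : (p : ℤ) ∣ ((pp a b v + 1 : ℕ) : ℤ) := by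
      have e : ((pp a b v + 1 : ℕ) : ℤ) = ((Ideal.absNorm v.asIdeal : ℤ) - 1) -
          ((Ideal.absNorm v.asIdeal : ℤ) - pp a b v - 2) := by
        push_cast
        ring
      rw [e]
      exact dvd_sub hN hd
    exact_mod_cast h12

variable {F : Type} [Field F] [NumberField F] [Algebra K F] [DecidableEq F] [IsGalois K F]

lemma bc_cF : (cv (a : K) (b : K)).baseChange F = cF F a b := by
  unfold cF WeierstrassCurve.baseChange
  rw [cv_map]

/-- **Both sides over one field.** -/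
theorem Dat.one (h : Dat σ δ n c a b p) (hk : Module.finrank K F = p ^ k)
    (hsp : ∀ v : HeightOneSpectrum (𝓞 K), 2 * (p : 𝓞 K) * (4 * a ^ 3 + 27 * b ^ 2) ∈ v.asIdeal →
      Nonempty (F →ₐ[K] v.adicCompletion K))
    (hun : ∀ u : HeightOneSpectrum (𝓞 F),
      2 * (p : 𝓞 K) * (4 * a ^ 3 + 27 * b ^ 2) ∉ (lo (K := K) u).asIdeal →
      ¬ Adp a b p (lo (K := K) u) → ∀ t : F ≃ₐ[K] F, t ∈ In u → t = 1)
    (hab : ∀ s t : F ≃ₐ[K] F, s * t = t * s)
    {T : ((F ≃ₐ[K] F) →* ℂˣ) → Finset (HeightOneSpectrum (𝓞 K))}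
    {χ : ((F ≃ₐ[K] F) →* ℂˣ) → 𝓞 K → ℂ} (hR : Rec T χ)
    (hNV : ∀ ψ, ∃ G : ℂ → ℂ, Differentiable ℂ G ∧
      (∀ s : ℂ, 2 < s.re → HasProd (K4H55.CX.efx n c (χ ψ) s) (G s)) ∧ G 1 ≠ 0) :
    (Finite ((cv (a : K) (b : K)).baseChange F).toAffine.Point ∧
      ¬ p ∣ Nat.card ((cv (a : K) (b : K)).baseChange F).toAffine.Point) ∧
      ∃ H : ℂ → ℂ, MeromorphicOn H Set.univ ∧ AnalyticAt ℂ H 1 ∧ H 1 ≠ 0 ∧
        ∀ s : ℂ, 2 < s.re → H s = ((cv (a : K) (b : K)).baseChange F).LSeries s := by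
  classical
  constructor
  · exact fin_pts h.prime h.odd h.disc hk hsp
      (fun u h1 h2 => hun u h1 fun h3 => h3.2 h2) (h.tors) h.sel
  · choose G hG1 hG2 hG3 using hNV
    rw [bc_cF]
    exact continuation hab hR a b h.disc h.nf hG1 hG2 hG3

/-- **Subfields of cyclotomic extensions.** -/
theorem Dat.cyc (h : Dat σ δ n c a b p) {m : ℕ} [NeZero m] (hpm : Nat.Coprime p m)
    (hm : ∀ v : HeightOneSpectrum (𝓞 K), (m : 𝓞 K) ∈ v.asIdeal → Adp a b p v)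
    (C : Type) [Field C] [NumberField C] [Algebra K C] [Algebra F C] [IsScalarTower K F C]
    [IsCyclotomicExtension {m} K C]
    (hk : Module.finrank K F = p ^ k)
    (hsp : ∀ v : HeightOneSpectrum (𝓞 K), 2 * (p : 𝓞 K) * (4 * a ^ 3 + 27 * b ^ 2) ∈ v.asIdeal →
      Nonempty (F →ₐ[K] v.adicCompletion K)) :
    (Finite ((cv (a : K) (b : K)).baseChange F).toAffine.Point ∧
      ¬ p ∣ Nat.card ((cv (a : K) (b : K)).baseChange F).toAffine.Point) ∧
      ∃ H : ℂ → ℂ, MeromorphicOn H Set.univ ∧ AnalyticAt ℂ H 1 ∧ H 1 ≠ 0 ∧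
        ∀ s : ℂ, 2 < s.re → H s = ((cv (a : K) (b : K)).baseChange F).LSeries s := by
  classical
  have hGC : IsGalois K C := IsCyclotomicExtension.isGalois {m} K C
  obtain ⟨ω, t₀, n₀, hB⟩ := exists_bs h.iq
  choose T χ h1 h2 h3 using fun ψ => cyc_rec (F := F) (m := m) hB C hpm hk ψ
  have hR : Rec (fun _ : (F ≃ₐ[K] F) →* ℂˣ => pl K m) χ := by
    refine ⟨fun ψ x => ?_, fun ψ u hu t ht => h3 ψ u hu t ht⟩
    by_cases h0 : χ ψ x = 0
    · exact Or.inr h0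
    · obtain ⟨j, hj⟩ := (h2 ψ).pow
      exact Or.inl (Complex.norm_eq_one_of_pow_eq_one (hj x h0) (pow_ne_zero _ h.prime.ne_zero))
  refine h.one hk hsp (fun u _ hu t ht => ?_) (cyc_comm (m := m) C) hR fun ψ => ?_
  · refine in_cyc (m := m) C (fun h4 => hu (hm _ h4)) t ht
  · exact h.value (h2 ψ) fun v hv => hm v (mem_pl.1 (h1 ψ hv))

end Pool.Agent.T9h30.PG
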