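import Pool.Agent.T9h30.PG.Chb
import Pool.Agent.T9h30.PG.Big
import Pool.Agent.T9h30.PG.Adq
import Pool.Agent.T9h30.PG.One

/-!
# Places with Frobenius automorphisms with given properties
-/

set_option autoImplicit false
set_option linter.unusedSectionVars false

namespace Pool.Agent.T9h30.PG

open NumberField IsDedekindDomain Filter Topology WeierstrassCurve
open Pool.Agent.T9h30.BT

section loc

variable {K M : Type} [Field K] [NumberField K] [Field M] [NumberField M] [Algebra K M]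

lemma prim_mk {n : ℕ} [NeZero n] {ζ : 𝓞 M} (hζ : IsPrimitiveRoot ζ n) {w : HeightOneSpectrum (𝓞 M)}
    (h : (n : 𝓞 K) ∉ (lo (K := K) w).asIdeal) :
    IsPrimitiveRoot (Ideal.Quotient.mk w.asIdeal ζ) n := by
  have h1 : (n : 𝓞 M) ∉ w.asIdeal := by
    intro h2
    apply h
    rw [mem_lo, map_natCast]
    exact h2
  refine hζ.idealQuotient_mk ?_ (cop_nrm h1)
  rw [Ne, Ideal.absNorm_eq_one_iff]
  exact w.isPrime.ne_top

lemma pow_mod {n : ℕ} [NeZero n] {ζ : 𝓞 M} (hζ : IsPrimitiveRoot ζ n)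
    {w : HeightOneSpectrum (𝓞 M)} (h : (n : 𝓞 K) ∉ (lo (K := K) w).asIdeal) {i j : ℕ}
    (hij : ζ ^ i - ζ ^ j ∈ w.asIdeal) : (i : ZMod n) = j := by
  have h0 := prim_mk hζ h
  rw [← Ideal.Quotient.eq, map_pow, map_pow, (h0.isOfFinOrder (NeZero.ne _)).pow_inj_mod,
    ← h0.eq_orderOf, ← ZMod.natCast_eq_natCast_iff'] at hij
  exact hij

lemma smul_nat (s : M ≃ₐ[K] M) (q : ℕ) : s • (q : 𝓞 M) = q := by
  have := map_natCast (MulSemiringAction.toRingHom (M ≃ₐ[K] M) (𝓞 M) s) q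
  exact this

lemma smul_pw (s : M ≃ₐ[K] M) (x : 𝓞 M) (k : ℕ) : s • x ^ k = (s • x) ^ k := smul_pow' s x k

/-- Frobenius automorphisms and roots of unity -/
lemma frb_root {n : ℕ} [NeZero n] {ζ : 𝓞 M} (hζ : IsPrimitiveRoot ζ n)
    {w : HeightOneSpectrum (𝓞 M)} (h : (n : 𝓞 K) ∉ (lo (K := K) w).asIdeal) {s : M ≃ₐ[K] M}
    (hs : Frb w s) {η : 𝓞 M} (hη : η ^ n = 1) :
    s • η = η ^ Ideal.absNorm (lo (K := K) w).asIdeal := by
  obtain ⟨k, -, hk⟩ := hζ.eq_pow_of_pow_eq_one (ξ := s • ζ) (by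
    rw [← smul_pw, hζ.pow_eq_one, smul_one])
  have h1 : s • ζ = ζ ^ Ideal.absNorm (lo (K := K) w).asIdeal := by
    have h2 := hs ζ
    rw [← hk] at h2 ⊢
    have h3 := pow_mod hζ h h2
    rw [(hζ.isOfFinOrder (NeZero.ne _)).pow_inj_mod, ← hζ.eq_orderOf,
      ← ZMod.natCast_eq_natCast_iff']
    exact h3
  obtain ⟨i, -, rfl⟩ := hζ.eq_pow_of_pow_eq_one hη
  rw [smul_pw, h1, ← pow_mul, ← pow_mul, mul_comm]

/-- roots of numbers modulo a prime -/
lemma root_of_frb {w : HeightOneSpectrum (𝓞 M)} {l : ℕ} [Fact l.Prime]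
    (hl : Ideal.absNorm (lo (K := K) w).asIdeal = l) {s : M ≃ₐ[K] M} (hs : Frb w s) {r : 𝓞 M}
    (hr : s • r = r) {n q : ℕ} (h : r ^ n = q) : ∃ x : ZMod l, x ^ n = q := by
  have hmax : w.asIdeal.IsMaximal := w.isMaximal
  let _ : Field (𝓞 M ⧸ w.asIdeal) := Ideal.Quotient.field _
  have hl0 : (l : 𝓞 M) ∈ w.asIdeal := by
    have h1 : (l : 𝓞 K) ∈ (lo (K := K) w).asIdeal := by
      rw [← hl]
      exact Ideal.absNorm_mem _
    rw [mem_lo, map_natCast] at h1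
    exact h1
  have hchar : CharP (𝓞 M ⧸ w.asIdeal) l := by
    refine (CharP.charP_iff_prime_eq_zero Fact.out).2 ?_
    rw [← map_natCast (Ideal.Quotient.mk w.asIdeal)]
    exact Ideal.Quotient.eq_zero_iff_mem.2 hl0
  let f : ZMod l →+* 𝓞 M ⧸ w.asIdeal := ZMod.castHom (dvd_refl l) _
  obtain ⟨x, hx⟩ := frob_fix f (z := Ideal.Quotient.mk w.asIdeal r) (by
    rw [Nat.card_zmod, ← map_pow, Ideal.Quotient.eq]
    have h1 := hs r
    rw [hr, hl] at h1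
    have h2 := w.asIdeal.neg_mem h1
    rwa [neg_sub] at h2)
  refine ⟨x, f.injective ?_⟩
  rw [map_pow, hx, ← map_pow, h, map_natCast, map_natCast]

end loc

section dens

variable {K : Type} [Field K] [NumberField K]

attribute [local instance] actE

/-- the conditions on the automorphisms -/
structure Sg {J : Type} (a b : J → 𝓞 K) (p n : ℕ) (Q : Finset ℕ) {M : Type} [Field M]
    [NumberField M] [Algebra K M] [DecidableEq M] (s : M ≃ₐ[K] M) : Prop where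
  unity : ∀ ζ : 𝓞 M, ζ ^ n = 1 → s • ζ = ζ
  root : ∀ q ∈ Q, ∀ r : 𝓞 M, r ^ n = q → s • r = r
  tors : ∀ j, ∀ T : EP (a j : K) (b j : K) M, p • T = 0 → s • T = T → T = 0

variable {J : Type} {a b : J → 𝓞 K} {p n N : ℕ} {Q : Finset ℕ} {M : Type} [Field M]
    [NumberField M] [Algebra K M] [DecidableEq M]

lemma Sg.conj {s : M ≃ₐ[K] M} (h : Sg a b p n Q s) (t : M ≃ₐ[K] M) : Sg a b p n Q (t * s * t⁻¹) := by
  refine ⟨fun ζ hζ => ?_, fun q hq r hr => ?_, fun j T hT h1 => ?_⟩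
  · rw [mul_smul, mul_smul, h.unity (t⁻¹ • ζ), smul_inv_smul]
    rw [← smul_pw, hζ, smul_one]
  · rw [mul_smul, mul_smul, h.root q hq (t⁻¹ • r), smul_inv_smul]
    rw [← smul_pw, hr, smul_nat]
  · rw [mul_smul, mul_smul] at h1
    have h2 : s • t⁻¹ • T = t⁻¹ • T := by
      have h3 := congrArg (fun z => t⁻¹ • z) h1
      simp only [inv_smul_smul] at h3
      exact h3
    have h3 := h.tors j (t⁻¹ • T) (by rw [smul_comm, hT, smul_zero]) h2
    have h4 := congrArg (fun z => t • z) h3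
    simp only [smul_inv_smul, smul_zero] at h4
    exact h4

lemma adp_good {α β : 𝓞 K} {v : HeightOneSpectrum (𝓞 K)} (h : Adp α β p v) :
    2 * (4 * α ^ 3 + 27 * β ^ 2) ∉ v.asIdeal := by
  intro h1
  apply h.1
  have e : 2 * (p : 𝓞 K) * (4 * α ^ 3 + 27 * β ^ 2) =
      (p : 𝓞 K) * (2 * (4 * α ^ 3 + 27 * β ^ 2)) := by ring
  rw [e]
  exact v.asIdeal.mul_mem_left _ h1

/-- powers of automorphisms without fixed points of order `p` -/
lemma fix_pt (hp : p.Prime) {α β : K} {t : M ≃ₐ[K] M}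
    (ht : ∀ T : EP α β M, p • T = 0 → t • T = T → T = 0) (k : ℕ) (T : EP α β M)
    (hT : p • T = 0) (h : t ^ p ^ k • T = T) : T = 0 := by
  let f : tsb p (EP α β M) →+ tsb p (EP α β M) :=
    { toFun := fun T => ⟨t • (T : EP α β M), by
        show p • (t • (T : EP α β M)) = 0
        rw [smul_comm, show p • (T : EP α β M) = 0 from T.2, smul_zero]⟩
      map_zero' := Subtype.ext (smul_zero _)
      map_add' := fun x y => Subtype.ext (smul_add _ _ _) }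
  have hf : ∀ (j : ℕ) (T : tsb p (EP α β M)),
      (((f : tsb p (EP α β M) → tsb p (EP α β M))^[j] T : tsb p (EP α β M)) : EP α β M) =
        t ^ j • (T : EP α β M) := by
    intro j
    induction j with
    | zero => intro T; rw [pow_zero, one_smul]; rfl
    | succ j ih =>
      intro T
      rw [Function.iterate_succ_apply, ih, pow_succ, mul_smul]
      rfl
  have h1 := fix_pow hp (V := tsb p (EP α β M)) (fun T => Subtype.ext T.2) f
    (fun T hT => Subtype.ext (ht T T.2 (congrArg Subtype.val hT))) k ⟨T, hT⟩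
    (Subtype.ext ((hf _ _).trans h))
  exact congrArg Subtype.val h1

/-- **The automorphism.** -/
theorem Sg.pow (hp : p.Prime) (hp2 : 2 < p) {w : HeightOneSpectrum (𝓞 M)} {t : M ≃ₐ[K] M}
    (ht : Frb w t) (hA : ∀ j, Adp (a j) (b j) p (lo (K := K) w))
    (hpw : (p : 𝓞 K) ∉ (lo (K := K) w).asIdeal)
    (hN : Ideal.absNorm (lo (K := K) w).asIdeal % p = 1) {ζ : 𝓞 M}
    (hζ : IsPrimitiveRoot ζ (p ^ N)) : Sg a b p (p ^ N) Q (t ^ p ^ (N + N)) := by
  have hn : NeZero (p ^ N) := ⟨pow_ne_zero _ hp.ne_zero⟩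
  have hnw : ((p ^ N : ℕ) : 𝓞 K) ∉ (lo (K := K) w).asIdeal := by
    rw [Nat.cast_pow]
    exact fun h => hpw ((lo (K := K) w).isPrime.mem_of_pow_mem _ h)
  set c := Ideal.absNorm (lo (K := K) w).asIdeal with hc
  have h1 : ∀ (η : 𝓞 M), η ^ p ^ N = 1 → ∀ k : ℕ, t ^ k • η = η ^ c ^ k := by
    intro η hη k
    induction k with
    | zero => rw [pow_zero, one_smul, pow_zero, pow_one]
    | succ k ih => rw [pow_succ', mul_smul, ih, smul_pw, frb_root hζ hnw ht hη, ← pow_mul, pow_succ']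
  have h2 : ((p ^ N : ℕ) : ℤ) ∣ (c : ℤ) ^ p ^ N - 1 := by
    have h3 : (p : ℤ) ∣ (c : ℤ) - 1 := by
      have h4 := Nat.div_add_mod c p
      rw [hN] at h4
      refine ⟨((c / p : ℕ) : ℤ), ?_⟩
      have h5 : (c : ℤ) = p * ((c / p : ℕ) : ℤ) + 1 := by exact_mod_cast h4.symm
      linarith
    have h4 := dvd_sub_pow_of_dvd_sub h3 N
    rw [one_pow] at h4
    refine dvd_trans ?_ h4
    push_cast
    exact pow_dvd_pow _ (Nat.le_succ N)
  have h3 : ∀ η : 𝓞 M, η ^ p ^ N = 1 → t ^ p ^ N • η = η := by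
    intro η hη
    rw [h1 η hη]
    have h4 : (((c ^ p ^ N : ℕ) : ℤ) : ZMod (p ^ N)) = ((1 : ℤ) : ZMod (p ^ N)) := by
      rw [ZMod.intCast_eq_intCast_iff_dvd_sub, ← dvd_neg, neg_sub]
      push_cast at h2 ⊢
      exact h2
    rw [Int.cast_natCast, Int.cast_one, ← Nat.cast_one, ZMod.natCast_eq_natCast_iff] at h4
    have h5 := pow_eq_pow_of_modEq h4 hη
    rw [h5, pow_one]
  have hpp : t ^ p ^ (N + N) = (t ^ p ^ N) ^ p ^ N := by rw [← pow_mul, ← pow_add]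
  have hfix : ∀ η : 𝓞 M, t ^ p ^ N • η = η → ∀ k : ℕ, (t ^ p ^ N) ^ k • η = η := by
    intro η hη k
    induction k with
    | zero => rw [pow_zero, one_smul]
    | succ k ih => rw [pow_succ, mul_smul, hη, ih]
  refine ⟨fun η hη => ?_, fun q hq r hr => ?_, fun j T hT h4 => ?_⟩
  · rw [hpp]
    exact hfix η (h3 η hη) _
  · rw [hpp]
    have h4 : (t ^ p ^ N • r) ^ p ^ N - r ^ p ^ N = 0 := by
      rw [← smul_pw, hr, smul_nat, sub_self]
    rw [IsPrimitiveRoot.pow_sub_pow_eq_prod_sub_mul _ _ (Nat.pos_of_ne_zero hn.1) hζ,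
      Finset.prod_eq_zero_iff] at h4
    obtain ⟨η, hη, h5⟩ := h4
    rw [Polynomial.mem_nthRootsFinset (Nat.pos_of_ne_zero hn.1)] at hη
    rw [sub_eq_zero] at h5
    have h6 : ∀ k : ℕ, (t ^ p ^ N) ^ k • r = η ^ k * r := by
      intro k
      induction k with
      | zero => rw [pow_zero, one_smul, pow_zero, one_mul]
      | succ k ih =>
        rw [pow_succ', mul_smul, ih, smul_mul', smul_pw, h3 η hη, h5, pow_succ]
        ring
    rw [h6, hη, one_mul]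
  · refine fix_pt hp (fun T hT h5 => ?_) _ T hT h4
    by_contra hT0
    refine (hA j).2 (frb_tors ⟨adp_good (hA j), hpw⟩ hp hp2 ht hT h5 hT0)

lemma cnt_rem {X Y B : Set (HeightOneSpectrum (𝓞 K))} (hB : B.Finite)
    (h : ∀ v ∈ Y, v ∉ B → v ∈ X) {δ : ℝ} (hδ : 0 < δ)
    (hY : ∀ᶠ N : ℕ in atTop, δ * Nat.primeCounting N ≤ cnt Y N) :
    ∀ᶠ N : ℕ in atTop, δ / 2 * Nat.primeCounting N ≤ cnt X N := by
  have h3 : ∀ᶠ N : ℕ in atTop, (B.ncard : ℝ) ≤ δ / 2 * Nat.primeCounting N := by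
    have h4 : Tendsto (fun N : ℕ => δ / 2 * (Nat.primeCounting N : ℝ)) atTop atTop :=
      Tendsto.const_mul_atTop (by positivity)
        (tendsto_natCast_atTop_atTop.comp Nat.tendsto_primeCounting)
    exact h4.eventually_ge_atTop _
  filter_upwards [hY, h3] with N hN hN3
  have h5 : (cnt Y N : ℝ) ≤ cnt X N + B.ncard := by exact_mod_cast cnt_sub hB h N
  linarith

/-- **Places with given properties.** -/
theorem dens_pow [Finite J] (hΔ : ∀ j, 4 * a j ^ 3 + 27 * b j ^ 2 ≠ 0) (hp : p.Prime)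
    (hp2 : 2 < p) {v₀ : HeightOneSpectrum (𝓞 K)} (h₀ : Ideal.absNorm v₀.asIdeal % p = 1)
    (hA : ∀ j, Adp (a j) (b j) p v₀) (hpv : (p : 𝓞 K) ∉ v₀.asIdeal) (N : ℕ) (Q : Finset ℕ) :
    ∃ d : ℝ, 0 < d ∧ ∀ᶠ X : ℕ in atTop, d * Nat.primeCounting X ≤
      cnt {v : HeightOneSpectrum (𝓞 K) | (∀ j, Adp (a j) (b j) p v) ∧
        ∀ l : ℕ, l.Prime → Ideal.absNorm v.asIdeal = l →
          (l : ZMod (p ^ N)) = 1 ∧ ∀ q ∈ Q, ∃ x : ZMod l, x ^ p ^ N = q} X := by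
  classical
  have hn : NeZero (p ^ N) := ⟨pow_ne_zero _ hp.ne_zero⟩
  have hΔ' : ∀ j, 4 * (a j : K) ^ 3 + 27 * (b j : K) ^ 2 ≠ 0 := by
    intro j
    have h1 : algebraMap (𝓞 K) K (4 * a j ^ 3 + 27 * b j ^ 2) ≠ 0 := by
      rw [Ne, FaithfulSMul.algebraMap_eq_zero_iff]
      exact hΔ j
    intro h2
    apply h1
    rw [map_add, map_mul, map_mul, map_pow, map_pow, map_ofNat, map_ofNat]
    exact h2
  obtain ⟨M, _, _, _, _, hG, hcard, ⟨ζ, hζ⟩, hroots⟩ := exists_big hΔ' hp.one_lt.le hn.1 Q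
  obtain ⟨⟨w₀, hw₀⟩⟩ := exists_ab (F := M) v₀
  obtain ⟨t, ht⟩ := exists_frb (K := K) w₀
  have hS : Sg a b p (p ^ N) Q (t ^ p ^ (N + N)) :=
    Sg.pow hp hp2 ht (fun j => by rw [hw₀]; exact hA j) (by rw [hw₀]; exact hpv)
      (by rw [hw₀]; exact h₀) hζ
  obtain ⟨δ, hδ, hch⟩ := cheb_fin {s : M ≃ₐ[K] M | Sg a b p (p ^ N) Q s}
    (fun s hs t => Sg.conj hs t) ⟨_, hS⟩
  set B : Set (HeightOneSpectrum (𝓞 K)) := (⋃ j, {v : HeightOneSpectrum (𝓞 K) |
    2 * (p : 𝓞 K) * (4 * a j ^ 3 + 27 * b j ^ 2) ∈ v.asIdeal}) ∪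
      {v : HeightOneSpectrum (𝓞 K) | (p : 𝓞 K) ∈ v.asIdeal} with hB
  have hp0 : (p : 𝓞 K) ≠ 0 := by exact_mod_cast hp.ne_zero
  have hBf : B.Finite := (Set.finite_iUnion fun j => bad_finite (mul_ne_zero
    (mul_ne_zero two_ne_zero hp0) (hΔ j))).union (bad_finite hp0)
  refine ⟨δ / 2, half_pos hδ, cnt_rem hBf ?_ hδ hch⟩
  rintro v ⟨w, hw, s, hs, hF⟩ hvB
  have hvp : (p : 𝓞 K) ∉ (lo (K := K) w).asIdeal := fun h => hvB (Or.inr (by rw [← hw]; exact h))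
  have hnw : ((p ^ N : ℕ) : 𝓞 K) ∉ (lo (K := K) w).asIdeal := by
    rw [Nat.cast_pow]
    exact fun h => hvp ((lo (K := K) w).isPrime.mem_of_pow_mem _ h)
  refine ⟨fun j => ?_, fun l hl hvl => ?_⟩
  · have hg : 2 * (p : 𝓞 K) * (4 * a j ^ 3 + 27 * b j ^ 2) ∉ v.asIdeal :=
      fun h => hvB (Or.inl (Set.mem_iUnion.2 ⟨j, h⟩))
    refine ⟨hg, ?_⟩
    rw [← hw]
    refine adp_frb ⟨fun h => hg ?_, hvp⟩ hp hp2 hF (hcard j) (hs.tors j)
    rw [hw] at h
    have e : 2 * (p : 𝓞 K) * (4 * a j ^ 3 + 27 * b j ^ 2) =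
        (p : 𝓞 K) * (2 * (4 * a j ^ 3 + 27 * b j ^ 2)) := by ring
    rw [e]
    exact v.asIdeal.mul_mem_left _ h
  · have hfl : Fact l.Prime := ⟨hl⟩
    have hwl : Ideal.absNorm (lo (K := K) w).asIdeal = l := by rw [hw]; exact hvl
    constructor
    · have h1 := hF ζ
      rw [hs.unity ζ hζ.pow_eq_one, hwl] at h1
      have h2 : ζ ^ 1 - ζ ^ l ∈ w.asIdeal := by rwa [pow_one]
      have h3 := pow_mod hζ hnw h2
      rw [← h3, Nat.cast_one]
    · intro q hq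
      obtain ⟨r, hr⟩ := hroots q hq
      exact root_of_frb hwl hF (hs.root q hq r hr) hr

end dens

end Pool.Agent.T9h30.PG
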