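import Mathlib

/-!
# Cocycles at a place where the Frobenius automorphism has no fixed vectors
-/

set_option autoImplicit false
set_option linter.unusedSectionVars false

namespace Pool.Agent.T9h30.PG

/-- `f ^ (p ^ k)` has no fixed vectors if `f` has none -/
lemma fix_pow' {p : ℕ} [Fact p.Prime] {V : Type} [AddCommGroup V] [Module (ZMod p) V]
    (g : Module.End (ZMod p) V) (hf : ∀ T, g T = T → T = 0) (k : ℕ) (T : V)
    (hT : (g ^ p ^ k) T = T) : T = 0 := by
  have h1 : (g - 1) ^ p ^ k = g ^ p ^ k - 1 := by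
    have h2 : ((Polynomial.X - 1 : Polynomial (ZMod p))) ^ p ^ k = Polynomial.X ^ p ^ k - 1 := by
      rw [sub_pow_char_pow, one_pow]
    have h3 := congrArg (Polynomial.aeval g) h2
    simpa only [map_pow, map_sub, Polynomial.aeval_X, map_one] using h3
  have h2 : ((g - 1) ^ p ^ k) T = 0 := by
    rw [h1, LinearMap.sub_apply, hT, Module.End.one_apply, sub_self]
  have hinj : ∀ (n : ℕ) (T : V), ((g - 1) ^ n) T = 0 → T = 0 := by
    intro n
    induction n with
    | zero => intro T h; simpa using h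
    | succ n ih =>
      intro T h
      rw [pow_succ] at h
      have h4 := ih ((g - 1) T) h
      refine hf T ?_
      rw [← sub_eq_zero]
      exact h4
  exact hinj _ T h2

lemma fix_pow {V : Type} [AddCommGroup V] {p : ℕ} (hp : p.Prime) (hV : ∀ T : V, p • T = 0)
    (f : V →+ V) (hf : ∀ T, f T = T → T = 0) (k : ℕ) (T : V) (hT : (f : V → V)^[p ^ k] T = T) :
    T = 0 := by
  have hfp : Fact p.Prime := ⟨hp⟩
  let _ : Module (ZMod p) V := AddCommGroup.zmodModule hV
  refine fix_pow' (f.toZModLinearMap p : Module.End (ZMod p) V) hf k T ?_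
  rw [Module.End.pow_apply]
  exact hT

variable {Γ A : Type} [Group Γ] [AddCommGroup A] [DistribMulAction Γ A] {N : Subgroup Γ}
  {p k : ℕ}

/-- **A cocycle which is unramified over the extension is unramified.** -/
theorem unr_of_frob (hp : p.Prime) [N.Normal] (hk : N.index = p ^ k)
    (hfin : {T : A | p • T = 0}.Finite) {D I : Subgroup Γ} (hID : I ≤ D) {φ : Γ} (hφ : φ ∈ D)
    (hI : ∀ i ∈ I, ∀ T : A, p • T = 0 → i • T = T)
    (hcomm : ∀ g ∈ D, ∀ n : ℕ, g⁻¹ * (φ ^ n)⁻¹ * g * φ ^ n ∈ I)
    (hfix : ∀ T : A, p • T = 0 → φ • T = T → T = 0)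
    {b : Γ → A} (hb : ∀ g g' : Γ, b (g * g') = b g + g • b g') (hbt : ∀ g, p • b g = 0)
    (hbN : ∀ x ∈ N, x ∈ I → b x = 0) {x : Γ} (hx : x ∈ I) : b x = 0 := by
  classical
  set ψ : Γ := φ ^ p ^ k with hψ
  have hψN : ψ ∈ N := by rw [hψ, ← hk]; exact N.pow_index_mem φ
  have hψD : ψ ∈ D := D.pow_mem hφ _
  -- no fixed vectors
  let V : AddSubgroup A :=
    { carrier := {T | p • T = 0}
      add_mem' := fun {a b} ha hb => by
        show p • (a + b) = 0
        rw [smul_add, show p • a = 0 from ha, show p • b = 0 from hb, add_zero]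
      zero_mem' := smul_zero _
      neg_mem' := fun {a} ha => by
        show p • (-a) = 0
        rw [smul_neg, show p • a = 0 from ha, neg_zero] }
  have hVf : Finite V := hfin.to_subtype
  have hst : ∀ (g : Γ) (T : V), p • (g • (T : A)) = 0 := by
    intro g T
    rw [smul_comm, show p • (T : A) = 0 from T.2, smul_zero]
  let f : V →+ V :=
    { toFun := fun T => ⟨φ • (T : A), hst φ T⟩
      map_zero' := Subtype.ext (smul_zero φ)
      map_add' := fun T U => Subtype.ext (smul_add φ _ _) }
  have hfk : ∀ (n : ℕ) (T : V), (((f : V → V)^[n] T : V) : A) = φ ^ n • (T : A) := by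
    intro n
    induction n with
    | zero => intro T; rw [pow_zero, one_smul]; rfl
    | succ n ih =>
      intro T
      rw [Function.iterate_succ_apply', pow_succ', mul_smul, ← ih]
      rfl
  have hψfix : ∀ T : A, p • T = 0 → ψ • T = T → T = 0 := by
    intro T hT h1
    have h2 := fix_pow hp (fun T : V => Subtype.ext T.2) f (fun U hU => by
      apply Subtype.ext
      exact hfix U U.2 (congrArg Subtype.val hU)) k ⟨T, hT⟩ (by
        apply Subtype.ext
        rw [hfk]
        exact h1)
    exact congrArg Subtype.val h2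
  -- the element
  obtain ⟨T, hT, hT2⟩ : ∃ T : A, p • T = 0 ∧ b ψ = ψ • T - T := by
    let d : V →+ V :=
      { toFun := fun T => ⟨ψ • (T : A) - T, by
          show p • (ψ • (T : A) - T) = 0
          rw [smul_sub, hst, show p • (T : A) = 0 from T.2, sub_zero]⟩
        map_zero' := Subtype.ext (by
          show ψ • (0 : A) - 0 = 0
          rw [smul_zero, sub_zero])
        map_add' := fun T U => Subtype.ext (by
          show ψ • ((T : A) + U) - (T + U) = (ψ • (T : A) - T) + (ψ • (U : A) - U)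
          rw [smul_add]
          abel) }
    have hdi : Function.Injective d := by
      rw [injective_iff_map_eq_zero]
      intro U hU
      apply Subtype.ext
      refine hψfix U U.2 ?_
      rw [← sub_eq_zero]
      exact congrArg Subtype.val hU
    obtain ⟨U, hU⟩ := (Finite.surjective_of_injective hdi) ⟨b ψ, hbt ψ⟩
    exact ⟨U, U.2, (congrArg Subtype.val hU).symm⟩
  set b' : Γ → A := fun g => b g - (g • T - T) with hb'
  have hb'c : ∀ g g' : Γ, b' (g * g') = b' g + g • b' g' := by
    intro g g'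
    simp only [hb']
    rw [hb, mul_smul, smul_sub, smul_sub]
    abel
  have hb't : ∀ g, p • b' g = 0 := by
    intro g
    simp only [hb']
    rw [smul_sub, smul_sub, hbt, smul_comm, hT, smul_zero, sub_zero, sub_zero]
  have hb'ψ : b' ψ = 0 := by
    simp only [hb']
    rw [hT2, sub_self]
  have hb'I : ∀ i ∈ N, i ∈ I → b' i = 0 := by
    intro i hi hi'
    simp only [hb']
    rw [hbN i hi hi', hI i hi' T hT, sub_self, sub_zero]
  have h1 : ∀ g ∈ D, g ∈ N → b' g = 0 := by
    intro g hg hgN
    refine hψfix _ (hb't g) ?_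
    have hi := hcomm g hg (p ^ k)
    rw [← hψ] at hi
    have hiN : g⁻¹ * ψ⁻¹ * g * ψ ∈ N :=
      N.mul_mem (N.mul_mem (N.mul_mem (N.inv_mem hgN) (N.inv_mem hψN)) hgN) hψN
    have e : g * ψ = ψ * (g * (g⁻¹ * ψ⁻¹ * g * ψ)) := by group
    have h2 := hb'c g ψ
    rw [hb'ψ, smul_zero, add_zero, e, hb'c, hb'ψ, zero_add, hb'c, hb'I _ hiN hi, smul_zero,
      add_zero] at h2
    exact h2
  have h2 : ∀ g ∈ D, b' g = 0 := by
    intro g hg
    refine hψfix _ (hb't g) ?_
    have hxN : g⁻¹ * ψ * g ∈ N := by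
      have := (inferInstance : N.Normal).conj_mem ψ hψN g⁻¹
      rwa [inv_inv] at this
    have hxD : g⁻¹ * ψ * g ∈ D := D.mul_mem (D.mul_mem (D.inv_mem hg) hψD) hg
    have e : ψ * g = g * (g⁻¹ * ψ * g) := by group
    have h3 := hb'c ψ g
    rw [hb'ψ, zero_add, e, hb'c, h1 _ hxD hxN, smul_zero, add_zero] at h3
    exact h3.symm
  have h3 := h2 x (hID hx)
  simp only [hb'] at h3
  rw [hI x hx T hT, sub_self, sub_zero] at h3
  exact h3

end Pool.Agent.T9h30.PG
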