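import Mathlib

/-!
# Fixed classes of cocycles for extensions of `p`-power degree
-/

set_option autoImplicit false
set_option linter.unusedSectionVars false

namespace Pool.Agent.T9h30.PG

variable {Γ A : Type} [Group Γ] [AddCommGroup A] [DistribMulAction Γ A] {N : Subgroup Γ}

/-- the conjugate of an element of a normal subgroup -/
def cnj [N.Normal] (g : Γ) (h : N) : N := ⟨g⁻¹ * h * g, by
  have := (inferInstance : N.Normal).conj_mem h h.2 g⁻¹
  rwa [inv_inv] at this⟩

/-- the conjugate of a function -/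
def cj [N.Normal] (g : Γ) : (N → A) →+ (N → A) where
  toFun c := fun h => g • c (cnj g h)
  map_zero' := by
    funext h
    exact smul_zero g
  map_add' c d := by
    funext h
    exact smul_add g _ _

lemma cj_apply [N.Normal] (g : Γ) (c : N → A) (h : N) : cj g c h = g • c (cnj g h) := rfl

lemma cj_one [N.Normal] (c : N → A) : cj (1 : Γ) c = c := by
  funext h
  rw [cj_apply, one_smul]
  congr 1
  apply Subtype.ext
  show (1 : Γ)⁻¹ * h * 1 = h
  rw [inv_one, one_mul, mul_one]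

lemma cj_mul [N.Normal] (g g' : Γ) (c : N → A) : cj (g * g') c = cj g (cj g' c) := by
  funext h
  rw [cj_apply, cj_apply, cj_apply, mul_smul]
  congr 3
  apply Subtype.ext
  show (g * g')⁻¹ * h * (g * g') = g'⁻¹ * (g⁻¹ * h * g) * g'
  group

/-- the coboundary of an element -/
def cb (N : Subgroup Γ) (T : A) : N → A := fun h => (h : Γ) • T - T

/-- the group of the coboundaries of the elements killed by `p` -/
def Bd (A : Type) [AddCommGroup A] [DistribMulAction Γ A] (N : Subgroup Γ) (p : ℕ) :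
    AddSubgroup (N → A) where
  carrier := {c | ∃ T : A, p • T = 0 ∧ c = cb N T}
  add_mem' := by
    rintro _ _ ⟨T, hT, rfl⟩ ⟨U, hU, rfl⟩
    refine ⟨T + U, by rw [smul_add, hT, hU, add_zero], ?_⟩
    funext h
    show (h : Γ) • T - T + ((h : Γ) • U - U) = (h : Γ) • (T + U) - (T + U)
    rw [smul_add]
    abel
  zero_mem' := by
    refine ⟨0, smul_zero _, ?_⟩
    funext h
    show (0 : A) = (h : Γ) • (0 : A) - 0
    rw [smul_zero, sub_zero]
  neg_mem' := by
    rintro _ ⟨T, hT, rfl⟩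
    refine ⟨-T, by rw [smul_neg, hT, neg_zero], ?_⟩
    funext h
    show -((h : Γ) • T - T) = (h : Γ) • (-T) - (-T)
    rw [smul_neg]
    abel

lemma mem_Bd {p : ℕ} {c : N → A} : c ∈ Bd A N p ↔ ∃ T : A, p • T = 0 ∧ c = cb N T := Iff.rfl

lemma cj_cb [N.Normal] (g : Γ) (T : A) : cj g (cb N T) = cb N (g • T) := by
  funext h
  rw [cj_apply]
  show g • ((g⁻¹ * (h : Γ) * g) • T - T) = (h : Γ) • g • T - g • T
  rw [smul_sub, smul_smul, smul_smul]
  congr 2
  group

/-- the conditions -/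
structure Cnd (Z : AddSubgroup (N → A)) (p : ℕ) [N.Normal] : Prop where
  coc : ∀ c ∈ Z, ∀ g h : N, c (g * h) = c g + (g : Γ) • c h
  tor : ∀ c ∈ Z, ∀ h, p • c h = 0
  cob : ∀ T : A, p • T = 0 → cb N T ∈ Z
  cnj : ∀ (g : Γ), ∀ c ∈ Z, cj g c ∈ Z
  fix : ∀ T : A, p • T = 0 → (∀ h : N, (h : Γ) • T = T) → T = 0
  fin : {T : A | p • T = 0}.Finite

section main
variable [N.Normal] {Z : AddSubgroup (N → A)} {p : ℕ}

lemma Cnd.le (h : Cnd Z p) : Bd A N p ≤ Z := by
  rintro _ ⟨T, hT, rfl⟩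
  exact h.cob T hT

lemma coc_inv {c : N → A} (hc : ∀ g h : N, c (g * h) = c g + (g : Γ) • c h) (n h : N) :
    cj (n : Γ) c h - c h = cb N (c n) h := by
  rw [cj_apply]
  have h1 := hc n (cnj (n : Γ) h)
  have h2 : n * cnj (n : Γ) h = h * n := by
    apply Subtype.ext
    show (n : Γ) * ((n : Γ)⁻¹ * h * n) = h * n
    group
  rw [h2, hc h n] at h1
  show _ = (h : Γ) • c n - c n
  rw [sub_eq_iff_eq_add, ← sub_eq_iff_eq_add'.2 h1]
  abel

/-- restriction of the conjugation to the group -/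
def cjZ (h : Cnd Z p) (g : Γ) : Z →+ Z where
  toFun c := ⟨cj g c, h.cnj g c c.2⟩
  map_zero' := Subtype.ext (map_zero _)
  map_add' _ _ := Subtype.ext (map_add _ _ _)

/-- the classes -/
abbrev Cl (Z : AddSubgroup (N → A)) (p : ℕ) : Type := Z ⧸ (Bd A N p).addSubgroupOf Z

/-- the map on the classes -/
def cjQ (h : Cnd Z p) (g : Γ) : Cl Z p →+ Cl Z p :=
  QuotientAddGroup.map _ _ (cjZ h g) (by
    intro c hc
    rw [AddSubgroup.mem_comap, AddSubgroup.mem_addSubgroupOf]
    rw [AddSubgroup.mem_addSubgroupOf] at hc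
    obtain ⟨T, hT, hcT⟩ := hc
    refine ⟨g • T, by rw [smul_comm, hT, smul_zero], ?_⟩
    show cj g (c : N → A) = _
    rw [hcT, cj_cb])

lemma cjQ_mk (h : Cnd Z p) (g : Γ) (c : Z) :
    cjQ h g (QuotientAddGroup.mk c) = QuotientAddGroup.mk (cjZ h g c) := rfl

/-- the action on the classes -/
@[reducible]
def actQ (h : Cnd Z p) : MulAction Γ (Cl Z p) where
  smul g x := cjQ h g x
  one_smul x := by
    obtain ⟨c, rfl⟩ := QuotientAddGroup.mk_surjective x
    show cjQ h 1 _ = _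
    rw [cjQ_mk]
    congr 1
    exact Subtype.ext (cj_one _)
  mul_smul g g' x := by
    obtain ⟨c, rfl⟩ := QuotientAddGroup.mk_surjective x
    show cjQ h (g * g') _ = cjQ h g (cjQ h g' _)
    rw [cjQ_mk, cjQ_mk, cjQ_mk]
    congr 1
    exact Subtype.ext (cj_mul _ _ _)

lemma eq_iff (h : Cnd Z p) (g : Γ) (c : Z) :
    cjQ h g (QuotientAddGroup.mk c) = QuotientAddGroup.mk c ↔
      cj g (c : N → A) - c ∈ Bd A N p := by
  rw [cjQ_mk, eq_comm, QuotientAddGroup.eq, AddSubgroup.mem_addSubgroupOf]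
  show -(c : N → A) + cj g (c : N → A) ∈ _ ↔ _
  rw [neg_add_eq_sub]

/-- **A nonzero group of classes has a nonzero fixed class.** -/
theorem exists_fixed [Finite Γ] (hp : p.Prime) {k : ℕ} (hk : N.index = p ^ k) (h : Cnd Z p)
    (hne : ¬ Z ≤ Bd A N p) : ∃ c ∈ Z, c ∉ Bd A N p ∧ ∀ g : Γ, cj g c - c ∈ Bd A N p := by
  classical
  have hfp : Fact p.Prime := ⟨hp⟩
  let _ := actQ h
  -- finiteness
  have hZf : Finite Z := by
    have hV := h.fin
    have hVf : Finite {T : A | p • T = 0} := hV.to_subtype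
    have : Function.Injective fun (c : Z) (x : N) =>
        (⟨(c : N → A) x, h.tor c c.2 x⟩ : {T : A | p • T = 0}) := by
      intro c d hcd
      apply Subtype.ext
      funext x
      exact congrArg Subtype.val (congrFun hcd x)
    exact Finite.of_injective _ this
  have hXf : Finite (Cl Z p) := Quotient.finite _
  -- the action of the quotient
  have htriv : ∀ n ∈ N, MulAction.toPermHom Γ (Cl Z p) n = 1 := by
    intro n hn
    ext x
    obtain ⟨c, rfl⟩ := QuotientAddGroup.mk_surjective x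
    show cjQ h n (QuotientAddGroup.mk c) = QuotientAddGroup.mk c
    rw [eq_iff]
    refine ⟨(c : N → A) ⟨n, hn⟩, h.tor c c.2 _, ?_⟩
    funext x
    exact coc_inv (h.coc c c.2) ⟨n, hn⟩ x
  let ρ : Γ ⧸ N →* Equiv.Perm (Cl Z p) :=
    QuotientGroup.lift N (MulAction.toPermHom Γ (Cl Z p)) htriv
  let _ : MulAction (Γ ⧸ N) (Cl Z p) := MulAction.compHom _ ρ
  have hG : IsPGroup p (Γ ⧸ N) := IsPGroup.of_card (n := k) (by rw [← hk]; rfl)
  have hcard : p ∣ Nat.card (Cl Z p) := by
    obtain ⟨c, hc, hcB⟩ := SetLike.not_le_iff_exists.1 hne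
    have hx0 : (QuotientAddGroup.mk ⟨c, hc⟩ : Cl Z p) ≠ 0 := by
      rw [Ne, QuotientAddGroup.eq_zero_iff, AddSubgroup.mem_addSubgroupOf]
      exact hcB
    have hpx : p • (QuotientAddGroup.mk ⟨c, hc⟩ : Cl Z p) = 0 := by
      rw [← QuotientAddGroup.mk_nsmul]
      have : p • (⟨c, hc⟩ : Z) = 0 := by
        apply Subtype.ext
        funext x
        exact h.tor c hc x
      rw [this]
      rfl
    have h1 := addOrderOf_eq_prime hpx hx0
    have h2 := addOrderOf_dvd_natCard (QuotientAddGroup.mk ⟨c, hc⟩ : Cl Z p)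
    rwa [h1] at h2
  have hfix0 : (0 : Cl Z p) ∈ MulAction.fixedPoints (Γ ⧸ N) (Cl Z p) := by
    intro g
    obtain ⟨g, rfl⟩ := QuotientGroup.mk_surjective g
    exact (cjQ h g).map_zero
  obtain ⟨x, hx, hx0⟩ := hG.exists_fixed_point_of_prime_dvd_card_of_fixed_point (Cl Z p) hcard hfix0
  obtain ⟨c, rfl⟩ := QuotientAddGroup.mk_surjective x
  refine ⟨c, c.2, fun hcB => hx0 ?_, fun g => ?_⟩
  · rw [eq_comm, QuotientAddGroup.eq_zero_iff, AddSubgroup.mem_addSubgroupOf]
    exact hcB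
  · exact (eq_iff h g c).1 (hx (QuotientGroup.mk g))

/-- **Extension of a fixed class.** -/
theorem exists_ext (h : Cnd Z p) {c : N → A} (hc : c ∈ Z)
    (hfix : ∀ g : Γ, cj g c - c ∈ Bd A N p) :
    ∃ b : Γ → A, (∀ g g' : Γ, b (g * g') = b g + g • b g') ∧ (∀ g, p • b g = 0) ∧
      ∀ x : N, b x = c x := by
  choose b hb1 hb2 using hfix
  have hb2' : ∀ (g : Γ) (x : N), cj g c x = c x + ((x : Γ) • b g - b g) := fun g x => by
    have := congrFun (hb2 g) x
    rw [Pi.sub_apply, sub_eq_iff_eq_add'] at this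
    exact this
  have huniq : ∀ T U : A, p • T = 0 → p • U = 0 →
      (∀ x : N, (x : Γ) • T - T = (x : Γ) • U - U) → T = U := by
    intro T U hT hU hTU
    rw [← sub_eq_zero]
    refine h.fix _ (by rw [smul_sub, hT, hU, sub_zero]) fun x => ?_
    rw [smul_sub]
    have := hTU x
    rw [sub_eq_sub_iff_add_eq_add] at this ⊢
    rw [this]
    abel
  refine ⟨b, fun g g' => ?_, hb1, fun x => ?_⟩
  · refine huniq _ _ (hb1 _) ?_ fun x => ?_
    · rw [smul_add, hb1, zero_add, smul_comm, hb1, smul_zero]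
    · have h1 := hb2' (g * g') x
      rw [cj_mul, cj_apply, hb2' g' (cnj g x), smul_add, ← cj_apply, hb2' g x, smul_sub] at h1
      have h3 : g • (((cnj g x : N) : Γ) • b g') = (x : Γ) • (g • b g') := by
        show g • ((g⁻¹ * (x : Γ) * g) • b g') = _
        rw [smul_smul, smul_smul]
        congr 1
        group
      rw [h3] at h1
      rw [smul_add]
      have h4 := add_left_cancel (a := c x) (b := (x : Γ) • b g - b g + ((x : Γ) • g • b g' - g • b g'))
        (c := (x : Γ) • b (g * g') - b (g * g')) (by rw [← h1]; abel)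
      rw [← h4]
      abel
  · refine huniq _ _ (hb1 _) (h.tor c hc x) fun y => ?_
    have h1 := hb2' (x : Γ) y
    have h2 := coc_inv (h.coc c hc) x y
    rw [h1] at h2
    have h3 : cb N (c x) y = (y : Γ) • c x - c x := rfl
    rw [h3] at h2
    rw [← h2]
    abel

/-- **Descent to the full group.** -/
theorem all_cob [Finite Γ] (hp : p.Prime) {k : ℕ} (hk : N.index = p ^ k) (h : Cnd Z p)
    (hK : ∀ b : Γ → A, (∀ g g' : Γ, b (g * g') = b g + g • b g') → (∀ g, p • b g = 0) →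
      (fun x : N => b x) ∈ Z → ∃ T : A, p • T = 0 ∧ ∀ g, b g = g • T - T)
    {c : N → A} (hc : c ∈ Z) : ∃ T : A, p • T = 0 ∧ ∀ x : N, c x = (x : Γ) • T - T := by
  by_contra hcon
  have hne : ¬ Z ≤ Bd A N p := by
    intro hle
    obtain ⟨T, hT, h1⟩ := hle hc
    exact hcon ⟨T, hT, fun x => congrFun h1 x⟩
  obtain ⟨c', hc', hcB, hfix⟩ := exists_fixed hp hk h hne
  obtain ⟨b, hb1, hb2, hb3⟩ := exists_ext h hc' hfix
  have hbc : (fun x : N => b x) = c' := funext hb3
  obtain ⟨T, hT, h1⟩ := hK b hb1 hb2 (by rw [hbc]; exact hc')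
  apply hcB
  refine ⟨T, hT, ?_⟩
  rw [← hbc]
  funext x
  exact h1 x

end main

end Pool.Agent.T9h30.PG
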