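import Pool.Agent.T9h30.PG.Fld
import Pool.Agent.T9h30.PG.Grp
import Pool.Agent.T9h30.PG.Fro

/-!
# Selmer conditions for cocycles
-/

set_option autoImplicit false
set_option linter.unusedSectionVars false

namespace Pool.Agent.T9h30.PG

open NumberField IsDedekindDomain WeierstrassCurve
open Pool.Agent.T9h30.BT

lemma split_fix {K F L Ω : Type} [Field K] [Field F] [Field L] [Field Ω] [Algebra K F]
    [Algebra K L] [Algebra L Ω] [Algebra K Ω] [IsScalarTower K L Ω] [Normal K F]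
    (e : F →ₐ[K] L) (j : F →ₐ[K] Ω) (x : F) : ∃ y : L, j x = algebraMap L Ω y := by
  let e' : F →ₐ[K] Ω := (IsScalarTower.toAlgHom K L Ω).comp e
  let _ : Algebra F Ω := e'.toRingHom.toAlgebra
  have ht : IsScalarTower K F Ω := IsScalarTower.of_algebraMap_eq fun z => by
    show algebraMap K Ω z = e' (algebraMap K F z)
    rw [e'.commutes]
  have h1 := (Normal.algHomEquivAut K Ω F).symm_apply_apply j
  refine ⟨e ((Normal.algHomEquivAut K Ω F) j x), ?_⟩
  conv_lhs => rw [← h1]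
  rfl

section defs

variable {K M : Type} [Field K] [NumberField K] [Field M] [NumberField M] [Algebra K M]
  [DecidableEq M]

attribute [local instance] actE

/-- the algebraic closure of the completion -/
abbrev Kb (v : HeightOneSpectrum (𝓞 K)) : Type := AlgebraicClosure (v.adicCompletion K)

open Classical in
/-- the local condition at a place -/
def Lc (a b : K) (v : HeightOneSpectrum (𝓞 K)) (N : Subgroup (M ≃ₐ[K] M)) (c : N → EP a b M) :
    Prop :=
  ∀ ι : M →ₐ[K] Kb v, ∃ P : EP a b (Kb v), ∀ (τ : Kb v ≃ₐ[v.adicCompletion K] Kb v) (s : N),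
    (∀ x, τ (ι x) = ι ((s : M ≃ₐ[K] M) x)) →
      mp ι (c s) = mp (τ.restrictScalars K : Kb v →ₐ[K] Kb v) P - P

/-- the Selmer conditions -/
structure Sc (a b : 𝓞 K) (p : ℕ) (N : Subgroup (M ≃ₐ[K] M)) (c : N → EP (a : K) (b : K) M) :
    Prop where
  coc : ∀ g h : N, c (g * h) = c g + (g : M ≃ₐ[K] M) • c h
  tor : ∀ h : N, p • c h = 0
  unr : ∀ w : HeightOneSpectrum (𝓞 M), Gp a b p w → ∀ h : N, (h : M ≃ₐ[K] M) ∈ In w → c h = 0
  loc : ∀ v : HeightOneSpectrum (𝓞 K), 2 * (p : 𝓞 K) * (4 * a ^ 3 + 27 * b ^ 2) ∈ v.asIdeal →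
    Lc (a : K) (b : K) v N c

variable {a b : 𝓞 K} {p : ℕ} {N : Subgroup (M ≃ₐ[K] M)}

/-- the group of the cocycles with the Selmer conditions -/
def ZS (a b : 𝓞 K) (p : ℕ) (N : Subgroup (M ≃ₐ[K] M)) :
    AddSubgroup (N → EP (a : K) (b : K) M) where
  carrier := {c | Sc a b p N c}
  add_mem' := by
    classical
    intro c d hc hd
    refine ⟨fun g h => ?_, fun h => ?_, fun w hw h hh => ?_, fun v hv ι => ?_⟩
    · show c (g * h) + d (g * h) = (c g + d g) + (g : M ≃ₐ[K] M) • (c h + d h)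
      rw [hc.coc, hd.coc, smul_add]
      abel
    · show p • (c h + d h) = 0
      rw [smul_add, hc.tor, hd.tor, add_zero]
    · show c h + d h = 0
      rw [hc.unr w hw h hh, hd.unr w hw h hh, add_zero]
    · obtain ⟨P, hP⟩ := hc.loc v hv ι
      obtain ⟨Q, hQ⟩ := hd.loc v hv ι
      refine ⟨P + Q, fun τ s hs => ?_⟩
      show mp ι (c s + d s) = _
      rw [map_add, hP τ s hs, hQ τ s hs, map_add]
      abel
  zero_mem' := by
    classical
    refine ⟨fun g h => ?_, fun h => smul_zero _, fun w hw h hh => rfl, fun v hv ι => ⟨0, ?_⟩⟩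
    · show (0 : EP (a : K) (b : K) M) = 0 + (g : M ≃ₐ[K] M) • (0 : EP (a : K) (b : K) M)
      rw [smul_zero, add_zero]
    · intro τ s hs
      show mp ι (0 : EP (a : K) (b : K) M) = _
      rw [map_zero, map_zero, sub_zero]
  neg_mem' := by
    classical
    intro c hc
    refine ⟨fun g h => ?_, fun h => ?_, fun w hw h hh => ?_, fun v hv ι => ?_⟩
    · show -c (g * h) = -c g + (g : M ≃ₐ[K] M) • (-c h)
      rw [hc.coc, smul_neg]
      abel
    · show p • (-c h) = 0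
      rw [smul_neg, hc.tor, neg_zero]
    · show -c h = 0
      rw [hc.unr w hw h hh, neg_zero]
    · obtain ⟨P, hP⟩ := hc.loc v hv ι
      refine ⟨-P, fun τ s hs => ?_⟩
      show mp ι (-c s) = _
      rw [map_neg, hP τ s hs, map_neg]
      abel

lemma mem_ZS {c : N → EP (a : K) (b : K) M} : c ∈ ZS a b p N ↔ Sc a b p N c := Iff.rfl

/-- the coboundary of a point some multiple of which is fixed -/
theorem kum_mem (hp : p.Prime) (hp2 : 2 < p) (Q : EP (a : K) (b : K) M)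
    (hQ : ∀ h : N, p • ((h : M ≃ₐ[K] M) • Q - Q) = 0) : cb N Q ∈ ZS a b p N := by
  classical
  refine ⟨fun g h => ?_, hQ, fun w hw h hh => ?_, fun v hv ι => ⟨mp ι Q, fun τ s hs => ?_⟩⟩
  · show ((g : M ≃ₐ[K] M) * (h : M ≃ₐ[K] M)) • Q - Q = ((g : M ≃ₐ[K] M) • Q - Q) +
      (g : M ≃ₐ[K] M) • ((h : M ≃ₐ[K] M) • Q - Q)
    rw [mul_smul, smul_sub]
    abel
  · show (h : M ≃ₐ[K] M) • Q - Q = 0
    rw [inert_tors hw hp hp2 hh Q (hQ h), sub_self]
  · show mp ι ((s : M ≃ₐ[K] M) • Q - Q) = _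
    rw [map_sub, mp_smul, mp_mp]
    congr 2
    congr 1
    ext x
    exact (hs x).symm

/-- the place `g⁻¹ w` -/
def gw (g : M ≃ₐ[K] M) (w : HeightOneSpectrum (𝓞 M)) : HeightOneSpectrum (𝓞 M) where
  asIdeal := w.asIdeal.comap (MulSemiringAction.toRingHom (M ≃ₐ[K] M) (𝓞 M) g)
  isPrime := w.isPrime.comap _
  ne_bot := by
    intro h
    obtain ⟨x, hx, hx0⟩ := Submodule.exists_mem_ne_zero_of_ne_bot w.ne_bot
    have h1 : g⁻¹ • x ∈ w.asIdeal.comap (MulSemiringAction.toRingHom (M ≃ₐ[K] M) (𝓞 M) g) := by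
      rw [Ideal.mem_comap]
      show g • g⁻¹ • x ∈ _
      rw [smul_inv_smul]
      exact hx
    rw [h, Ideal.mem_bot] at h1
    apply hx0
    have h2 := congrArg (fun z => g • z) h1
    simp only [smul_inv_smul, smul_zero] at h2
    exact h2

lemma mem_gw {g : M ≃ₐ[K] M} {w : HeightOneSpectrum (𝓞 M)} {x : 𝓞 M} :
    x ∈ (gw g w).asIdeal ↔ g • x ∈ w.asIdeal := Iff.rfl

lemma smul_alg (g : M ≃ₐ[K] M) (x : 𝓞 K) :
    g • (algebraMap (𝓞 K) (𝓞 M) x) = algebraMap (𝓞 K) (𝓞 M) x := by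
  apply RingOfIntegers.ext
  show g ((algebraMap (𝓞 K) (𝓞 M) x : 𝓞 M) : M) = _
  rw [← int_alg]
  exact g.commutes _

lemma lo_gw (g : M ≃ₐ[K] M) (w : HeightOneSpectrum (𝓞 M)) :
    lo (K := K) (gw g w) = lo (K := K) w := by
  apply HeightOneSpectrum.ext
  ext x
  rw [mem_lo, mem_lo, mem_gw, smul_alg]

lemma Gp.gw {w : HeightOneSpectrum (𝓞 M)} (h : Gp a b p w) (g : M ≃ₐ[K] M) :
    Gp a b p (gw g w) := by
  refine ⟨?_, ?_⟩
  · rw [lo_gw]
    exact h.disc
  · rw [lo_gw]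
    exact h.char

/-- the conjugation -/
theorem cj_mem [N.Normal] (g : M ≃ₐ[K] M) {c : N → EP (a : K) (b : K) M} (hc : c ∈ ZS a b p N) :
    cj g c ∈ ZS a b p N := by
  classical
  rw [mem_ZS] at hc
  refine ⟨fun x y => ?_, fun h => ?_, fun w hw h hh => ?_, fun v hv ι => ?_⟩
  · rw [cj_apply, cj_apply, cj_apply]
    have e : cnj g (x * y) = cnj g x * cnj g y := by
      apply Subtype.ext
      show g⁻¹ * ((x : M ≃ₐ[K] M) * y) * g = g⁻¹ * x * g * (g⁻¹ * y * g)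
      group
    rw [e, hc.coc, smul_add]
    congr 1
    show g • (g⁻¹ * (x : M ≃ₐ[K] M) * g) • c (cnj g y) = (x : M ≃ₐ[K] M) • g • c (cnj g y)
    rw [smul_smul, smul_smul]
    congr 1
    group
  · rw [cj_apply, smul_comm, hc.tor, smul_zero]
  · rw [cj_apply, hc.unr (gw g w) (hw.gw g) (cnj g h) ?_, smul_zero]
    intro x
    show g • ((g⁻¹ * (h : M ≃ₐ[K] M) * g) • x - x) ∈ w.asIdeal
    rw [smul_sub, smul_smul]
    have e : g * (g⁻¹ * (h : M ≃ₐ[K] M) * g) = h * g := by group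
    rw [e, mul_smul]
    exact hh (g • x)
  · obtain ⟨P, hP⟩ := hc.loc v hv (ι.comp (g : M →ₐ[K] M))
    refine ⟨P, fun τ s hs => ?_⟩
    rw [cj_apply, mp_smul]
    refine hP τ (cnj g s) fun x => ?_
    show τ (ι (g x)) = ι (g ((g⁻¹ * (s : M ≃ₐ[K] M) * g) x))
    rw [hs]
    congr 1
    have e : g * (g⁻¹ * (s : M ≃ₐ[K] M) * g) = s * g := by group
    exact (DFunLike.congr_fun e x).symm

end defs

end Pool.Agent.T9h30.PG
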