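import Pool.Agent.T9h30.PG.Prm
import Pool.Agent.T9h30.PG.Dpw
import Pool.Agent.T9h30.PG.One

/-!
# Infinite families of fields
-/

set_option autoImplicit false
set_option linter.unusedSectionVars false

namespace Pool.Agent.T9h30.PG

open NumberField IsDedekindDomain Filter Topology
open Pool.Agent.T9h30.BT
open Pool.Agent.K4H55.BI (gen gen_span gen_dvd gen_prime gen_inj gen_na IQ BF Fser)

section split

variable {K F : Type} [Field K] [NumberField K] [Field F] [NumberField F]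
  [Algebra K F] {m : ℕ} [NeZero m] [IsGalois K F]

/-- **Places which split completely.** -/
theorem split_pow {ω : 𝓞 K} {t₀ n₀ : ℤ} (hB : Bs ω t₀ n₀) (C : Type) [Field C] [NumberField C]
    [Algebra K C] [Algebra F C] [IsScalarTower K F C] [IsCyclotomicExtension {m} K C]
    [IsGalois K C] {v : HeightOneSpectrum (𝓞 K)} (hvm : (m : 𝓞 K) ∉ v.asIdeal) {p N : ℕ}
    (hp : p.Prime) (hp2 : 2 < p) (hexp : ∀ t : F ≃ₐ[K] F, t ^ p ^ N = 1) {x : ℕ}
    (hx : (x : ZMod m) ^ p ^ N = (Ideal.absNorm v.asIdeal : ℕ))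
    (hxm : ∀ v' ∈ pl K m, (x : 𝓞 K) ∉ v'.asIdeal) : Nonempty (F →ₐ[K] v.adicCompletion K) := by
  obtain ⟨⟨u, hu⟩⟩ := exists_ab (F := F) v
  subst hu
  obtain ⟨⟨w, hw⟩⟩ := exists_ab (F := C) u
  obtain ⟨s, hs⟩ := exists_frb (K := K) w
  have hlo : lo (K := K) w = lo (K := K) u := by rw [← lo_lo (F := F), hw]
  have h6 := kc_frb (m := m) (C := C) (w := w) (by rw [hlo]; exact hvm) hs
  obtain ⟨t, ht⟩ := (ex_iff (C := C) hB).2 hxm
  have hnm : nm (x : 𝓞 K) = x ^ 2 := by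
    unfold nm
    have h2 := absNorm_eq hB (x : 𝓞 K)
    have h3 := norm_int' hB (x : ℤ)
    rw [Int.cast_natCast] at h3
    rw [h3] at h2
    exact_mod_cast h2
  have h7 : s ^ 2 = t ^ p ^ N := by
    apply kc_inj K C m
    apply Units.ext
    rw [map_pow, map_pow, Units.val_pow_eq_pow_val, Units.val_pow_eq_pow_val, h6, ht, hnm, hlo, ← hx]
    push_cast
    ring
  have h8 := congrArg (AlgEquiv.restrictNormalHom F) h7
  rw [map_pow, map_pow, hexp] at h8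
  have h9 := hexp (AlgEquiv.restrictNormalHom F s)
  have h10 : AlgEquiv.restrictNormalHom F s = 1 := by
    have h11 := Nat.dvd_gcd (orderOf_dvd_of_pow_eq_one h8) (orderOf_dvd_of_pow_eq_one h9)
    have h12 : Nat.gcd 2 (p ^ N) = 1 := by
      refine Nat.Coprime.pow_right _ ((Nat.coprime_primes Nat.prime_two hp).2 ?_)
      omega
    rw [h12, Nat.dvd_one, orderOf_eq_one_iff] at h11
    exact h11
  have h11 := res_frb (F := F) hs
  rw [hw] at h11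
  have h12 : s.restrictNormal F = 1 := h10
  rw [h12] at h11
  exact emb_frb (in_cyc (m := m) C hvm) h11

end split

section conj

variable {K : Type} [Field K] [NumberField K] {a b : 𝓞 K} {p : ℕ}

/-- conjugate places and conjugate curves -/
theorem adp_cj {τ : 𝓞 K →+* 𝓞 K} {hτ : ∀ x, τ (τ x) = x} {v : HeightOneSpectrum (𝓞 K)} :
    Adp a b p (cjp τ hτ v) ↔ Adp (τ a) (τ b) p v := by
  have e1 : τ (2 * (p : 𝓞 K) * (4 * a ^ 3 + 27 * b ^ 2)) =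
      2 * (p : 𝓞 K) * (4 * τ a ^ 3 + 27 * τ b ^ 2) := by
    simp only [map_mul, map_add, map_pow, map_ofNat, map_natCast]
  let f : 𝓞 K ⧸ (cjp τ hτ v).asIdeal →+* 𝓞 K ⧸ v.asIdeal :=
    Ideal.quotientMap v.asIdeal τ (le_of_eq rfl)
  have hf : Function.Bijective f := by
    refine ⟨Ideal.quotientMap_injective, fun y => ?_⟩
    obtain ⟨y, rfl⟩ := Ideal.Quotient.mk_surjective y
    refine ⟨Ideal.Quotient.mk _ (τ y), ?_⟩
    show Ideal.Quotient.mk _ (τ (τ y)) = _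
    rw [hτ]
  let e := RingEquiv.ofBijective f hf
  have he : ∀ z : 𝓞 K, e (Ideal.Quotient.mk _ z) = Ideal.Quotient.mk _ (τ z) := fun z => rfl
  have e2 : pp a b (cjp τ hτ v) = pp (τ a) (τ b) v := by
    unfold pp
    refine Nat.card_congr (Equiv.subtypeEquiv (Equiv.prodCongr e.toEquiv e.toEquiv) fun x => ?_)
    show x.2 ^ 2 = x.1 ^ 3 + Ideal.Quotient.mk _ a * x.1 + Ideal.Quotient.mk _ b ↔
      (e x.2) ^ 2 = (e x.1) ^ 3 + Ideal.Quotient.mk _ (τ a) * (e x.1) + Ideal.Quotient.mk _ (τ b)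
    rw [← he, ← he, ← map_pow, ← map_pow, ← map_mul, ← map_add, ← map_add]
    exact e.injective.eq_iff.symm
  unfold Adp
  rw [e2, mem_cjp, e1]

end conj

section fam

variable {K : Type} [Field K] [NumberField K] [IsPrincipalIdealRing (𝓞 K)] {σ : K →+* ℂ} {δ : K}
  {n : 𝓞 K} {c : Ideal (𝓞 K) → ℂ} {a b : 𝓞 K} {p : ℕ}

/-- **The set of prime numbers.** -/
theorem exists_set {ω : 𝓞 K} {t₀ n₀ : ℤ} (hB : Bs ω t₀ n₀) (hΔ : 4 * a ^ 3 + 27 * b ^ 2 ≠ 0)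
    (hp : p.Prime) (hp2 : 2 < p)
    {l₀ : ℕ} (hl₀ : l₀.Prime) (h₀ : ∀ v : HeightOneSpectrum (𝓞 K), (l₀ : 𝓞 K) ∈ v.asIdeal →
      Ideal.absNorm v.asIdeal % p = 1 ∧ Adp a b p v) (N : ℕ) :
    ∃ P : Set ℕ, (∃ d : ℝ, 0 < d ∧ ∀ᶠ X : ℕ in atTop, d * Nat.primeCounting X ≤
        {l : ℕ | l ≤ X ∧ l ∈ P}.ncard) ∧
      (∀ l ∈ P, l.Prime ∧ (l : ZMod (p ^ N)) = 1) ∧
      (∀ l ∈ P, ∀ v : HeightOneSpectrum (𝓞 K), (l : 𝓞 K) ∈ v.asIdeal → Adp a b p v) ∧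
      ∀ l ∈ P, ∀ v : HeightOneSpectrum (𝓞 K),
        2 * (p : 𝓞 K) * (4 * a ^ 3 + 27 * b ^ 2) ∈ v.asIdeal →
        ∃ x : ZMod l, x ^ p ^ N = (Ideal.absNorm v.asIdeal : ℕ) := by
  classical
  obtain ⟨τ, hτ1, hτ2, hτ3⟩ := exists_cj hB
  -- a place above l₀
  obtain ⟨v₀, hv₀⟩ : ∃ v : HeightOneSpectrum (𝓞 K), (l₀ : 𝓞 K) ∈ v.asIdeal := by
    have h1 : Ideal.span {(l₀ : 𝓞 K)} ≠ ⊤ := by
      intro h
      have h2 := absNorm_eq hB (l₀ : 𝓞 K)
      have h3 := norm_int' hB (l₀ : ℤ)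
      rw [Int.cast_natCast] at h3
      rw [h3, h, Ideal.absNorm_top] at h2
      have h4 : l₀ ^ 2 = 1 := by exact_mod_cast h2.symm
      have h5 := hl₀.one_lt
      nlinarith
    obtain ⟨M, hM, hle⟩ := Ideal.exists_le_maximal _ h1
    have h2 : (l₀ : 𝓞 K) ∈ M := hle (Ideal.mem_span_singleton_self _)
    refine ⟨⟨M, hM.isPrime, ?_⟩, h2⟩
    rintro rfl
    rw [Ideal.mem_bot] at h2
    exact hl₀.ne_zero (by exact_mod_cast h2)
  have hv₀' : (l₀ : 𝓞 K) ∈ (cjp τ hτ1 v₀).asIdeal := by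
    rw [mem_cjp, map_natCast]
    exact hv₀
  have hΔ' : 4 * τ a ^ 3 + 27 * τ b ^ 2 ≠ 0 := by
    intro h
    apply hΔ
    rw [← hτ1 (4 * a ^ 3 + 27 * b ^ 2)]
    have e1 : τ (4 * a ^ 3 + 27 * b ^ 2) = 4 * τ a ^ 3 + 27 * τ b ^ 2 := by
      simp only [map_mul, map_add, map_pow, map_ofNat]
    rw [e1, h, map_zero]
  have hp0 : (p : 𝓞 K) ≠ 0 := by exact_mod_cast hp.ne_zero
  set D : 𝓞 K := 2 * (p : 𝓞 K) * (4 * a ^ 3 + 27 * b ^ 2) with hD
  have hD0 : D ≠ 0 := mul_ne_zero (mul_ne_zero two_ne_zero hp0) hΔ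
  set Q : Finset ℕ := (bad_finite hD0).toFinset.image fun v => Ideal.absNorm v.asIdeal with hQ
  have hpv : (p : 𝓞 K) ∉ v₀.asIdeal := by
    intro h
    apply (h₀ v₀ hv₀).2.1
    have e : 2 * (p : 𝓞 K) * (4 * a ^ 3 + 27 * b ^ 2) =
        (2 * (4 * a ^ 3 + 27 * b ^ 2)) * (p : 𝓞 K) := by ring
    rw [e]
    exact v₀.asIdeal.mul_mem_left _ h
  obtain ⟨d, hd, hX⟩ := dens_pow (J := Bool) (a := fun i => if i then a else τ a)
    (b := fun i => if i then b else τ b) (by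
      intro i
      cases i
      · exact hΔ'
      · exact hΔ) hp hp2 (h₀ v₀ hv₀).1 (by
      intro i
      cases i
      · exact adp_cj.1 (h₀ _ hv₀').2
      · exact (h₀ v₀ hv₀).2) hpv N Q
  set X : Set (HeightOneSpectrum (𝓞 K)) := {v : HeightOneSpectrum (𝓞 K) |
    (∀ i : Bool, Adp (if i then a else τ a) (if i then b else τ b) p v) ∧
      ∀ l : ℕ, l.Prime → Ideal.absNorm v.asIdeal = l →
        (l : ZMod (p ^ N)) = 1 ∧ ∀ q ∈ Q, ∃ x : ZMod l, x ^ p ^ N = q} with hXd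
  refine ⟨{l : ℕ | l.Prime ∧ ∃ v ∈ X, Ideal.absNorm v.asIdeal = l}, ⟨d / 4, by positivity,
    dens_prm hB hd hX⟩, ?_, ?_, ?_⟩
  · rintro l ⟨hl, v, hv, hvl⟩
    exact ⟨hl, (hv.2 l hl hvl).1⟩
  · rintro l ⟨hl, v, hv, rfl⟩ v' hv'
    rcases above_l hB hτ1 hτ3 hv' with rfl | rfl
    · exact hv.1 true
    · exact adp_cj.2 (hv.1 false)
  · rintro l ⟨hl, v, hv, hvl⟩ v' hv'
    refine (hv.2 l hl hvl).2 _ ?_
    rw [hQ]
    exact Finset.mem_image_of_mem _ ((Set.Finite.mem_toFinset _).2 hv')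

/-- **The family.** -/
theorem Dat.fam (h : Dat σ δ n c a b p) {P : Set ℕ} {N : ℕ}
    (h1 : ∀ l ∈ P, l.Prime)
    (h2 : ∀ l ∈ P, ∀ v : HeightOneSpectrum (𝓞 K), (l : 𝓞 K) ∈ v.asIdeal → Adp a b p v)
    (h3 : ∀ l ∈ P, ∀ v : HeightOneSpectrum (𝓞 K),
        2 * (p : 𝓞 K) * (4 * a ^ 3 + 27 * b ^ 2) ∈ v.asIdeal →
        ∃ x : ZMod l, x ^ p ^ N = (Ideal.absNorm v.asIdeal : ℕ))
    (S : Finset ℕ) (hS : ∀ l ∈ S, l ∈ P) (F : Type) [Field F] [NumberField F] [Algebra K F]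
    [DecidableEq F] (hF : Nonempty (F →ₐ[K] CyclotomicField (∏ l ∈ S, l) K))
    (hexp : ∀ t : F ≃ₐ[K] F, t ^ p ^ N = 1) :
    (Finite ((cv (a : K) (b : K)).baseChange F).toAffine.Point ∧
      ¬ p ∣ Nat.card ((cv (a : K) (b : K)).baseChange F).toAffine.Point) ∧
      ∃ H : ℂ → ℂ, MeromorphicOn H Set.univ ∧ AnalyticAt ℂ H 1 ∧ H 1 ≠ 0 ∧
        ∀ s : ℂ, 2 < s.re → H s = ((cv (a : K) (b : K)).baseChange F).LSeries s := by
  classical
  obtain ⟨ω, t₀, n₀, hB⟩ := exists_bs h.iq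
  set m := ∏ l ∈ S, l with hm
  have hm0 : m ≠ 0 := Finset.prod_ne_zero_iff.2 fun l hl => (h1 l (hS l hl)).ne_zero
  have hmz : NeZero m := ⟨hm0⟩
  -- the places which divide m
  have hml : ∀ v : HeightOneSpectrum (𝓞 K), (m : 𝓞 K) ∈ v.asIdeal →
      ∃ l ∈ S, (l : 𝓞 K) ∈ v.asIdeal := by
    intro v hv
    rw [hm, Nat.cast_prod] at hv
    obtain ⟨l, hl, hlv⟩ := (v.isPrime.prod_mem_iff).1 hv
    exact ⟨l, hl, hlv⟩
  have hadm : ∀ v : HeightOneSpectrum (𝓞 K), (m : 𝓞 K) ∈ v.asIdeal → Adp a b p v := by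
    intro v hv
    obtain ⟨l, hl, hlv⟩ := hml v hv
    exact h2 l (hS l hl) v hlv
  have hex : ∀ l : ℕ, l.Prime → ∃ v : HeightOneSpectrum (𝓞 K), (l : 𝓞 K) ∈ v.asIdeal := by
    intro l hl
    have h1 : Ideal.span {(l : 𝓞 K)} ≠ ⊤ := by
      intro h
      have h2 := absNorm_eq hB (l : 𝓞 K)
      have h3 := norm_int' hB (l : ℤ)
      rw [Int.cast_natCast] at h3
      rw [h3, h, Ideal.absNorm_top] at h2
      have h4 : l ^ 2 = 1 := by exact_mod_cast h2.symm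
      have h5 := hl.one_lt
      nlinarith
    obtain ⟨M, hM, hle⟩ := Ideal.exists_le_maximal _ h1
    have h2 : (l : 𝓞 K) ∈ M := hle (Ideal.mem_span_singleton_self _)
    refine ⟨⟨M, hM.isPrime, ?_⟩, h2⟩
    rintro rfl
    rw [Ideal.mem_bot] at h2
    exact hl.ne_zero (by exact_mod_cast h2)
  have hpm : Nat.Coprime p m := by
    refine Nat.Coprime.prod_right fun l hl => ?_
    rw [Nat.coprime_primes h.prime (h1 l (hS l hl))]
    rintro rfl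
    obtain ⟨v, hv⟩ := hex p h.prime
    apply (h2 p (hS p hl) v hv).1
    have e : 2 * (p : 𝓞 K) * (4 * a ^ 3 + 27 * b ^ 2) =
        (2 * (4 * a ^ 3 + 27 * b ^ 2)) * (p : 𝓞 K) := by ring
    rw [e]
    exact v.asIdeal.mul_mem_left _ hv
  obtain ⟨e⟩ := hF
  let _ : Algebra F (CyclotomicField m K) := e.toRingHom.toAlgebra
  have ht : IsScalarTower K F (CyclotomicField m K) :=
    IsScalarTower.of_algebraMap_eq fun x => (e.commutes x).symm
  have hab : IsAbelianGalois K (CyclotomicField m K) :=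
    IsCyclotomicExtension.isAbelianGalois {m} K (CyclotomicField m K)
  have hab2 : IsAbelianGalois K F := IsAbelianGalois.tower_bot K F (CyclotomicField m K)
  have hGC : IsGalois K (CyclotomicField m K) := inferInstance
  have hGF : IsGalois K F := inferInstance
  -- the degree
  obtain ⟨k, hk⟩ : ∃ k : ℕ, Module.finrank K F = p ^ k := by
    have hfp : Fact p.Prime := ⟨h.prime⟩
    have hG : IsPGroup p (F ≃ₐ[K] F) := fun t => ⟨N, hexp t⟩
    obtain ⟨k, hk⟩ := IsPGroup.iff_card.1 hG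
    exact ⟨k, by rw [← IsGalois.card_aut_eq_finrank K F]; exact hk⟩
  refine h.cyc (m := m) hpm hadm (CyclotomicField m K) hk fun v hv => ?_
  -- splitting
  have hvl : ∀ l ∈ S, (l : 𝓞 K) ∉ v.asIdeal := fun l hl hlv => (h2 l (hS l hl) v hlv).1 hv
  have hvm : (m : 𝓞 K) ∉ v.asIdeal := fun hmv => (hadm v hmv).1 hv
  have hxl : ∀ l : ℕ, ∃ x : ℕ, l ∈ S → (x : ZMod l) ^ p ^ N = (Ideal.absNorm v.asIdeal : ℕ) := by
    intro l
    by_cases hl : l ∈ S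
    · obtain ⟨x, hx⟩ := h3 l (hS l hl) v hv
      have hlz : NeZero l := ⟨(h1 l (hS l hl)).ne_zero⟩
      refine ⟨x.val, fun _ => ?_⟩
      rw [ZMod.natCast_zmod_val]
      exact hx
    · exact ⟨0, fun h => absurd h hl⟩
  choose xl hxl using hxl
  obtain ⟨x, hx⟩ := Nat.chineseRemainderOfFinset xl id S
    (fun l hl => (h1 l (hS l hl)).ne_zero) (by
      intro l hl l' hl' hne
      exact (Nat.coprime_primes (h1 l (hS l hl)) (h1 l' (hS l' hl'))).2 hne)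
  have hx' : ∀ l ∈ S, (l : ℤ) ∣ (x : ℤ) ^ p ^ N - (Ideal.absNorm v.asIdeal : ℕ) := by
    intro l hl
    rw [← ZMod.intCast_zmod_eq_zero_iff_dvd, Int.cast_sub, Int.cast_pow, Int.cast_natCast,
      Int.cast_natCast, sub_eq_zero, ← hxl l hl]
    congr 1
    exact (ZMod.natCast_eq_natCast_iff _ _ _).2 (hx l hl)
  have hxm : (x : ZMod m) ^ p ^ N = (Ideal.absNorm v.asIdeal : ℕ) := by
    rw [← sub_eq_zero]
    have h4 : (m : ℤ) ∣ (x : ℤ) ^ p ^ N - (Ideal.absNorm v.asIdeal : ℕ) := by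
      rw [hm, Nat.cast_prod]
      refine Finset.prod_dvd_of_coprime ?_ hx'
      intro l hl l' hl' hne
      exact Nat.isCoprime_iff_coprime.2
        ((Nat.coprime_primes (h1 l (hS l hl)) (h1 l' (hS l' hl'))).2 hne)
    rw [← ZMod.intCast_zmod_eq_zero_iff_dvd] at h4
    push_cast at h4 ⊢
    exact h4
  refine split_pow hB (CyclotomicField m K) hvm h.prime h.odd hexp hxm fun v' hv' hxv => ?_
  obtain ⟨l, hl, hlv⟩ := hml v' (mem_pl.1 hv')
  have h5 := cop_nrm (hvl l hl)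
  have h6 : ((x : ℤ) ^ p ^ N - (Ideal.absNorm v.asIdeal : ℕ) : ℤ) ∈
      v'.asIdeal.comap (Int.castRingHom (𝓞 K)) := by
    obtain ⟨r, hr⟩ := hx' l hl
    rw [hr, Ideal.mem_comap]
    simp only [eq_intCast, Int.cast_mul, Int.cast_natCast]
    exact v'.asIdeal.mul_mem_right _ hlv
  rw [Ideal.mem_comap] at h6
  simp only [eq_intCast, Int.cast_sub, Int.cast_pow, Int.cast_natCast] at h6
  have h7 : (x : 𝓞 K) ^ p ^ N ∈ v'.asIdeal :=
    Ideal.pow_mem_of_mem _ hxv _ (pow_pos h.prime.pos _)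
  have h8 : ((Ideal.absNorm v.asIdeal : ℕ) : 𝓞 K) ∈ v'.asIdeal := by
    have := v'.asIdeal.sub_mem h7 h6
    rwa [sub_sub_cancel] at this
  have h9 : IsCoprime ((Ideal.absNorm v.asIdeal : ℕ) : 𝓞 K) (l : 𝓞 K) := Nat.Coprime.cast h5
  obtain ⟨α, β, hαβ⟩ := h9
  apply one_notMem v'
  rw [← hαβ]
  exact v'.asIdeal.add_mem (v'.asIdeal.mul_mem_left _ h8) (v'.asIdeal.mul_mem_left _ hlv)

end fam

end Pool.Agent.T9h30.PG
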