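import Pool.Agent.T9h30.PG.Pts
import Pool.Agent.W239.FM.MUL
import Pool.Agent.W342.FM.AS
import Pool.Agent.W696.FM.Can
import Pool.Agent.W125.FM.Fac

/-!
# Fields over which a point is divisible
-/

set_option autoImplicit false
set_option linter.unusedSectionVars false

namespace Pool.Agent.T9h30.PG

open NumberField IsDedekindDomain WeierstrassCurve
open Pool.Agent.T9h30.BT
open Pool.Agent.H901R3.MS (Place CV Pt Disc)
open Pool.Agent.W275.FM (hx hz)

/-- the points over an algebraically closed field are divisible -/
theorem divisible {F : Type} [Field F] [IsAlgClosed F] [CharZero F] [DecidableEq F] {a b : F}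
    (hD : Disc a b) {n : ℕ} (hn : 1 ≤ n) (P : Pt a b) : ∃ Q : Pt a b, n • Q = P := by
  match P with
  | .zero => exact ⟨0, smul_zero _⟩
  | .some X Y hXY =>
    obtain ⟨U, V, hcop, hU, hV, hmul⟩ := Pool.Agent.W239.FM.MUL.main Pool.Agent.W342.FM.AS.main
      Pool.Agent.W696.FM.Can.main Pool.Agent.W125.FM.Fac.main F a b hD n hn
    have hn2 : 1 ≤ n ^ 2 := Nat.one_le_pow _ _ hn
    have hdeg : (U - Polynomial.C X * V).natDegree = n ^ 2 := by
      rw [← hU]
      refine Polynomial.natDegree_sub_eq_left_of_natDegree_lt ?_
      refine lt_of_le_of_lt (Polynomial.natDegree_C_mul_le _ _) ?_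
      rw [hU]
      exact hV
    obtain ⟨x, hx⟩ := IsAlgClosed.exists_root (U - Polynomial.C X * V) (by
      intro h
      have h9 := Polynomial.natDegree_eq_zero_iff_degree_le_zero.2 h.le
      rw [hdeg] at h9
      omega)
    have hx' : U.eval x = X * V.eval x := by
      rw [Polynomial.IsRoot.def, Polynomial.eval_sub, Polynomial.eval_mul, Polynomial.eval_C,
        sub_eq_zero] at hx
      exact hx
    have hVx : V.eval x ≠ 0 := by
      intro h0
      obtain ⟨s, t, hst⟩ := hcop
      have h1 := congrArg (Polynomial.eval x) hst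
      rw [Polynomial.eval_add, Polynomial.eval_mul, Polynomial.eval_mul, hx', h0, mul_zero,
        mul_zero, mul_zero, add_zero, Polynomial.eval_one] at h1
      exact zero_ne_one h1
    obtain ⟨y, hy⟩ := IsAlgClosed.exists_pow_nat_eq (x ^ 3 + a * x + b) (n := 2) (by norm_num)
    have hns : (CV a b).toAffine.Nonsingular x y :=
      (Pool.Agent.H901R3.MS.nonsingular_iff hD).2 hy
    obtain ⟨μ, hμ, h1, h2⟩ := hmul x y hns
    match hR : n • (Affine.Point.some x y hns : Pt a b), h1, h2 with
    | .zero, _, h2 =>
      have h3 : (0 : F) = μ * V.eval x := h2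
      exact absurd h3.symm (mul_ne_zero hμ hVx)
    | .some X' Y' h', h1, h2 =>
      have h3 : X' = μ * U.eval x := h1
      have h4 : (1 : F) = μ * V.eval x := h2
      have h5 : X' = X := by
        rw [h3, hx', mul_left_comm, ← h4, mul_one]
      subst h5
      have h6 : Y' = Y ∨ Y' = -Y := by
        apply sq_eq_sq_iff_eq_or_eq_neg.1
        have e1 := Pool.Agent.H901R3.MS.eqn_of h'
        have e2 := Pool.Agent.H901R3.MS.eqn_of hXY
        unfold Pool.Agent.H901R3.MS.Eqn at e1 e2
        rw [e1, e2]
      rcases h6 with rfl | rfl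
      · exact ⟨_, hR⟩
      · refine ⟨-Affine.Point.some x y hns, ?_⟩
        rw [smul_neg, hR, neg_eq_iff_eq_neg, Pool.Agent.H901R3.MS.neg_some' hXY h']

/-- Galois closures -/
theorem exists_gal (K L : Type) [Field K] [NumberField K] [Field L] [NumberField L]
    [Algebra K L] : ∃ (M : Type) (_ : Field M) (_ : NumberField M) (_ : Algebra K M)
      (_ : Algebra L M) (_ : IsScalarTower K L M), IsGalois K M := by
  have hfd : FiniteDimensional K L := inferInstance
  have halg : Algebra.IsAlgebraic K (AlgebraicClosure L) := Algebra.IsAlgebraic.trans K L _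
  have hac : IsAlgClosure K (AlgebraicClosure L) := ⟨inferInstance, halg⟩
  have hn : Normal K (AlgebraicClosure L) := inferInstance
  have hN : NumberField (IntermediateField.normalClosure K L (AlgebraicClosure L)) :=
    NumberField.of_module_finite K _
  refine ⟨IntermediateField.normalClosure K L (AlgebraicClosure L), inferInstance, hN,
    inferInstance, inferInstance, inferInstance, ?_⟩
  exact ⟨⟩

variable {K F : Type} [Field K] [NumberField K] [Field F] [NumberField F] [Algebra K F]
  [DecidableEq F]

/-- a field over which a point is divisible -/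
theorem exists_div {a b : K} (hΔ : 4 * a ^ 3 + 27 * b ^ 2 ≠ 0) {n : ℕ} (hn : 1 ≤ n)
    (P : EP a b F) : ∃ (L : Type) (_ : Field L) (_ : NumberField L) (_ : Algebra K L)
      (_ : Algebra F L) (_ : IsScalarTower K F L) (_ : DecidableEq L) (Q : EP a b L),
      n • Q = mp (IsScalarTower.toAlgHom K F L) P := by
  classical
  let Ω := AlgebraicClosure F
  have hcv : ((cv a b).baseChange Ω) = CV (algebraMap K Ω a) (algebraMap K Ω b) := by
    unfold WeierstrassCurve.baseChange
    rw [cv_map]
    rfl
  have hD : Disc (algebraMap K Ω a) (algebraMap K Ω b) := by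
    intro h
    have h1 : algebraMap K Ω (2 * (4 * a ^ 3 + 27 * b ^ 2)) = 0 := by
      simp only [map_add, map_mul, map_pow, map_ofNat]
      exact h
    rw [map_eq_zero] at h1
    exact (mul_ne_zero two_ne_zero hΔ) h1
  have hdiv : ∀ P : EP a b Ω, ∃ Q : EP a b Ω, n • Q = P := by
    unfold EP
    rw [hcv]
    exact divisible hD hn
  obtain ⟨Q, hQ⟩ := hdiv (mp (IsScalarTower.toAlgHom K F Ω) P)
  match Q, hQ with
  | .zero, hQ =>
    refine ⟨F, inferInstance, inferInstance, inferInstance, inferInstance, inferInstance,
      inferInstance, 0, ?_⟩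
    have h1 : mp (IsScalarTower.toAlgHom K F Ω) P = 0 := by
      rw [← hQ]
      exact smul_zero _
    have h2 : P = 0 := mp_inj (IsScalarTower.toAlgHom K F Ω) (h1.trans (map_zero _).symm)
    rw [h2, map_zero, smul_zero]
  | .some x y h, hQ =>
    let L := IntermediateField.adjoin F ({x, y} : Set Ω)
    have hfdL : FiniteDimensional F L := by
      refine IntermediateField.finiteDimensional_adjoin fun z _ => ?_
      exact (Algebra.IsAlgebraic.isAlgebraic z).isIntegral
    have hNF : NumberField L := NumberField.of_module_finite F _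
    have hx : x ∈ L := IntermediateField.subset_adjoin _ _ (by simp)
    have hy : y ∈ L := IntermediateField.subset_adjoin _ _ (by simp)
    have ht : IsScalarTower K F L := inferInstance
    have ht2 : IsScalarTower K L Ω := IsScalarTower.of_algebraMap_eq fun z => by
      rw [IsScalarTower.algebraMap_apply K F Ω, IsScalarTower.algebraMap_apply K F L]
      rfl
    have ht3 : IsScalarTower K K L := inferInstance
    let j : L →ₐ[K] Ω := IsScalarTower.toAlgHom K L Ω
    have hns : ((cv a b).baseChange L).toAffine.Nonsingular (⟨x, hx⟩ : L) ⟨y, hy⟩ :=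
      ((cv a b).toAffine.baseChange_nonsingular j.injective _ _).1 h
    refine ⟨L, inferInstance, hNF, inferInstance, inferInstance, ht, inferInstance,
      .some _ _ hns, ?_⟩
    apply mp_inj j
    rw [map_nsmul, mp_mp]
    have e : j.comp (IsScalarTower.toAlgHom K F L) = IsScalarTower.toAlgHom K F Ω := by
      ext z
      rfl
    rw [e, ← hQ]
    rfl

/-- **a Galois extension over which a point is divisible** -/
theorem exists_M {a b : K} (hΔ : 4 * a ^ 3 + 27 * b ^ 2 ≠ 0) {n : ℕ} (hn : 1 ≤ n)
    (P : EP a b F) : ∃ (M : Type) (_ : Field M) (_ : NumberField M) (_ : Algebra K M)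
      (_ : Algebra F M) (_ : IsScalarTower K F M) (_ : DecidableEq M) (Q : EP a b M),
      IsGalois K M ∧ n • Q = mp (IsScalarTower.toAlgHom K F M) P := by
  classical
  obtain ⟨L, _, _, _, _, hL, _, Q, hQ⟩ := exists_div hΔ hn P
  obtain ⟨M, _, _, _, _, hM, hG⟩ := exists_gal K L
  let _ : Algebra F M := ((algebraMap L M).comp (algebraMap F L)).toAlgebra
  have ht : IsScalarTower K F M := IsScalarTower.of_algebraMap_eq fun z => by
    show algebraMap K M z = algebraMap L M (algebraMap F L (algebraMap K F z))
    rw [← IsScalarTower.algebraMap_apply K F L, ← IsScalarTower.algebraMap_apply K L M]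
  refine ⟨M, inferInstance, inferInstance, inferInstance, inferInstance, ht, inferInstance,
    mp (IsScalarTower.toAlgHom K L M) Q, hG, ?_⟩
  rw [← map_nsmul, hQ, mp_mp]
  congr 1

end Pool.Agent.T9h30.PG
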