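import Pool.Agent.T9h30.PG.Cyc
import Pool.Agent.T9h30.PG.Den
import Pool.Agent.T9h30.BT.Adm
import Mathlib

/-!
# Places of degree one of an imaginary quadratic field
-/

set_option autoImplicit false
set_option linter.unusedSectionVars false

namespace Pool.Agent.T9h30.PG

open NumberField IsDedekindDomain Filter Topology
open Pool.Agent.T9h30.BT
open Pool.Agent.K4H55.BI (gen gen_span gen_dvd gen_prime gen_inj gen_na)

section sqrt

/-- square roots are small in comparison with the number of primes -/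
theorem sqrt_small {ε : ℝ} (hε : 0 < ε) :
    ∀ᶠ N : ℕ in atTop, (Nat.sqrt N : ℝ) + 1 ≤ ε * Nat.primeCounting N := by
  have hl2 : 0 < Real.log 2 := Real.log_pos (by norm_num)
  have h1 : ∀ᶠ x : ℝ in atTop, ‖Real.log x‖ ≤ ε * Real.log 2 / 8 * ‖x ^ (1 / 2 : ℝ)‖ :=
    (isLittleO_log_rpow_atTop (by norm_num : (0 : ℝ) < 1 / 2)).def (by positivity)
  have h1' : ∀ᶠ x : ℝ in atTop, ‖Real.log x‖ ≤ Real.log 2 / 4 * ‖x ^ (1 : ℝ)‖ :=
    (isLittleO_log_rpow_atTop (by norm_num : (0 : ℝ) < 1)).def (by positivity)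
  have h2 := tendsto_natCast_atTop_atTop.eventually h1
  have h3 := (tendsto_natCast_atTop_atTop.comp (tendsto_add_atTop_nat 1)).eventually h1'
  filter_upwards [h2, h3, eventually_ge_atTop 2] with N hN hN1 hN2
  have hNr : (2 : ℝ) ≤ N := by exact_mod_cast hN2
  have hlog : 0 < Real.log N := Real.log_pos (by linarith)
  have e1 : (N : ℝ) ^ (1 / 2 : ℝ) = √N := (Real.sqrt_eq_rpow _).symm
  rw [e1, Real.norm_of_nonneg hlog.le, Real.norm_of_nonneg (Real.sqrt_nonneg _)] at hN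
  have hN1' : Real.log (N + 1) ≤ Real.log 2 / 4 * (N + 1) := by
    have h4 : ((fun n : ℕ => (n : ℝ)) ∘ fun a => a + 1) N = (N : ℝ) + 1 := by
      show ((N + 1 : ℕ) : ℝ) = _
      push_cast
      ring
    have h5 : ‖Real.log ((N : ℝ) + 1)‖ ≤ Real.log 2 / 4 * ‖((N : ℝ) + 1) ^ (1 : ℝ)‖ := by
      have := hN1
      simp only [Function.comp] at this
      push_cast at this
      exact this
    rw [Real.rpow_one, Real.norm_of_nonneg (Real.log_nonneg (by linarith)),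
      Real.norm_of_nonneg (by linarith)] at h5
    exact h5
  have hpi := Chebyshev.pi_ge N
  rw [div_le_iff₀ hlog] at hpi
  have hsq : (Nat.sqrt N : ℝ) ≤ √N := Real.nat_sqrt_le_real_sqrt
  have hs1 : (1 : ℝ) ≤ √N := Real.one_le_sqrt.2 (by linarith)
  have hss : √(N : ℝ) * √N = N := Real.mul_self_sqrt (by linarith)
  -- (sqrt N + 1) log N ≤ 2 sqrt N log N ≤ ε log 2 / 4 N
  have h6 : ((Nat.sqrt N : ℝ) + 1) * Real.log N ≤ ε * (Real.log 2 / 4 * N) := by
    calc ((Nat.sqrt N : ℝ) + 1) * Real.log N ≤ (2 * √N) * (ε * Real.log 2 / 8 * √N) := by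
          refine mul_le_mul (by linarith) hN hlog.le (by positivity)
      _ = ε * (Real.log 2 / 4 * (√N * √N)) := by ring
      _ = ε * (Real.log 2 / 4 * N) := by rw [hss]
  have h7 : Real.log 2 / 4 * (N : ℝ) ≤ Nat.primeCounting N * Real.log N := by
    refine le_trans ?_ hpi
    nlinarith
  have h8 : ((Nat.sqrt N : ℝ) + 1) * Real.log N ≤ ε * Nat.primeCounting N * Real.log N := by
    calc _ ≤ ε * (Real.log 2 / 4 * N) := h6
      _ ≤ ε * (Nat.primeCounting N * Real.log N) := mul_le_mul_of_nonneg_left h7 hε.le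
      _ = _ := by ring
  exact le_of_mul_le_mul_right h8 hlog

end sqrt

section quad

variable {K : Type} [Field K] [NumberField K]

/-- the conjugate place -/
noncomputable def cjp (τ : 𝓞 K →+* 𝓞 K) (hτ : ∀ x, τ (τ x) = x) (v : HeightOneSpectrum (𝓞 K)) :
    HeightOneSpectrum (𝓞 K) where
  asIdeal := v.asIdeal.comap τ
  isPrime := v.isPrime.comap _
  ne_bot := by
    intro h
    obtain ⟨x, hx, hx0⟩ := Submodule.exists_mem_ne_zero_of_ne_bot v.ne_bot
    have h1 : τ x ∈ v.asIdeal.comap τ := by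
      rw [Ideal.mem_comap, hτ]
      exact hx
    rw [h, Ideal.mem_bot] at h1
    apply hx0
    rw [← hτ x, h1, map_zero]

lemma mem_cjp {τ : 𝓞 K →+* 𝓞 K} {hτ : ∀ x, τ (τ x) = x} {v : HeightOneSpectrum (𝓞 K)} {x : 𝓞 K} :
    x ∈ (cjp τ hτ v).asIdeal ↔ τ x ∈ v.asIdeal := Iff.rfl

lemma cjp_cjp {τ : 𝓞 K →+* 𝓞 K} {hτ : ∀ x, τ (τ x) = x} (v : HeightOneSpectrum (𝓞 K)) :
    cjp τ hτ (cjp τ hτ v) = v := by
  apply HeightOneSpectrum.ext
  ext x
  rw [mem_cjp, mem_cjp, hτ]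

lemma eq_of_le {v v' : HeightOneSpectrum (𝓞 K)} (h : v.asIdeal ≤ v'.asIdeal) : v' = v := by
  have h1 : v.asIdeal.IsMaximal := v.isMaximal
  exact HeightOneSpectrum.ext (h1.eq_of_le v'.isPrime.ne_top h).symm

/-- prime numbers which divide the norm -/
lemma mem_of_dvd {v : HeightOneSpectrum (𝓞 K)} {q : ℕ} (hq : q.Prime)
    (h : q ∣ Ideal.absNorm v.asIdeal) : (q : 𝓞 K) ∈ v.asIdeal := by
  by_contra hcon
  have h1 := cop_nrm hcon
  have h2 := (Nat.coprime_primes hq hq).1 (Nat.Coprime.coprime_dvd_left h h1)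
  have h3 := Nat.Coprime.coprime_dvd_left h h1
  rw [Nat.coprime_self] at h3
  exact hq.one_lt.ne' h3

variable [IsPrincipalIdealRing (𝓞 K)] {ω : 𝓞 K} {t n : ℤ}

/-- the places above a prime number which is a norm -/
theorem above_l (hB : Bs ω t n) {τ : 𝓞 K →+* 𝓞 K} (hτ : ∀ x, τ (τ x) = x)
    (hN : ∀ x, x * τ x = (Algebra.norm ℤ x : ℤ)) {v v' : HeightOneSpectrum (𝓞 K)}
    (h : (Ideal.absNorm v.asIdeal : 𝓞 K) ∈ v'.asIdeal) : v' = v ∨ v' = cjp τ hτ v := by
  have h1 : gen v * τ (gen v) ∈ v'.asIdeal := by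
    rw [hN, ← absNorm_eq hB, gen_span]
    exact_mod_cast h
  have h3 : ∀ u : HeightOneSpectrum (𝓞 K), gen v ∈ u.asIdeal → u = v := by
    intro u hu
    apply eq_of_le
    rw [← gen_span v]
    exact (Ideal.span_singleton_le_iff_mem _).2 hu
  rcases v'.isPrime.mem_or_mem h1 with h2 | h2
  · exact Or.inl (h3 v' h2)
  · right
    have h4 : gen v ∈ (cjp τ hτ v').asIdeal := h2
    rw [← h3 _ h4, cjp_cjp]

/-- places whose norm is not a prime number -/
lemma not_prime (hB : Bs ω t n) {v : HeightOneSpectrum (𝓞 K)}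
    (h : ¬ (Ideal.absNorm v.asIdeal).Prime) : ∃ q : ℕ, Ideal.absNorm v.asIdeal = q ^ 2 ∧
      v.asIdeal = Ideal.span {(q : 𝓞 K)} := by
  have h1 := one_lt_nrm v
  obtain ⟨q, hq, hqd⟩ := Nat.exists_prime_and_dvd (n := Ideal.absNorm v.asIdeal) (by omega)
  have hqv := mem_of_dvd hq hqd
  have hle : Ideal.span {(q : 𝓞 K)} ≤ v.asIdeal := (Ideal.span_singleton_le_iff_mem _).2 hqv
  have hnq : Ideal.absNorm (Ideal.span {(q : 𝓞 K)}) = q ^ 2 := by
    have h2 := absNorm_eq hB (q : 𝓞 K)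
    have h3 := norm_int' hB (q : ℤ)
    rw [Int.cast_natCast] at h3
    rw [h3] at h2
    exact_mod_cast h2
  have hd := Ideal.absNorm_dvd_absNorm_of_le hle
  rw [hnq] at hd
  obtain ⟨k, hk, hk2⟩ := (Nat.dvd_prime_pow hq).1 hd
  have hk' : k = 2 := by
    interval_cases k
    · rw [pow_zero] at hk2
      omega
    · rw [pow_one] at hk2
      rw [hk2] at h
      exact absurd hq h
    · rfl
  subst hk'
  refine ⟨q, hk2, ?_⟩
  obtain ⟨J, hJ⟩ := Ideal.dvd_iff_le.2 hle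
  have h5 := congrArg Ideal.absNorm hJ
  rw [hnq, map_mul, hk2] at h5
  have h6 : Ideal.absNorm J = 1 := by
    have h7 : 0 < q ^ 2 := pow_pos hq.pos 2
    exact Nat.eq_of_mul_eq_mul_left h7 (by rw [← h5, mul_one])
  rw [Ideal.absNorm_eq_one_iff] at h6
  rw [h6, Ideal.mul_top] at hJ
  exact hJ.symm

/-- the number of places of degree two -/
lemma cnt_two (hB : Bs ω t n) (N : ℕ) :
    cnt {v : HeightOneSpectrum (𝓞 K) | ¬ (Ideal.absNorm v.asIdeal).Prime} N ≤ Nat.sqrt N + 1 := by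
  unfold cnt
  rw [← Finset.card_range (Nat.sqrt N + 1), ← Set.ncard_coe_finset]
  refine Set.ncard_le_ncard_of_injOn (fun v => Nat.sqrt (Ideal.absNorm v.asIdeal)) ?_ ?_
    (Finset.finite_toSet _)
  · rintro v ⟨hv1, hv2⟩
    rw [Finset.mem_coe, Finset.mem_range]
    have := Nat.sqrt_le_sqrt hv1
    omega
  · rintro v ⟨hv1, hv2⟩ v' ⟨hv1', hv2'⟩ h
    obtain ⟨q, h1, h2⟩ := not_prime hB hv2
    obtain ⟨q', h1', h2'⟩ := not_prime hB hv2'
    have h3 : Nat.sqrt (Ideal.absNorm v.asIdeal) = Nat.sqrt (Ideal.absNorm v'.asIdeal) := h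
    rw [h1, h1', Nat.sqrt_eq', Nat.sqrt_eq'] at h3
    apply HeightOneSpectrum.ext
    rw [h2, h2', h3]

/-- **The density of prime numbers from the density of places.** -/
theorem dens_prm (hB : Bs ω t n) {X : Set (HeightOneSpectrum (𝓞 K))} {d : ℝ} (hd : 0 < d)
    (hX : ∀ᶠ N : ℕ in atTop, d * Nat.primeCounting N ≤ cnt X N) :
    ∀ᶠ N : ℕ in atTop, d / 4 * Nat.primeCounting N ≤
      {l : ℕ | l ≤ N ∧ l.Prime ∧ ∃ v ∈ X, Ideal.absNorm v.asIdeal = l}.ncard := by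
  classical
  obtain ⟨τ, hτ1, hτ2, hτ3⟩ := exists_cj hB
  filter_upwards [hX, sqrt_small (half_pos hd)] with N hN hN2
  have h1 : cnt X N ≤ cnt {v | v ∈ X ∧ (Ideal.absNorm v.asIdeal).Prime} N +
      cnt {v : HeightOneSpectrum (𝓞 K) | ¬ (Ideal.absNorm v.asIdeal).Prime} N := by
    unfold cnt
    refine le_trans (Set.ncard_le_ncard (t := {v | Ideal.absNorm v.asIdeal ≤ N ∧
      v ∈ {v | v ∈ X ∧ (Ideal.absNorm v.asIdeal).Prime}} ∪ {v | Ideal.absNorm v.asIdeal ≤ N ∧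
      v ∈ {v : HeightOneSpectrum (𝓞 K) | ¬ (Ideal.absNorm v.asIdeal).Prime}}) ?_
      ((fin_cnt _ N).union (fin_cnt _ N))) (Set.ncard_union_le _ _)
    rintro v ⟨hv1, hv2⟩
    by_cases h : (Ideal.absNorm v.asIdeal).Prime
    · exact Or.inl ⟨hv1, hv2, h⟩
    · exact Or.inr ⟨hv1, h⟩
  have h2 := cnt_two hB N
  -- the map to the prime numbers
  set P : Set ℕ := {l : ℕ | l ≤ N ∧ l.Prime ∧ ∃ v ∈ X, Ideal.absNorm v.asIdeal = l} with hP
  have hPf : P.Finite := (Set.finite_Iic N).subset fun l hl => hl.1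
  have h3 : cnt {v | v ∈ X ∧ (Ideal.absNorm v.asIdeal).Prime} N ≤ 2 * P.ncard := by
    unfold cnt
    have e1 : {v | Ideal.absNorm v.asIdeal ≤ N ∧ v ∈ {v | v ∈ X ∧
        (Ideal.absNorm v.asIdeal).Prime}} =
        ((fin_cnt {v | v ∈ X ∧ (Ideal.absNorm v.asIdeal).Prime} N).toFinset : Set _) := by simp
    rw [e1, Set.ncard_coe_finset, Set.ncard_eq_toFinset_card _ hPf]
    refine Finset.card_le_mul_card_image_of_maps_to (f := fun v => Ideal.absNorm v.asIdeal) ?_ 2 ?_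
    · intro v hv
      rw [Set.Finite.mem_toFinset] at hv ⊢
      exact ⟨hv.1, hv.2.2, v, hv.2.1, rfl⟩
    · intro l hl
      by_contra hcon
      rw [not_le] at hcon
      obtain ⟨v, hv⟩ := Finset.card_pos.1 (lt_trans two_pos hcon)
      have hsub : {a ∈ (fin_cnt {v | v ∈ X ∧ (Ideal.absNorm v.asIdeal).Prime} N).toFinset |
          Ideal.absNorm a.asIdeal = l} ⊆ {v, cjp τ hτ1 v} := by
        intro v' hv'
        rw [Finset.mem_filter] at hv hv'
        rw [Finset.mem_insert, Finset.mem_singleton]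
        refine above_l hB hτ1 hτ3 ?_
        rw [hv.2, ← hv'.2]
        exact Ideal.absNorm_mem _
      exact absurd ((Finset.card_le_card hsub).trans Finset.card_le_two) (not_le.2 hcon)
  have h4 : (cnt X N : ℝ) ≤ 2 * P.ncard + ((Nat.sqrt N : ℝ) + 1) := by
    exact_mod_cast h1.trans (add_le_add h3 h2)
  linarith

end quad

end Pool.Agent.T9h30.PG
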