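import Pool.Agent.T9h30.PG.Red

/-!
# The action of Galois groups on points of order `p`
-/

set_option autoImplicit false
set_option linter.unusedSectionVars false

namespace Pool.Agent.T9h30.PG

open NumberField IsDedekindDomain WeierstrassCurve
open Pool.Agent.T9h30.BT
open Pool.Agent.TH910.LS (av av_na av_le_one av_lt_one Inert gal sig sig_eq eqv eqv_zero eqv_some
  sw_bc)
open Pool.Agent.TH942 (sw SPt)
open Pool.Agent.H901R3.MS (Place CV Pt Disc)
open Pool.Agent.Y213.EC (IsRd exists_red exists_map)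

section defs

variable {K : Type} [Field K]

/-- the points over `M` of the curve `y² = x³ + a x + b` over `K` -/
abbrev EP (a b : K) (M : Type) [Field M] [Algebra K M] : Type :=
  ((cv a b).baseChange M).toAffine.Point

variable {a b : K} {M M' M'' : Type} [Field M] [Field M'] [Field M''] [Algebra K M] [Algebra K M']
  [Algebra K M''] [DecidableEq M] [DecidableEq M'] [DecidableEq M'']

/-- the map of points -/
noncomputable def mp (f : M →ₐ[K] M') : EP a b M →+ EP a b M' :=
  Affine.Point.map (W' := (cv a b).toAffine) (S := K) f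

lemma mp_some (f : M →ₐ[K] M') {x y : M}
    (h : ((cv a b).baseChange M).toAffine.Nonsingular x y) :
    ∃ h', mp f (Affine.Point.some x y h : EP a b M) = Affine.Point.some (f x) (f y) h' :=
  ⟨_, rfl⟩

lemma mp_mp (f : M →ₐ[K] M') (g : M' →ₐ[K] M'') (P : EP a b M) :
    mp g (mp f P) = mp (g.comp f) P := by
  cases P <;> rfl

lemma mp_id (P : EP a b M) : mp (AlgHom.id K M) P = P := by
  cases P <;> rfl

lemma mp_inj (f : M →ₐ[K] M') : Function.Injective (mp f : EP a b M → EP a b M') :=
  Affine.Point.map_injective (W' := (cv a b).toAffine) (S := K) f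

/-- the action of the Galois group -/
@[reducible]
noncomputable def actE (a b : K) (M : Type) [Field M] [Algebra K M] [DecidableEq M] :
    DistribMulAction (M ≃ₐ[K] M) (EP a b M) where
  smul s P := mp (s : M →ₐ[K] M) P
  one_smul P := by
    show mp _ P = P
    exact mp_id P
  mul_smul s t P := by
    show mp _ P = mp _ (mp _ P)
    rw [mp_mp]
    rfl
  smul_zero s := map_zero _
  smul_add s P Q := map_add _ P Q

attribute [local instance] actE

lemma smul_def' (s : M ≃ₐ[K] M) (P : EP a b M) : s • P = mp (s : M →ₐ[K] M) P := rfl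

lemma mp_smul (s : M ≃ₐ[K] M) (f : M →ₐ[K] M') (P : EP a b M) :
    mp f (s • P) = mp (f.comp (s : M →ₐ[K] M)) P := by
  rw [smul_def', mp_mp]

/-- points fixed by the Galois group -/
theorem fixed_pt [IsGalois K M] [FiniteDimensional K M] [DecidableEq K] {F : Type} [Field F]
    [DecidableEq F] [Algebra K F]
    [Algebra F M] [IsScalarTower K F M] {P : EP a b M}
    (h : ∀ s : M ≃ₐ[K] M, (∀ x : F, s (algebraMap F M x) = algebraMap F M x) → s • P = P) :
    ∃ P₀ : EP a b F, mp (IsScalarTower.toAlgHom K F M) P₀ = P := by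
  have hG : IsGalois F M := IsGalois.tower_top_of_isGalois K F M
  have hfd : FiniteDimensional F M := Module.Finite.of_restrictScalars_finite K F M
  match P, h with
  | .zero, _ => exact ⟨0, rfl⟩
  | .some x y hxy, h =>
    have hx : ∀ s : M ≃ₐ[F] M, s x = x ∧ s y = y := by
      intro s
      have h1 := h (s.restrictScalars K) (fun z => s.commutes z)
      obtain ⟨h', h3⟩ := mp_some (a := a) (b := b)
        ((s.restrictScalars K : M ≃ₐ[K] M) : M →ₐ[K] M) hxy
      exact (Affine.Point.some.injEq _ _ _ _ _ _).mp (h3.symm.trans h1)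
    obtain ⟨x₀, hx₀⟩ := (IsGalois.mem_bot_iff_fixed (F := F) (E := M) x).2 fun s => (hx s).1
    obtain ⟨y₀, hy₀⟩ := (IsGalois.mem_bot_iff_fixed (F := F) (E := M) y).2 fun s => (hx s).2
    have hx₀' : algebraMap F M x₀ = x := hx₀
    have hy₀' : algebraMap F M y₀ = y := hy₀
    subst hx₀'
    subst hy₀'
    have h0 : ((cv a b).baseChange F).toAffine.Nonsingular x₀ y₀ :=
      ((cv a b).toAffine.baseChange_nonsingular (IsScalarTower.toAlgHom K F M).injective x₀ y₀).1 hxy
    exact ⟨.some x₀ y₀ h0, rfl⟩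

end defs

section red

variable {K M : Type} [Field K] [NumberField K] [Field M] [NumberField M] [Algebra K M]
  [DecidableEq M] {a b : 𝓞 K}

attribute [local instance] actE

lemma int_alg (x : 𝓞 K) : algebraMap K M (x : K) = ((algebraMap (𝓞 K) (𝓞 M) x : 𝓞 M) : M) := by
  exact (IsScalarTower.algebraMap_apply (𝓞 K) K M x).symm.trans
    (IsScalarTower.algebraMap_apply (𝓞 K) (𝓞 M) M x)

/-- the points as points of the curve `sw` -/
noncomputable def tr (a b : 𝓞 K) (M : Type) [Field M] [NumberField M] [Algebra K M]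
    [DecidableEq M] :
    EP (a : K) (b : K) M ≃+ SPt (algebraMap K M (a : K)) (algebraMap K M (b : K)) :=
  eqv (sw_bc (a : K) (b : K))

lemma tr_zero : tr a b M (Affine.Point.zero) = Affine.Point.zero := eqv_zero _

lemma ns_sw {x y : M} (h : ((cv (a : K) (b : K)).baseChange M).toAffine.Nonsingular x y) :
    (sw (algebraMap K M (a : K)) (algebraMap K M (b : K))).toAffine.Nonsingular x y := by
  have e : ((cv (a : K) (b : K)).baseChange M).toAffine =
      (sw (algebraMap K M (a : K)) (algebraMap K M (b : K))).toAffine := sw_bc (a : K) (b : K)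
  rw [e] at h
  exact h

lemma tr_some {x y : M} (h : ((cv (a : K) (b : K)).baseChange M).toAffine.Nonsingular x y) :
    tr a b M (Affine.Point.some x y h) = Affine.Point.some x y (ns_sw h) := eqv_some _ _

lemma gal_tr (s : M ≃ₐ[K] M) (Q : EP (a : K) (b : K) M) :
    gal s (tr a b M Q) = tr a b M (s • Q) := by
  match Q with
  | .zero =>
    have e : s • (Affine.Point.zero : EP (a : K) (b : K) M) = Affine.Point.zero := rfl
    rw [e, tr_zero]
    rfl
  | .some x y h =>
    obtain ⟨h', h1⟩ := mp_some (a := (a : K)) (b := (b : K)) (s : M →ₐ[K] M) h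
    have e : s • (Affine.Point.some x y h : EP (a : K) (b : K) M) =
      Affine.Point.some ((s : M →ₐ[K] M) x) ((s : M →ₐ[K] M) y) h' := h1
    rw [e, tr_some, tr_some]
    rfl

/-- the conditions on the place -/
structure Gp (a b : 𝓞 K) (p : ℕ) (w : HeightOneSpectrum (𝓞 M)) : Prop where
  disc : 2 * (4 * a ^ 3 + 27 * b ^ 2) ∉ (lo (K := K) w).asIdeal
  char : (p : 𝓞 K) ∉ (lo (K := K) w).asIdeal

variable {p : ℕ} {w : HeightOneSpectrum (𝓞 M)}

lemma Gp.two (h : Gp a b p w) : av w (2 : M) = 1 := by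
  have h1 := h.disc
  have h2 : algebraMap (𝓞 K) (𝓞 M) 2 ∉ w.asIdeal := fun h2 =>
    h1 ((lo (K := K) w).asIdeal.mul_mem_right _ (mem_lo.2 h2))
  have h3 := av_one h2
  rw [map_ofNat] at h3
  exact_mod_cast h3

lemma Gp.chr (h : Gp a b p w) : av w (p : M) = 1 := by
  have h1 := h.char
  rw [mem_lo] at h1
  have h3 := av_one h1
  rw [map_natCast] at h3
  exact_mod_cast h3

lemma Gp.delta (h : Gp a b p w) :
    av w (4 * (algebraMap K M (a : K)) ^ 3 + 27 * (algebraMap K M (b : K)) ^ 2) = 1 := by
  have h1 := h.disc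
  have h2 : algebraMap (𝓞 K) (𝓞 M) (4 * a ^ 3 + 27 * b ^ 2) ∉ w.asIdeal := fun h2 =>
    h1 ((lo (K := K) w).asIdeal.mul_mem_left _ (mem_lo.2 h2))
  have h3 := av_one h2
  rw [← int_alg] at h3
  have e : ((4 * a ^ 3 + 27 * b ^ 2 : 𝓞 K) : K) = 4 * (a : K) ^ 3 + 27 * (b : K) ^ 2 := by
    simp only [map_add, map_mul, map_pow, map_ofNat]
  rw [e, map_add, map_mul, map_mul, map_pow, map_pow, map_ofNat, map_ofNat] at h3
  exact h3

lemma av_alg (x : 𝓞 K) : av w (algebraMap K M (x : K)) ≤ 1 := by
  rw [int_alg]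
  exact av_int _

/-- **Inertia and points of order `p`.** -/
theorem inert_tors (h : Gp a b p w) (hp : p.Prime) (hp2 : 2 < p) {s : M ≃ₐ[K] M} (hs : s ∈ In w)
    (P : EP (a : K) (b : K) M) (hP : p • (s • P - P) = 0) : s • P = P := by
  by_contra hcon
  have h2 : tr a b M P - gal s (tr a b M P) = tr a b M (P - s • P) := by
    rw [gal_tr, map_sub]
  have h3 : tr a b M P - gal s (tr a b M P) ≠ 0 := by
    rw [h2, Ne, EmbeddingLike.map_eq_zero_iff, sub_eq_zero]
    exact fun h => hcon h.symm
  obtain ⟨x, y, hxy, h4, h5⟩ := Pool.Agent.TH910.LS.inert_point (a := a) (b := b)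
    (s := s) (fun z => (w.valuation_lt_one_iff_mem (s • z - z)).2 (hs z)) h.two h.delta
    (tr a b M P) h3
  have h6 : p • (Affine.Point.some x y hxy : SPt (algebraMap K M (a : K)) (algebraMap K M (b : K))) =
      0 := by
    rw [← h4, h2, ← map_nsmul, ← neg_sub, smul_neg, hP, neg_zero, map_zero]
  have h7 := tors_int (av_alg a) (av_alg b) h.two hp hp2 h.chr hxy h6
  exact absurd h5 (not_lt.2 h7)

/-- **The points of order `p` fixed by a Frobenius automorphism.** -/
theorem frb_tors (h : Gp a b p w) (hp : p.Prime) (hp2 : 2 < p) {φ : M ≃ₐ[K] M} (hφ : Frb w φ)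
    {T : EP (a : K) (b : K) M} (hT : p • T = 0) (hφT : φ • T = T) (hT0 : T ≠ 0) :
    p ∣ pp a b (lo (K := K) w) + 1 := by
  classical
  match T, hT, hφT, hT0 with
  | .zero, _, _, hT0 => exact absurd rfl hT0
  | .some x y hxy, hT, hφT, hT0 =>
    set v := lo (K := K) w with hv
    have hfinv : Finite (𝓞 K ⧸ v.asIdeal) := Ideal.finiteQuotientOfFreeOfNeBot _ v.ne_bot
    have hmax : v.asIdeal.IsMaximal := v.isMaximal
    let _ : Field (𝓞 K ⧸ v.asIdeal) := Ideal.Quotient.field _
    have hq : Nat.card (𝓞 K ⧸ v.asIdeal) = Ideal.absNorm v.asIdeal := rfl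
    -- the map of the residue fields
    let f : 𝓞 K ⧸ v.asIdeal →+* RF w := Ideal.Quotient.lift v.asIdeal
      ((rmap w).comp (algebraMap (𝓞 K) (𝓞 M))) (fun x hx => by
        rw [RingHom.comp_apply, rmap_zero]
        exact mem_lo.1 hx)
    have hf : ∀ z : 𝓞 K, f (Ideal.Quotient.mk _ z) = (plc w).r (algebraMap K M (z : K)) := by
      intro z
      rw [int_alg]
      rfl
    -- the conditions
    have hxw : av w x ≤ 1 := by
      refine tors_int (av_alg a) (av_alg b) h.two hp hp2 h.chr (x := x) (y := y)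
        (ns_sw hxy) ?_
      rw [← tr_some hxy, ← map_nsmul, hT, map_zero]
    have hxA : x ∈ (plc w).A := mem_A.2 (av_le_one.1 hxw)
    obtain ⟨h', h1⟩ := mp_some (a := (a : K)) (b := (b : K)) (φ : M →ₐ[K] M) hxy
    have hφT' : φ x = x ∧ φ y = y := (Affine.Point.some.injEq _ _ _ _ _ _).mp (h1.symm.trans hφT)
    -- reduction
    have hcv : ((cv (a : K) (b : K)).baseChange M) = CV (algebraMap K M (a : K)) (algebraMap K M b) := by
      unfold WeierstrassCurve.baseChange
      rw [cv_map]
      rfl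
    have hdv : Disc (Ideal.Quotient.mk v.asIdeal a) (Ideal.Quotient.mk v.asIdeal b) := by
      intro h3
      apply h.disc
      rw [← Ideal.Quotient.eq_zero_iff_mem]
      simp only [map_add, map_mul, map_pow, map_ofNat]
      exact h3
    have hdR : Disc (f (Ideal.Quotient.mk v.asIdeal a)) (f (Ideal.Quotient.mk v.asIdeal b)) := by
      intro h3
      apply hdv
      apply f.injective
      rw [map_zero]
      simp only [map_add, map_mul, map_pow, map_ofNat]
      exact h3
    obtain ⟨red, hr1, hr2, hr3⟩ := exists_red (plc w) (a := algebraMap K M (a : K))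
      (b := algebraMap K M (b : K)) (a' := f (Ideal.Quotient.mk v.asIdeal a))
      (b' := f (Ideal.Quotient.mk v.asIdeal b)) (mem_A.2 (av_le_one.1 (av_alg a)))
      (mem_A.2 (av_le_one.1 (av_alg b))) (hf a).symm (hf b).symm hdR
    have hxy' : (CV (algebraMap K M (a : K)) (algebraMap K M b)).toAffine.Nonsingular x y :=
      ns_sw hxy
    obtain ⟨hyA, g, hg⟩ := hr3 x y hxy' hxA
    have hTp : p • (Affine.Point.some x y hxy' :
        Pt (algebraMap K M (a : K)) (algebraMap K M (b : K))) = 0 := by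
      show p • (Affine.Point.some x y (ns_sw hxy) :
        SPt (algebraMap K M (a : K)) (algebraMap K M (b : K))) = 0
      rw [← tr_some hxy, ← map_nsmul, hT, map_zero]
    -- the coordinates
    obtain ⟨x₀, hx₀⟩ := frob_fix f (z := (plc w).r x) (by
      rw [hq, ← (frb_r hφ (mem_A.1 hxA)).2, hφT'.1])
    obtain ⟨y₀, hy₀⟩ := frob_fix f (z := (plc w).r y) (by
      rw [hq, ← (frb_r hφ (mem_A.1 hyA)).2, hφT'.2])
    obtain ⟨j, hj⟩ := exists_map f (a := Ideal.Quotient.mk v.asIdeal a)
      (b := Ideal.Quotient.mk v.asIdeal b) rfl rfl hdR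
    have heq : Pool.Agent.H901R3.MS.Eqn (Ideal.Quotient.mk v.asIdeal a)
        (Ideal.Quotient.mk v.asIdeal b) x₀ y₀ := by
      have h4 := Pool.Agent.H901R3.MS.eqn_of g
      unfold Pool.Agent.H901R3.MS.Eqn at h4 ⊢
      apply f.injective
      rw [map_pow, map_add, map_add, map_mul, map_pow, hx₀, hy₀]
      exact h4
    have hns := (Pool.Agent.H901R3.MS.nonsingular_iff hdv).2 heq
    obtain ⟨g', hg'⟩ := hj x₀ y₀ hns
    have hred : red (Affine.Point.some x y hxy') = j (Affine.Point.some x₀ y₀ hns) := by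
      rw [hg, hg']
      congr 1
      · exact hx₀.symm
      · exact hy₀.symm
    have hjinj : ∀ P : Pt (Ideal.Quotient.mk v.asIdeal a) (Ideal.Quotient.mk v.asIdeal b),
        j P = 0 → P = 0 := by
      intro P hP
      match P, hP with
      | .zero, _ => rfl
      | .some x y h, hP =>
        obtain ⟨g'', hg''⟩ := hj x y h
        rw [hg''] at hP
        exact absurd hP (Affine.Point.some_ne_zero _)
    set T₀ : Pt (Ideal.Quotient.mk v.asIdeal a) (Ideal.Quotient.mk v.asIdeal b) :=
      Affine.Point.some x₀ y₀ hns with hT₀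
    have hT₀p : p • T₀ = 0 := by
      apply hjinj
      rw [map_nsmul, ← hred, ← map_nsmul, hTp, map_zero]
    have hT₀0 : T₀ ≠ 0 := Affine.Point.some_ne_zero _
    obtain ⟨hfin, hcard⟩ := card_pt hdv
    have hfp : Fact p.Prime := ⟨hp⟩
    have h5 := addOrderOf_eq_prime hT₀p hT₀0
    have h6 := addOrderOf_dvd_natCard T₀
    rw [h5, hcard] at h6
    exact h6

end red

end Pool.Agent.T9h30.PG
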