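import Pool.Agent.T9h30.BT.Dec
import Mathlib

/-!
# Frobenius automorphisms and inertia in towers, cyclotomic extensions
-/

set_option autoImplicit false
set_option linter.unusedSectionVars false

namespace Pool.Agent.T9h30.PG

open NumberField IsDedekindDomain
open Pool.Agent.T9h30.BT

section tower

variable {K F C : Type} [Field K] [NumberField K] [Field F] [NumberField F] [Field C]
  [NumberField C] [Algebra K F] [Algebra K C] [Algebra F C] [IsScalarTower K F C]

lemma lo_lo (w : HeightOneSpectrum (𝓞 C)) :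
    lo (K := K) (lo (K := F) w) = lo (K := K) w := by
  apply HeightOneSpectrum.ext
  ext x
  rw [mem_lo, mem_lo, mem_lo, ← IsScalarTower.algebraMap_apply (𝓞 K) (𝓞 F) (𝓞 C)]

lemma res_smul [IsGalois K F] (g : C ≃ₐ[K] C) (x : 𝓞 F) :
    algebraMap (𝓞 F) (𝓞 C) (g.restrictNormal F • x) = g • algebraMap (𝓞 F) (𝓞 C) x := by
  apply RingOfIntegers.ext
  exact AlgEquiv.restrictNormal_commutes g F (x : F)

lemma res_frb [IsGalois K F] {w : HeightOneSpectrum (𝓞 C)} {g : C ≃ₐ[K] C} (h : Frb w g) :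
    Frb (lo (K := F) w) (g.restrictNormal F) := by
  intro x
  rw [mem_lo, map_sub, map_pow, res_smul, lo_lo]
  exact h _

lemma card_In [IsGalois K F] (u : HeightOneSpectrum (𝓞 F)) :
    Nat.card (In (K := K) u) = u.asIdeal.ramificationIdx (𝓞 K) := by
  set v := lo (K := K) u with hv
  have hvp := u.isPrime
  have hvl := v.isPrime
  have hperf : PerfectField v.asIdeal.ResidueField := by
    have hmax : v.asIdeal.IsMaximal := v.isMaximal
    have : Finite v.asIdeal.ResidueField := by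
      have h1 : Finite (𝓞 K ⧸ v.asIdeal) := Ideal.finiteQuotientOfFreeOfNeBot _ v.ne_bot
      have h2 : Function.Surjective (algebraMap (𝓞 K ⧸ v.asIdeal) v.asIdeal.ResidueField) :=
        (Ideal.bijective_algebraMap_quotient_residueField _).2
      exact Finite.of_surjective _ h2
    infer_instance
  have h1 := Ideal.card_inertia_eq_ramificationIdxIn (G := F ≃ₐ[K] F) v.asIdeal u.asIdeal
  rw [Ideal.ramificationIdxIn_eq_ramificationIdx v.asIdeal u.asIdeal (F ≃ₐ[K] F)] at h1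
  exact h1

lemma card_one {u : HeightOneSpectrum (𝓞 F)} (h : ∀ t ∈ In (K := K) u, t = 1) :
    Nat.card (In (K := K) u) = 1 := by
  rw [Nat.card_eq_one_iff_unique]
  exact ⟨⟨fun a b => Subtype.ext ((h a.1 a.2).trans (h b.1 b.2).symm)⟩, ⟨1⟩⟩

/-- **unramified extensions of subfields** -/
theorem in_tower [IsGalois K F] [IsGalois K C] {w : HeightOneSpectrum (𝓞 C)}
    (h : ∀ t ∈ In (K := K) w, t = 1) : ∀ t ∈ In (K := K) (lo (K := F) w), t = 1 := by
  have h1 := card_one h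
  rw [card_In] at h1
  have h2 : (lo (K := F) w).asIdeal.ramificationIdx (𝓞 K) ∣ w.asIdeal.ramificationIdx (𝓞 K) :=
    Ideal.ramificationIdx_below_dvd (R := 𝓞 K) (lo (K := F) w).asIdeal w.asIdeal
  rw [h1, Nat.dvd_one, ← card_In, Nat.card_eq_one_iff_unique] at h2
  intro t ht
  have h3 := h2.1.elim (⟨t, ht⟩ : In (K := K) (lo (K := F) w)) 1
  exact congrArg Subtype.val h3

end tower

section cyc

variable {K C : Type} [Field K] [NumberField K] [Field C] [NumberField C] [Algebra K C]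

lemma cop_nrm {m : ℕ} {w : HeightOneSpectrum (𝓞 C)} (h : (m : 𝓞 C) ∉ w.asIdeal) :
    (Ideal.absNorm w.asIdeal).Coprime m := by
  rw [Nat.coprime_iff_gcd_eq_one]
  by_contra hne
  obtain ⟨q, hq, hq1⟩ := Nat.exists_prime_and_dvd hne
  have hq2 := hq1.trans (Nat.gcd_dvd_left _ _)
  have hq3 := hq1.trans (Nat.gcd_dvd_right _ _)
  have hmax : w.asIdeal.IsMaximal := w.isMaximal
  have hfin : Finite (𝓞 C ⧸ w.asIdeal) := Ideal.finiteQuotientOfFreeOfNeBot _ w.ne_bot
  have hc : Nat.card (𝓞 C ⧸ w.asIdeal) = Ideal.absNorm w.asIdeal := rfl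
  have hfq : Fact q.Prime := ⟨hq⟩
  rw [← hc] at hq2
  obtain ⟨x, hx⟩ := exists_prime_addOrderOf_dvd_card' (G := 𝓞 C ⧸ w.asIdeal) q hq2
  have hx0 : x ≠ 0 := by
    rintro rfl
    rw [addOrderOf_zero] at hx
    exact hq.one_lt.ne hx
  have h1 : q • x = 0 := by
    rw [← hx]
    exact addOrderOf_nsmul_eq_zero x
  let _ : Field (𝓞 C ⧸ w.asIdeal) := Ideal.Quotient.field _
  rw [nsmul_eq_mul] at h1
  have h2 : (q : 𝓞 C ⧸ w.asIdeal) = 0 := (mul_eq_zero.1 h1).resolve_right hx0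
  apply h
  rw [← Ideal.Quotient.eq_zero_iff_mem, map_natCast]
  obtain ⟨r, hr⟩ := hq3
  rw [hr, Nat.cast_mul, h2, zero_mul]

variable (m : ℕ) [NeZero m] (K C) [IsCyclotomicExtension {m} K C]

/-- the cyclotomic character -/
noncomputable def kc : (C ≃ₐ[K] C) →* (ZMod m)ˣ :=
  (IsCyclotomicExtension.zeta_spec m K C).autToPow K

lemma kc_inj : Function.Injective (kc K C m) :=
  IsPrimitiveRoot.autToPow_injective K (IsCyclotomicExtension.zeta_spec m K C)

variable {m K C}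

/-- the root of unity -/
noncomputable abbrev zt (m : ℕ) [NeZero m] (K C : Type) [Field K] [Field C] [NumberField C]
    [Algebra K C] [IsCyclotomicExtension {m} K C] : 𝓞 C :=
  (IsCyclotomicExtension.zeta_spec m K C).toInteger

lemma zt_prim : IsPrimitiveRoot (zt m K C) m :=
  (IsCyclotomicExtension.zeta_spec m K C).toInteger_isPrimitiveRoot

lemma zt_smul (t : C ≃ₐ[K] C) : t • zt m K C = zt m K C ^ ((kc K C m t : (ZMod m)ˣ) : ZMod m).val := by
  apply RingOfIntegers.ext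
  have h := (IsCyclotomicExtension.zeta_spec m K C).autToPow_spec K t
  exact h.symm

lemma zt_mk {w : HeightOneSpectrum (𝓞 C)} (h : (m : 𝓞 K) ∉ (lo (K := K) w).asIdeal) :
    IsPrimitiveRoot (Ideal.Quotient.mk w.asIdeal (zt m K C)) m := by
  have h1 : (m : 𝓞 C) ∉ w.asIdeal := by
    intro h2
    apply h
    rw [mem_lo, map_natCast]
    exact h2
  refine zt_prim.idealQuotient_mk ?_ (cop_nrm h1)
  rw [Ne, Ideal.absNorm_eq_one_iff]
  exact w.isPrime.ne_top

/-- the Frobenius automorphisms -/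
theorem kc_frb {w : HeightOneSpectrum (𝓞 C)} (h : (m : 𝓞 K) ∉ (lo (K := K) w).asIdeal)
    {t : C ≃ₐ[K] C} (ht : Frb w t) :
    ((kc K C m t : (ZMod m)ˣ) : ZMod m) = (Ideal.absNorm (lo (K := K) w).asIdeal : ℕ) := by
  have h0 := zt_mk (C := C) h
  have h1 := ht (zt m K C)
  rw [zt_smul, ← Ideal.Quotient.eq, map_pow, map_pow,
    (h0.isOfFinOrder (NeZero.ne _)).pow_inj_mod, ← h0.eq_orderOf,
    ← ZMod.natCast_eq_natCast_iff', ZMod.natCast_zmod_val] at h1
  exact h1

/-- inertia -/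
theorem kc_in {w : HeightOneSpectrum (𝓞 C)} (h : (m : 𝓞 K) ∉ (lo (K := K) w).asIdeal)
    {t : C ≃ₐ[K] C} (ht : t ∈ In (K := K) w) : t = 1 := by
  have h0 := zt_mk (C := C) h
  have h1 := (mem_In.1 ht) (zt m K C)
  have h2 : Ideal.Quotient.mk w.asIdeal (zt m K C) ^ ((kc K C m t : (ZMod m)ˣ) : ZMod m).val =
      Ideal.Quotient.mk w.asIdeal (zt m K C) ^ 1 := by
    rw [← map_pow, pow_one, ← zt_smul]
    exact Ideal.Quotient.eq.2 h1
  rw [(h0.isOfFinOrder (NeZero.ne _)).pow_inj_mod, ← h0.eq_orderOf,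
    ← ZMod.natCast_eq_natCast_iff', ZMod.natCast_zmod_val, Nat.cast_one] at h2
  apply kc_inj K C m
  rw [map_one]
  exact Units.ext h2

/-- the norms of ideals prime to `m` -/
theorem exists_t [IsGalois K C] (I : Ideal (𝓞 K)) : I ≠ ⊥ →
    (∀ v : HeightOneSpectrum (𝓞 K), I ≤ v.asIdeal → (m : 𝓞 K) ∉ v.asIdeal) →
    ∃ t : C ≃ₐ[K] C, ((kc K C m t : (ZMod m)ˣ) : ZMod m) = (Ideal.absNorm I : ℕ) := by
  induction I using UniqueFactorizationMonoid.induction_on_prime with
  | h₁ => exact fun h => absurd rfl h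
  | h₂ I hI =>
    intro _ _
    refine ⟨1, ?_⟩
    rw [Ideal.isUnit_iff] at hI
    rw [hI, map_one, Ideal.absNorm_top, Units.val_one, Nat.cast_one]
  | h₃ I P hI hP ih =>
    intro hne hv
    let v : HeightOneSpectrum (𝓞 K) := ⟨P, Ideal.isPrime_of_prime hP, hP.ne_zero⟩
    obtain ⟨t, ht⟩ := ih hI fun v' hv' => hv v' (Ideal.mul_le_right.trans hv')
    obtain ⟨⟨w, hw⟩⟩ := exists_ab (F := C) v
    obtain ⟨s, hs⟩ := exists_frb (K := K) w
    have h1 := kc_frb (m := m) (by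
      rw [hw]
      exact hv v Ideal.mul_le_left) hs
    refine ⟨s * t, ?_⟩
    rw [map_mul, Units.val_mul, h1, ht, hw, map_mul, Nat.cast_mul]

end cyc

end Pool.Agent.T9h30.PG
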