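import Pool.Agent.T9h30.BT.Gd
import Pool.Agent.K4H55.CX.AbL

/-!
# Central values of the twists by characters of `p`-power order
-/

set_option autoImplicit false
set_option linter.unusedSectionVars false

namespace Pool.Agent.T9h30.PG

open NumberField IsDedekindDomain Finset Filter Topology
open Pool.Agent.T9h30.BT
open Pool.Agent.K4H55.BI (gen gen_dvd gen_prime gen_na gen_inj gen_span rs rs_CRS md Fam fam_of fv
  MG IQ BF ordK Fser Fser_eq fv_eq kap kap_pos nu nu_ne dvd_md md_coprime)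
open Pool.Agent.K4H55.BK (Vals)
open Pool.Agent.K4H55.CX (Hc efx gx gx_ne br value_x md_gen_dvd)
open Pool.Agent.Y18.LP (one_sub_mem)
open scoped ComplexConjugate

variable {K : Type} [Field K] [NumberField K]

/-- primitive characters modulo the product of the `v ∈ T`, trivial on the units, of `p`-power
order -/
structure CHp (p : ℕ) (T : Finset (HeightOneSpectrum (𝓞 K))) (χ : 𝓞 K → ℂ) : Prop where
  one : χ 1 = 1
  mul : ∀ x y, χ (x * y) = χ x * χ y
  zero : ∀ x, χ x = 0 ↔ ∃ v ∈ T, x ∈ v.asIdeal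
  prd : ∀ x y, (∀ v ∈ T, x - y ∈ v.asIdeal) → χ x = χ y
  unit : ∀ u, IsUnit u → χ u = 1
  prim : ∀ v ∈ T, ∃ x, (∀ v' ∈ T, v' ≠ v → x - 1 ∈ v'.asIdeal) ∧ χ x ≠ 0 ∧ χ x ≠ 1
  pow : ∃ k : ℕ, ∀ x, χ x ≠ 0 → χ x ^ p ^ k = 1

variable [hP : IsPrincipalIdealRing (𝓞 K)] {σ : K →+* ℂ} {δ : K} {n : 𝓞 K}
  {c : Ideal (𝓞 K) → ℂ} {T : Finset (HeightOneSpectrum (𝓞 K))} {χ : 𝓞 K → ℂ} {p : ℕ}

lemma CHp.ne_iff (h : CHp p T χ) (x : 𝓞 K) : χ x ≠ 0 ↔ ∀ v ∈ T, x ∉ v.asIdeal := by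
  rw [Ne, h.zero]
  push Not
  rfl

lemma CHp.hc [DecidableEq (𝓞 K)] (hp : p ≠ 0) (h : CHp p T χ) : Hc (T.image gen) χ := by
  classical
  have hne : ∀ x, (∀ p ∈ T.image gen, ¬ p ∣ x) → χ x ≠ 0 := by
    intro x hx
    rw [h.ne_iff]
    exact fun v hv hm => hx _ (Finset.mem_image_of_mem _ hv) (gen_dvd.2 hm)
  refine ⟨fun x y hxy => h.prd x y fun v hv => ?_, h.mul, h.one, fun x p hp hd => ?_,
    fun x hx => ?_, fun p hp => ?_⟩
  · exact gen_dvd.1 ((dvd_md (Finset.mem_image_of_mem _ hv)).trans hxy)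
  · obtain ⟨v, hv, rfl⟩ := Finset.mem_image.1 hp
    exact (h.zero x).2 ⟨v, hv, gen_dvd.1 hd⟩
  · obtain ⟨k, hk⟩ := h.pow
    have h1 := hk x (hne x hx)
    have h2 : ‖χ x‖ = 1 := Complex.norm_eq_one_of_pow_eq_one h1 (pow_ne_zero _ hp)
    rw [Complex.mul_conj, Complex.normSq_eq_norm_sq, h2]
    norm_num
  · obtain ⟨v, hv, rfl⟩ := Finset.mem_image.1 hp
    obtain ⟨x, h1, h2, h3⟩ := h.prim v hv
    refine ⟨x, md ((T.erase v).image gen), ?_, ?_, fun q hq hd => ?_, h3⟩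
    · unfold md
      rw [Finset.prod_image fun _ _ _ _ h => gen_inj h, Finset.prod_image fun _ _ _ _ h => gen_inj h,
        Finset.mul_prod_erase T gen hv]
    · exact md_gen_dvd _ fun v' hv' => h1 v' (Finset.mem_of_mem_erase hv')
        (Finset.ne_of_mem_erase hv')
    · obtain ⟨v', hv', rfl⟩ := Finset.mem_image.1 hq
      exact (h.ne_iff x).1 h2 v' hv' (gen_dvd.1 hd)

/-- a prime over `p` in the algebraic integers -/
theorem exists_pr (hp : p.Prime) : ∃ lam : Ideal (integralClosure ℤ ℂ), lam.IsPrime ∧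
    (p : integralClosure ℤ ℂ) ∈ lam := by
  obtain ⟨m, hm, hle⟩ := Ideal.exists_le_maximal (Ideal.span {(p : integralClosure ℤ ℂ)}) (by
    rw [Ne, Ideal.span_singleton_eq_top]
    intro hu
    obtain ⟨y, hy⟩ := hu.exists_right_inv
    have h1 : (p : ℂ) * (y : ℂ) = 1 := congrArg Subtype.val hy
    have hp0 : (p : ℂ) ≠ 0 := by exact_mod_cast hp.ne_zero
    have hp0' : (p : ℚ) ≠ 0 := by exact_mod_cast hp.ne_zero
    have h2 : IsIntegral ℤ (algebraMap ℚ ℂ (1 / p)) := by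
      have e : algebraMap ℚ ℂ (1 / p) = (y : ℂ) := by
        rw [map_div₀, map_one, map_natCast, div_eq_iff hp0, mul_comm, h1]
      rw [e]
      exact y.2
    have h3 : IsIntegral ℤ ((1 / p : ℚ)) :=
      (isIntegral_algebraMap_iff (algebraMap ℚ ℂ).injective).1 h2
    obtain ⟨q, hq⟩ := IsIntegrallyClosed.isIntegral_iff.1 h3
    have h4 : (p * q : ℚ) = 1 := by
      have hq' : (q : ℚ) = 1 / p := hq
      rw [hq', mul_one_div_cancel hp0']
    have h5 : (p : ℤ) * q = 1 := by exact_mod_cast h4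
    have h6 := Int.isUnit_iff.1 (IsUnit.of_mul_eq_one _ h5)
    have := hp.one_lt
    omega)
  exact ⟨m, hm.isPrime, hle (Ideal.mem_span_singleton_self _)⟩

/-- the rational integers in a prime over `p` -/
lemma int_mem (hp : p.Prime) {lam : Ideal (integralClosure ℤ ℂ)} (hlam : lam.IsPrime)
    (hmem : (p : integralClosure ℤ ℂ) ∈ lam) {m : ℤ} (hm : (m : integralClosure ℤ ℂ) ∈ lam) :
    (p : ℤ) ∣ m := by
  by_contra hnd
  have hco : IsCoprime (p : ℤ) m := (Nat.prime_iff_prime_int.1 hp).irreducible.coprime_iff_not_dvd.2 hnd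
  obtain ⟨s, t, hst⟩ := hco
  apply hlam.ne_top
  rw [Ideal.eq_top_iff_one]
  have e : (1 : integralClosure ℤ ℂ) = (s : integralClosure ℤ ℂ) * p + t * m := by
    exact_mod_cast hst.symm
  rw [e]
  exact lam.add_mem (lam.mul_mem_left _ hmem) (lam.mul_mem_left _ hm)

/-- **Nonvanishing.** -/
theorem val_p [DecidableEq (𝓞 K)] (h : IQ K σ δ) (hf : BF σ δ n c) (hp : p.Prime)
    (hχ : CHp p T χ)
    (hT : ∀ v ∈ T, (2 : 𝓞 K) ∉ v.asIdeal ∧ n ∉ v.asIdeal ∧
      ∃ m : ℤ, c v.asIdeal = m ∧ ¬ (p : ℤ) ∣ m - 2)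
    {z : ℂ} (hz : Tendsto (fun t => Fser σ δ c 0 t) (𝓝[>] 0) (𝓝 z)) {ω : ℂ}
    (hω : ∀ l ∈ AddSubgroup.closure (Vals σ δ n c), ∃ j : ℤ, l = j * ω)
    (hω' : ω ∈ AddSubgroup.closure (Vals σ δ n c))
    (hzp : ∀ y ∈ AddSubgroup.closure (Vals σ δ n c), z ≠ p * y) :
    ∃ G : ℂ → ℂ, Differentiable ℂ G ∧ (∀ s : ℂ, 2 < s.re → HasProd (efx n c χ s) (G s)) ∧
      G 1 ≠ 0 := by
  classical
  obtain ⟨C, w, κ, κW, hN⟩ := hf.newf h
  have hMG := hN.mg
  have hfam : Fam (T.image gen) := fam_im fun v hv => (hT v hv).1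
  have hhc := hχ.hc hp.ne_zero
  obtain ⟨G, g1, g2, g3⟩ := value_x h hf hfam hhc hχ.unit fun v hv => (hT v hv).2.1
  refine ⟨G, g1, g2, ?_⟩
  rw [g3]
  have hk0 : (kap (ordK h) : ℂ) ≠ 0 := by exact_mod_cast (kap_pos (ordK h)).ne'
  refine div_ne_zero (mul_ne_zero (div_ne_zero hk0 (gx_ne (ordK h) hfam hhc.br)) ?_)
    (nu_ne (ordK h))
  set D := ordK h with hD
  set f := fv D (fun x => c (Ideal.span {x})) with hfd
  set M := md (T.image gen) with hM
  intro hsum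
  -- the values
  have hlim : ∀ x : 𝓞 K, ∃ j : ℤ, f (D.ι x / D.ι M) = j * ω := by
    intro x
    refine hω _ (AddSubgroup.subset_closure ⟨x, M, hfam.md_ne, ?_, ?_⟩)
    · exact cop_im (fun v hv => ⟨(hT v hv).1, (hT v hv).2.1⟩) D
    · rw [Fser_eq h]
      exact hMG.tendsto hfam.md_ne (cop_im (fun v hv => ⟨(hT v hv).1, (hT v hv).2.1⟩) D)
  have h0 : f 0 = z := by
    rw [Fser_eq h] at hz
    exact fv_eq hz
  have hz1 : z ∈ AddSubgroup.closure (Vals σ δ n c) := by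
    refine AddSubgroup.subset_closure ⟨0, 1, one_ne_zero, isCoprime_one_left, ?_⟩
    have e : σ ((0 : 𝓞 K) : K) / σ ((1 : 𝓞 K) : K) = 0 := by simp
    rw [e]
    exact hz
  obtain ⟨m₀, hm₀⟩ := hω z hz1
  have hpm : ¬ (p : ℤ) ∣ m₀ := by
    rintro ⟨q, hq⟩
    refine hzp (q * ω) ?_ ?_
    · rw [← zsmul_eq_mul]
      exact AddSubgroup.zsmul_mem _ hω' q
    · rw [hm₀, hq]
      push_cast
      ring
  have hω0 : ω ≠ 0 := by
    intro hω0
    refine hzp 0 (AddSubgroup.zero_mem _) ?_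
    rw [hm₀, hω0, mul_zero, mul_zero]
  -- the sum for the trivial character
  obtain ⟨x, hx, h1⟩ := Z_prod hMG (c := (1 : Fk K)) (e := 1) (one_pow 1) (T := ∅) T
    (Finset.disjoint_empty_right _) (by
      rw [Finset.union_empty]
      exact fun v hv => ⟨(hT v hv).1, (hT v hv).2.1⟩) (fun v _ => rfl)
  have hb1 : Z D f 1 ∅ = z := by
    have h2 : bt D f (1 : Fk K) = f 0 := bt_one
    unfold bt at h2
    rw [sp_one] at h2
    rw [h2, h0]
  rw [Finset.union_empty, hb1] at h1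
  have h2 : ∏ v ∈ T, (c (Ideal.span {gen v}) - x v - (x v)⁻¹) = ∏ v ∈ T, (c v.asIdeal - 2) := by
    refine Finset.prod_congr rfl fun v _ => ?_
    have hx1 : x v = 1 := by
      have := hx v
      rwa [pow_one] at this
    rw [hx1, inv_one, gen_span]
    ring
  rw [h2] at h1
  -- the difference
  choose j hj using hlim
  have hmT : ∃ A : ℤ, ∏ v ∈ T, (c v.asIdeal - 2) = A ∧ ¬ (p : ℤ) ∣ A := by
    have : ∀ v, ∃ m : ℤ, v ∈ T → c v.asIdeal = m ∧ ¬ (p : ℤ) ∣ m - 2 := by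
      intro v
      by_cases hv : v ∈ T
      · obtain ⟨m, hm⟩ := (hT v hv).2.2
        exact ⟨m, fun _ => hm⟩
      · exact ⟨0, fun h => absurd h hv⟩
    choose m hm using this
    refine ⟨∏ v ∈ T, (m v - 2), ?_, ?_⟩
    · push_cast
      exact Finset.prod_congr rfl fun v hv => by rw [(hm v hv).1]
    · rw [(Nat.prime_iff_prime_int.1 hp).dvd_finsetProd_iff]
      rintro ⟨v, hv, hd⟩
      exact (hm v hv).2 hd
  obtain ⟨A, hA, hpA⟩ := hmT
  obtain ⟨lam, hlam, hmem⟩ := exists_pr hp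
  obtain ⟨k, hk⟩ := hχ.pow
  -- integrality of the values of the character
  have hint : ∀ y : 𝓞 K, ∃ t : integralClosure ℤ ℂ, t ∈ lam ∧
      (t : ℂ) = conj (χ y) - X T (1 : Fk K) y := by
    intro y
    by_cases hy : ∀ v ∈ T, y ∉ v.asIdeal
    · have h3 : conj (χ y) ^ p ^ k = 1 := by
        rw [← map_pow, hk y ((hχ.ne_iff y).2 hy), map_one]
      have h4 : IsIntegral ℤ (conj (χ y)) := by
        refine IsIntegral.of_pow (pow_pos hp.pos k) ?_
        rw [h3]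
        exact isIntegral_one
      have h5 := one_sub_mem lam hlam (n := k) hp hmem ⟨conj (χ y), h4⟩ (Subtype.ext h3)
      refine ⟨-(1 - ⟨conj (χ y), h4⟩), lam.neg_mem h5, ?_⟩
      rw [X_one_c hy]
      push_cast
      ring
    · refine ⟨0, lam.zero_mem, ?_⟩
      rw [X_zero hy]
      have h3 : χ y = 0 := by
        by_contra h0
        exact hy ((hχ.ne_iff y).1 h0)
      rw [h3, map_zero, sub_zero]
      rfl
  choose t ht1 ht2 using hint
  have h3 : ∑ y ∈ rs D M, ((t y : integralClosure ℤ ℂ) : ℂ) * (j y : ℂ) * ω = -(A * m₀ * ω) := by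
    have h4 : ∑ y ∈ rs D M, (conj (χ y) * f (D.ι y / D.ι M) -
        X T (1 : Fk K) y * f (D.ι y / D.ι M)) = -(A * m₀ * ω) := by
      rw [Finset.sum_sub_distrib, hsum, zero_sub]
      have h5 : Z D f 1 T = ∑ y ∈ rs D M, X T (1 : Fk K) y * f (D.ι y / D.ι M) := rfl
      rw [← h5, h1, hA, hm₀]
      ring
    rw [← h4]
    refine Finset.sum_congr rfl fun y _ => ?_
    rw [ht2, hj]
    ring
  have h4 : ((∑ y ∈ rs D M, t y * (j y : integralClosure ℤ ℂ) : integralClosure ℤ ℂ) : ℂ) =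
      ((-(A * m₀ : ℤ) : integralClosure ℤ ℂ) : ℂ) := by
    apply mul_right_cancel₀ hω0
    push_cast
    rw [Finset.sum_mul, h3]
    ring
  have h5 : (∑ y ∈ rs D M, t y * (j y : integralClosure ℤ ℂ) : integralClosure ℤ ℂ) =
      -((A * m₀ : ℤ) : integralClosure ℤ ℂ) := by
    apply Subtype.ext
    rw [h4]
  have h6 : ((A * m₀ : ℤ) : integralClosure ℤ ℂ) ∈ lam := by
    rw [← neg_mem_iff (H := lam), ← h5]
    exact lam.sum_mem fun y _ => lam.mul_mem_right _ (ht1 y)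
  rcases (Nat.prime_iff_prime_int.1 hp).dvd_or_dvd (int_mem hp hlam hmem h6) with h7 | h7
  · exact hpA h7
  · exact hpm h7

end Pool.Agent.T9h30.PG
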